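import Pool.Agent.MP_024e69_an.Mg.Thin

-- part MP_024e69_an.KM1
section

/-! Submodularity and a Caccioppoli inequality for near minimisers of the capacity. -/

open MeasureTheory Metric Set Filter Topology
open scoped ENNReal NNReal

namespace Pool.Agent.MP_024e69_an

universe u
variable {X : Type u} [MetricSpace X] [MeasurableSpace X] [BorelSpace X]
variable {μ : Measure X} {p : ℝ} [hp : Fact (1 < p)]

lemma submod {T B Ω : Set X} (hΩ : μ Ω ≠ ⊤) {w : X → ℝ} {G : X → ℝ≥0∞} (hw : DG μ p w G)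
    {d : ℝ} (hd : 0 < d) (h0 : ∀ x ∉ Ω, w x ≤ 0) (h1 : ∀ x ∈ T, x ∉ B → 1 ≤ w x)
    (h2 : ∀ x ∈ T, 1 - d ≤ w x) :
    varCap μ p T Ω ≤ ∫⁻ x, G x ^ p ∂μ + ENNReal.ofReal (p * d) * varCap μ p (T ∩ B) Ω := by
  have hp0 : 0 < p := zero_lt_one.trans hp.out
  set c := varCap μ p (T ∩ B) Ω with hc
  by_cases hct : c = ⊤
  · rw [hct, ENNReal.mul_top (ENNReal.ofReal_pos.2 (by positivity)).ne']; simp
  refine ENNReal.le_of_forall_pos_le_add fun ε hε _ => ?_
  obtain ⟨v, h, H, hlt⟩ := exists_adm (ENNReal.lt_add_right hct (b := ε) (by simpa using hε.ne'))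
  set Z := {x | v x ≤ w x} with hZ
  have hZm : NullMeasurableSet Z μ := nullMeasurableSet_le H.dg.mu hw.mu
  set G1 : X → ℝ≥0∞ := fun x => Z.indicator G x + Zᶜ.indicator h x with hG1
  set G2 : X → ℝ≥0∞ := fun x => Z.indicator h x + Zᶜ.indicator G x with hG2
  have hG1m : AEMeasurable G1 μ := (hw.mg.indicator₀ hZm).add (H.dg.mg.indicator₀ hZm.compl)
  have hG2m : AEMeasurable G2 μ := (H.dg.mg.indicator₀ hZm).add (hw.mg.indicator₀ hZm.compl)
  have hmax := hw.max_le H.dg hG1m (fun x hx => by simp [hG1, hZ, hx])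
    (fun x hx => by simp [hG1, hZ, hx])
  have hmin := hw.min_le H.dg hG2m (fun x hx => by simp [hG2, hZ, hx])
    (fun x hx => by simp [hG2, hZ, hx])
  have hsum : ∫⁻ x, G1 x ^ p ∂μ + ∫⁻ x, G2 x ^ p ∂μ = ∫⁻ x, G x ^ p ∂μ + ∫⁻ x, h x ^ p ∂μ := by
    rw [← lintegral_add_left' (hG1m.pow_const _), ← lintegral_add_left' (hw.mg.pow_const _)]
    refine lintegral_congr fun x => ?_
    by_cases hx : x ∈ Z
    · simp [hG1, hG2, hx]
    · simp [hG1, hG2, hx, add_comm]
  have k1 : varCap μ p T Ω ≤ ∫⁻ x, G1 x ^ p ∂μ := by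
    refine hmax.varCap_le (fun x hx => ?_) (fun x hx => max_le (h0 x hx) (H.zero x hx).le) hΩ
    by_cases hxB : x ∈ B
    · exact (H.one x ⟨hx, hxB⟩).ge.trans (le_max_right _ _)
    · exact (h1 x hx hxB).trans (le_max_left _ _)
  set θ := max (1 - d) 0 with hθ
  have hθ0 : 0 ≤ θ := le_max_right _ _
  have k2 : ENNReal.ofReal (θ ^ p) * c ≤ ∫⁻ x, G2 x ^ p ∂μ := by
    rcases hθ0.eq_or_lt with h | h
    · rw [← h, Real.zero_rpow hp0.ne']; simp
    have hθd : θ = 1 - d := max_eq_left (by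
      by_contra hcon
      rw [hθ, max_eq_right (le_of_not_ge hcon)] at h
      exact lt_irrefl _ h)
    have k3 := (hmin.affine θ⁻¹ 0).varCap_le (A := T ∩ B) (Ω := Ω) (fun x hx => by
      rw [add_zero, inv_mul_eq_div, one_le_div h, H.one x hx, hθd]
      exact le_min (h2 x hx.1) (by linarith)) (fun x hx => by
      rw [add_zero]
      exact mul_nonpos_of_nonneg_of_nonpos (by positivity) ((min_le_left _ _).trans (h0 x hx))) hΩ
    simp only [ENNReal.mul_rpow_of_nonneg _ _ hp0.le] at k3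
    rw [lintegral_const_mul' _ _ (ENNReal.rpow_ne_top_of_nonneg hp0.le (by simp))] at k3
    calc ENNReal.ofReal (θ ^ p) * c
        ≤ ENNReal.ofReal (θ ^ p) * (‖θ⁻¹‖ₑ ^ p * ∫⁻ x, G2 x ^ p ∂μ) := by gcongr
      _ = _ := by
        rw [← mul_assoc, Real.enorm_eq_ofReal (by positivity),
          ENNReal.ofReal_rpow_of_nonneg (by positivity) hp0.le,
          ← ENNReal.ofReal_mul (by positivity), ← Real.mul_rpow hθ0 (by positivity),
          mul_inv_cancel₀ h.ne', Real.one_rpow, ENNReal.ofReal_one, one_mul]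
  have k4 : c ≤ ENNReal.ofReal (θ ^ p) * c + ENNReal.ofReal (p * d) * c := by
    rw [← add_mul, ← ENNReal.ofReal_add (by positivity) (by positivity)]
    refine le_mul_of_one_le_left' (ENNReal.one_le_ofReal.2 ?_)
    rcases le_total d 1 with h | h
    · have := one_add_mul_self_le_rpow_one_add (s := -d) (by linarith) hp.out.le
      rw [hθ, max_eq_left (by linarith), sub_eq_add_neg]
      linarith
    · have : 0 ≤ θ ^ p := by positivity
      nlinarith [hp.out]
  have hfin : ENNReal.ofReal (θ ^ p) * c ≠ ⊤ := ENNReal.mul_ne_top ENNReal.ofReal_ne_top hct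
  refine (ENNReal.add_le_add_iff_right hfin).1 ?_
  calc varCap μ p T Ω + ENNReal.ofReal (θ ^ p) * c
      ≤ ∫⁻ x, G1 x ^ p ∂μ + ∫⁻ x, G2 x ^ p ∂μ := add_le_add k1 k2
    _ ≤ ∫⁻ x, G x ^ p ∂μ + (c + ε) := by rw [hsum]; gcongr
    _ ≤ ∫⁻ x, G x ^ p ∂μ + ((ENNReal.ofReal (θ ^ p) * c + ENNReal.ofReal (p * d) * c) + ε) := by
        gcongr
    _ = _ := by ring

/-- The bounded profile used in the test function. -/
noncomputable def Psi (τ k d t : ℝ) : ℝ := d * (1 - (1 + max (t - k) 0 / d) ^ (-τ))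

lemma Psi_of_le {τ k d t : ℝ} (h : t ≤ k) : Psi τ k d t = 0 := by
  simp [Psi, max_eq_right (sub_nonpos.2 h)]

lemma Psi_nonneg {τ k d : ℝ} (hτ : 0 ≤ τ) (hd : 0 < d) (t : ℝ) : 0 ≤ Psi τ k d t := by
  refine mul_nonneg hd.le (sub_nonneg.2 (Real.rpow_le_one_of_one_le_of_nonpos ?_ (by linarith)))
  have : 0 ≤ max (t - k) 0 / d := by positivity
  linarith

lemma Psi_le {τ k d : ℝ} (hd : 0 < d) (t : ℝ) : Psi τ k d t ≤ d := by
  refine mul_le_of_le_one_right hd.le (sub_le_self _ (Real.rpow_nonneg ?_ _))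
  positivity

lemma Psi_lip {τ k d : ℝ} (hτ : 0 ≤ τ) (hτ1 : τ ≤ 1) (hd : 0 < d) :
    LipschitzWith 1 (Psi τ k d) := by
  refine LipschitzWith.of_dist_le_mul fun s t => ?_
  have key : ∀ a ∈ Ici (0 : ℝ), ∀ b ∈ Ici (0 : ℝ),
      ‖(1 + b) ^ (-τ) - (1 + a) ^ (-τ)‖ ≤ 1 * ‖b - a‖ := by
    intro a ha b hb
    refine (convex_Ici (0 : ℝ)).norm_image_sub_le_of_norm_hasDerivWithin_le
      (f := fun a => (1 + a) ^ (-τ)) (f' := fun a => 1 * (-τ) * (1 + a) ^ (-τ - 1))
      (fun x hx => ?_) (fun x hx => ?_) ha hb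
    · have hx : 0 ≤ x := hx
      exact (((hasDerivAt_id x).const_add 1).rpow_const
        (Or.inl (by simp only [id]; linarith))).hasDerivWithinAt
    · have hx : 0 ≤ x := hx
      have h1 : (1 + x) ^ (-τ - 1) ≤ 1 :=
        Real.rpow_le_one_of_one_le_of_nonpos (by linarith) (by linarith)
      have h2 : 0 ≤ (1 + x) ^ (-τ - 1) := by positivity
      rw [Real.norm_eq_abs, abs_le]
      constructor <;> nlinarith
  have h1 := key (max (s - k) 0 / d) (by simp only [mem_Ici]; positivity) (max (t - k) 0 / d)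
    (by simp only [mem_Ici]; positivity)
  have h2 : |max (t - k) 0 - max (s - k) 0| ≤ |t - s| := by
    refine (abs_max_sub_max_le_max _ _ _ _).trans ?_
    simp
  simp only [Real.norm_eq_abs, one_mul, ← sub_div, abs_div, abs_of_pos hd] at h1
  simp only [Real.dist_eq, Psi, NNReal.coe_one, one_mul]
  rw [← mul_sub, abs_mul, abs_of_pos hd, sub_sub_sub_cancel_left, abs_sub_comm s t]
  calc d * _ ≤ d * (|max (t - k) 0 - max (s - k) 0| / d) := by gcongr
    _ = |max (t - k) 0 - max (s - k) 0| := by field_simp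
    _ ≤ _ := h2

omit hp in
lemma rpow_lip (hp : 1 ≤ p) {a b : ℝ} (ha : a ∈ Icc (0 : ℝ) 1) (hb : b ∈ Icc (0 : ℝ) 1) :
    dist (a ^ p) (b ^ p) ≤ p * dist a b := by
  rw [dist_eq_norm, dist_eq_norm]
  refine (convex_Icc (0 : ℝ) 1).norm_image_sub_le_of_norm_hasDerivWithin_le
    (f := fun a => a ^ p) (f' := fun a => p * a ^ (p - 1))
    (fun x _ => (Real.hasDerivAt_rpow_const (Or.inr hp)).hasDerivWithinAt) (fun x hx => ?_) hb ha
  have h1 : x ^ (p - 1) ≤ 1 := Real.rpow_le_one hx.1 hx.2 (by linarith)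
  have h2 : 0 ≤ x ^ (p - 1) := Real.rpow_nonneg hx.1 _
  rw [Real.norm_eq_abs, abs_of_nonneg (by positivity)]
  nlinarith

omit [BorelSpace X] in
lemma DG.km {u ζ : X → ℝ} {g : X → ℝ≥0∞} (hu : DG μ p u g) {L : ℝ} (_hL : 0 ≤ L)
    (hζ : DG μ p ζ fun _ => ENNReal.ofReal L) (hζ0 : ∀ x, 0 ≤ ζ x) (hζ1 : ∀ x, ζ x ≤ 1)
    {τ k d : ℝ} (hτ : 0 ≤ τ) (hτ1 : τ ≤ 1) (hd : 0 < d) :
    DG μ p (fun x => u x - ζ x ^ p * Psi τ k d (u x)) (fun x =>
      ENNReal.ofReal (1 - {z | k < u z}.indicator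
        (fun z => ζ z ^ p * (τ * (1 + (u z - k) / d) ^ (-τ - 1))) x) * g x +
      ENNReal.ofReal (p * ζ x ^ (p - 1) * L * Psi τ k d (u x))) := by
  have hp0 : 0 < p := zero_lt_one.trans hp.out
  have hΨ := Psi_lip (k := k) hτ hτ1 hd
  have hΨm : AEMeasurable (fun x => Psi τ k d (u x)) μ :=
    hΨ.continuous.measurable.comp_aemeasurable hu.mu
  have hac : ACae μ p (fun x => u x - ζ x ^ p * Psi τ k d (u x)) := by
    refine hu.ac.sub (ACae.mul ?_ (hu.ac.comp hΨ))
    filter_upwards [hζ.ac] with γ hγ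
    exact ac_of_dist_le' p hγ fun s _ t _ =>
      rpow_lip hp.out.le ⟨hζ0 _, hζ1 _⟩ ⟨hζ0 _, hζ1 _⟩
  have hum := hu.mu
  have hζm := hζ.mu
  refine ⟨hu.mu.sub ((hζ.mu.pow_const _).mul hΨm), ?_, hac, ?_⟩
  · refine AEMeasurable.add (AEMeasurable.mul (AEMeasurable.ennreal_ofReal
      (aemeasurable_const.sub (AEMeasurable.indicator₀ ?_ (nullMeasurableSet_gt hu.mu k)))) hu.mg)
      (AEMeasurable.ennreal_ofReal ((((hζ.mu.pow_const _).const_mul _).mul_const _).mul hΨm))
    exact (hζ.mu.pow_const _).mul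
      (((((hu.mu.sub_const _).div_const _).const_add _).pow_const _).const_mul _)
  filter_upwards [hu.loc hac, hu.le, hζ.le, hu.ac.diff, hζ.ac.diff] with γ h1 h2 h3 h4 h5
  filter_upwards [h1, h2, h3, h4, h5] with t k1 k2 k3 k4 k5
  rcases le_or_gt (u (γ.toFun t)) k with hk | hk
  · refine (k1 (by simp [Psi_of_le hk])).trans ?_
    rw [indicator_of_notMem (show γ.toFun t ∉ {z | k < u z} from not_lt.2 hk)]
    simp
  rw [indicator_of_mem (show γ.toFun t ∈ {z | k < u z} from hk)]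
  set U := fun s => u (γ.toFun s) with hU
  set Z := fun s => ζ (γ.toFun s) with hZ
  have hpos : 0 < 1 + (U t - k) / d := by
    have : 0 < (U t - k) / d := div_pos (sub_pos.2 hk) hd
    linarith
  have hder : HasDerivAt (fun s => U s - Z s ^ p * (d * (1 - (1 + (U s - k) / d) ^ (-τ))))
      (deriv U t - (deriv Z t * p * Z t ^ (p - 1) * (d * (1 - (1 + (U t - k) / d) ^ (-τ))) +
        Z t ^ p * (d * -(deriv U t / d * (-τ) * (1 + (U t - k) / d) ^ (-τ - 1))))) t :=
    k4.hasDerivAt.sub ((k5.hasDerivAt.rpow_const (Or.inr hp.out.le)).mul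
      ((((((k4.hasDerivAt.sub_const k).div_const d).const_add 1).rpow_const
        (Or.inl hpos.ne')).const_sub 1).const_mul d))
  have heq : (fun s => u (γ.toFun s) - ζ (γ.toFun s) ^ p * Psi τ k d (u (γ.toFun s))) =ᶠ[𝓝 t]
      fun s => U s - Z s ^ p * (d * (1 - (1 + (U s - k) / d) ^ (-τ))) := by
    filter_upwards [k4.continuousAt.eventually (lt_mem_nhds hk)] with s hs
    simp only [Psi, hU, hZ]
    rw [max_eq_left (sub_nonneg.2 hs.le)]
  rw [(hder.congr_of_eventuallyEq heq).deriv]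
  have hΨt : d * (1 - (1 + (U t - k) / d) ^ (-τ)) = Psi τ k d (U t) := by
    simp only [Psi]
    rw [max_eq_left (sub_nonneg.2 hk.le)]
  rw [hΨt]
  set σ := Z t ^ p * (τ * (1 + (U t - k) / d) ^ (-τ - 1)) with hσ
  have hσ1 : σ ≤ 1 := by
    have a1 : Z t ^ p ≤ 1 := Real.rpow_le_one (hζ0 _) (hζ1 _) hp0.le
    have a2 : (1 + (U t - k) / d) ^ (-τ - 1) ≤ 1 :=
      Real.rpow_le_one_of_one_le_of_nonpos
        (by have := div_pos (sub_pos.2 hk) hd; linarith) (by linarith)
    have a3 : 0 ≤ (1 + (U t - k) / d) ^ (-τ - 1) := by positivity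
    exact mul_le_one₀ a1 (by positivity) (mul_le_one₀ hτ1 a3 a2)
  have hb0 : 0 ≤ p * Z t ^ (p - 1) * Psi τ k d (U t) :=
    mul_nonneg (mul_nonneg hp0.le (Real.rpow_nonneg (hζ0 _) _)) (Psi_nonneg hτ hd _)
  have hrw : deriv U t - (deriv Z t * p * Z t ^ (p - 1) * Psi τ k d (U t) +
      Z t ^ p * (d * -(deriv U t / d * (-τ) * (1 + (U t - k) / d) ^ (-τ - 1)))) =
      (1 - σ) * deriv U t + -(p * Z t ^ (p - 1) * Psi τ k d (U t) * deriv Z t) := by
    rw [hσ]; field_simp; ring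
  rw [hrw]
  refine (enorm_add_le _ _).trans (add_le_add ?_ ?_)
  · rw [enorm_mul, Real.enorm_eq_ofReal (sub_nonneg.2 hσ1)]
    exact mul_le_mul_right k2 _
  · rw [enorm_neg, enorm_mul, Real.enorm_eq_ofReal hb0]
    refine (mul_le_mul_right k3 _).trans (le_of_eq ?_)
    rw [← ENNReal.ofReal_mul hb0]
    congr 1
    simp only [hZ, hU]
    ring

lemma km_pointwise {σ b e : ℝ} (hσ0 : 0 < σ) (hσ1 : σ ≤ 1) (hb : 0 ≤ b)
    (he : σ * (b / σ) ^ p ≤ e) (g : ℝ≥0∞) :
    (ENNReal.ofReal (1 - σ) * g + ENNReal.ofReal b) ^ p + ENNReal.ofReal σ * g ^ p ≤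
      g ^ p + ENNReal.ofReal e := by
  have hp0 : 0 < p := zero_lt_one.trans hp.out
  have hw : ENNReal.ofReal (1 - σ) + ENNReal.ofReal σ = 1 := by
    rw [← ENNReal.ofReal_add (by linarith) hσ0.le]; simp
  have hb' : ENNReal.ofReal b = ENNReal.ofReal σ * ENNReal.ofReal (b / σ) := by
    rw [← ENNReal.ofReal_mul hσ0.le]; congr 1; field_simp
  rw [hb']
  calc _ ≤ ENNReal.ofReal (1 - σ) * g ^ p + ENNReal.ofReal σ * ENNReal.ofReal (b / σ) ^ p +
        ENNReal.ofReal σ * g ^ p :=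
        add_le_add (ENNReal.rpow_arith_mean_le_arith_mean2_rpow _ _ _ _ hw hp.out.le) le_rfl
    _ = (ENNReal.ofReal (1 - σ) + ENNReal.ofReal σ) * g ^ p +
        ENNReal.ofReal σ * ENNReal.ofReal (b / σ) ^ p := by ring
    _ ≤ _ := by
        rw [hw, one_mul, ENNReal.ofReal_rpow_of_nonneg (by positivity) hp0.le,
          ← ENNReal.ofReal_mul hσ0.le]
        exact add_le_add le_rfl (ENNReal.ofReal_le_ofReal he)

lemma km_real {z τ L d s Ψ : ℝ} (hz : 0 < z) (hτ : 0 < τ) (hL : 0 ≤ L) (hd : 0 < d) (hs : 0 < s)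
    (hΨ0 : 0 ≤ Ψ) (hΨ : Ψ ≤ d) :
    z ^ p * (τ * s ^ (-τ - 1)) * (p * z ^ (p - 1) * L * Ψ / (z ^ p * (τ * s ^ (-τ - 1)))) ^ p ≤
      p ^ p * τ ^ (1 - p) * (L * d) ^ p * s ^ ((1 + τ) * (p - 1)) := by
  have hp0 : 0 < p := zero_lt_one.trans hp.out
  set σ := z ^ p * (τ * s ^ (-τ - 1)) with hσ
  have hσ0 : 0 < σ := by positivity
  calc σ * (p * z ^ (p - 1) * L * Ψ / σ) ^ p ≤ σ * (p * z ^ (p - 1) * L * d / σ) ^ p := by gcongr
    _ = (p * z ^ (p - 1) * (L * d)) ^ p * σ ^ (1 - p) := by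
        rw [Real.div_rpow (by positivity) hσ0.le, Real.rpow_sub hσ0, Real.rpow_one, mul_assoc _ L d]
        field_simp
    _ = p ^ p * τ ^ (1 - p) * (L * d) ^ p * s ^ ((1 + τ) * (p - 1)) *
        (z ^ ((p - 1) * p) * z ^ (p * (1 - p))) := by
        rw [hσ, Real.mul_rpow (by positivity) (by positivity),
          Real.mul_rpow (by positivity) (by positivity),
          Real.mul_rpow (by positivity) (by positivity) (z := 1 - p),
          Real.mul_rpow (by positivity) (by positivity) (z := 1 - p),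
          ← Real.rpow_mul hz.le, ← Real.rpow_mul hz.le, ← Real.rpow_mul hs.le,
          show (-τ - 1) * (1 - p) = (1 + τ) * (p - 1) by ring]
        ring
    _ = _ := by
        rw [← Real.rpow_add hz, show (p - 1) * p + p * (1 - p) = 0 by ring, Real.rpow_zero, mul_one]

/-- The Caccioppoli inequality. -/
lemma cacc {T Ω : Set X} (hΩ : μ Ω ≠ ⊤) {u : X → ℝ} {g : X → ℝ≥0∞} (H : Adm μ p T Ω u g)
    {η : ℝ≥0∞} (hmin : ∫⁻ z, g z ^ p ∂μ ≤ varCap μ p T Ω + η) (hfin : ∫⁻ z, g z ^ p ∂μ ≠ ⊤)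
    {τ k d r : ℝ} (hτ : 0 < τ) (hτ1 : τ ≤ 1) (hd : 0 < d) (hr : 0 < r) (x : X) :
    ∫⁻ z in ball x (r / 2) ∩ {z | k < u z},
        ENNReal.ofReal (τ * (1 + (u z - k) / d) ^ (-τ - 1)) * g z ^ p ∂μ ≤
      ENNReal.ofReal (p ^ p * τ ^ (1 - p) * ((r / 2)⁻¹ * d) ^ p) *
        ∫⁻ z in ball x r ∩ {z | k < u z},
          ENNReal.ofReal ((1 + (u z - k) / d) ^ ((1 + τ) * (p - 1))) ∂μ +
      ENNReal.ofReal (p * d) * varCap μ p (T ∩ ball x r) Ω + η := by
  have hp0 : 0 < p := zero_lt_one.trans hp.out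
  have hr2 : 0 < r / 2 := by positivity
  set ζ := cut (ball x (r / 2)) (r / 2) with hζ
  have hζ0 : ∀ z, 0 ≤ ζ z := cut_nonneg _ _
  have hζ1 : ∀ z, ζ z ≤ 1 := cut_le_one _ hr2
  have hζz : ∀ z ∉ ball x r, ζ z = 0 := fun z hz =>
    cut_of_notMem (nonempty_ball.2 hr2) hr2 fun h => hz (by
      have := thickening_subset_ball subset_rfl h
      rwa [add_halves] at this)
  have hζdg : DG μ p ζ fun _ => ENNReal.ofReal (r / 2)⁻¹ := DG.cut _ hr2
  have hW := H.dg.km (k := k) (inv_nonneg.2 hr2.le) hζdg hζ0 hζ1 hτ.le hτ1 hd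
  set K := {z | k < u z} with hK
  have hKm : NullMeasurableSet K μ := nullMeasurableSet_gt H.dg.mu k
  set σ := K.indicator (fun z => ζ z ^ p * (τ * (1 + (u z - k) / d) ^ (-τ - 1))) with hσ
  set G := fun x => ENNReal.ofReal (1 - σ x) * g x +
      ENNReal.ofReal (p * ζ x ^ (p - 1) * (r / 2)⁻¹ * Psi τ k d (u x)) with hG
  set C := p ^ p * τ ^ (1 - p) * ((r / 2)⁻¹ * d) ^ p with hC
  set e : X → ℝ≥0∞ := (ball x r ∩ K).indicator fun z =>
    ENNReal.ofReal C * ENNReal.ofReal ((1 + (u z - k) / d) ^ ((1 + τ) * (p - 1))) with he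
  have hζp : ∀ z, 0 ≤ ζ z ^ p ∧ ζ z ^ p ≤ 1 := fun z =>
    ⟨Real.rpow_nonneg (hζ0 z) _, Real.rpow_le_one (hζ0 z) (hζ1 z) hp0.le⟩
  have h1 := submod (T := T) (B := ball x r) hΩ hW hd
    (fun z hz => by
      have := mul_nonneg (hζp z).1 (Psi_nonneg (k := k) hτ.le hd (u z))
      linarith [H.zero z hz])
    (fun z hz hzB => by simp [hζz z hzB, H.one z hz, hp0.ne'])
    (fun z hz => by
      have := mul_le_mul (hζp z).2 (Psi_le (τ := τ) (k := k) hd (u z))
        (Psi_nonneg hτ.le hd _) zero_le_one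
      linarith [H.one z hz])
  have hpt : ∀ z, G z ^ p + ENNReal.ofReal (σ z) * g z ^ p ≤ g z ^ p + e z := by
    intro z
    by_cases hzK : z ∈ K
    · rcases (hζ0 z).eq_or_lt with hz0 | hz0
      · simp [hG, hσ, hzK, ← hz0, hp0.ne', Real.zero_rpow (sub_pos.2 hp.out).ne']
      have hzB : z ∈ ball x r := by
        by_contra h
        exact hz0.ne' (hζz z h)
      have hs0 : 0 < (u z - k) / d := div_pos (sub_pos.2 hzK) hd
      have hs : 0 < 1 + (u z - k) / d := by linarith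
      simp only [hG, hσ, he, indicator_of_mem hzK,
        indicator_of_mem (show z ∈ ball x r ∩ K from ⟨hzB, hzK⟩)]
      rw [← ENNReal.ofReal_mul (by positivity)]
      refine km_pointwise (by positivity) ?_ ?_
        (km_real hz0 hτ (by positivity) hd hs (Psi_nonneg hτ.le hd _) (Psi_le hd _)) _
      · have a2 : (1 + (u z - k) / d) ^ (-τ - 1) ≤ 1 :=
          Real.rpow_le_one_of_one_le_of_nonpos (by linarith) (by linarith)
        exact mul_le_one₀ (hζp z).2 (by positivity) (mul_le_one₀ hτ1 (by positivity) a2)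
      · exact mul_nonneg (by positivity) (Psi_nonneg hτ.le hd _)
    · have : u z ≤ k := not_lt.1 hzK
      simp [hG, hσ, hzK, Psi_of_le this]
  have hGm : AEMeasurable (fun z => G z ^ p) μ := hW.mg.pow_const _
  have h2 : ∫⁻ z, G z ^ p ∂μ + ∫⁻ z, ENNReal.ofReal (σ z) * g z ^ p ∂μ ≤
      ∫⁻ z, g z ^ p ∂μ + ∫⁻ z, e z ∂μ := by
    rw [← lintegral_add_left' hGm, ← lintegral_add_left' (H.dg.mg.pow_const _)]
    exact lintegral_mono hpt
  have h3 : ∫⁻ z, e z ∂μ = ENNReal.ofReal C * ∫⁻ z in ball x r ∩ K,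
      ENNReal.ofReal ((1 + (u z - k) / d) ^ ((1 + τ) * (p - 1))) ∂μ := by
    rw [he, lintegral_indicator₀ (measurableSet_ball.nullMeasurableSet.inter hKm),
      lintegral_const_mul' _ _ ENNReal.ofReal_ne_top]
  have h4 : ∫⁻ z in ball x (r / 2) ∩ K,
      ENNReal.ofReal (τ * (1 + (u z - k) / d) ^ (-τ - 1)) * g z ^ p ∂μ ≤
      ∫⁻ z, ENNReal.ofReal (σ z) * g z ^ p ∂μ := by
    rw [← lintegral_indicator₀ (measurableSet_ball.nullMeasurableSet.inter hKm)]
    refine lintegral_mono fun z => ?_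
    by_cases hz : z ∈ ball x (r / 2) ∩ K
    · simp only [indicator_of_mem hz, hσ, indicator_of_mem hz.2, hζ, cut_of_mem _ hz.1]
      simp
    · simp [hz]
  rw [← h3]
  refine h4.trans ?_
  by_cases het : ∫⁻ z, e z ∂μ = ⊤
  · simp [het]
  have hGf : ∫⁻ z, G z ^ p ∂μ ≠ ⊤ :=
    ne_top_of_le_ne_top (ENNReal.add_ne_top.2 ⟨hfin, het⟩) (le_self_add.trans h2)
  refine (ENNReal.add_le_add_iff_left hGf).1 (h2.trans ?_)
  calc ∫⁻ z, g z ^ p ∂μ + ∫⁻ z, e z ∂μ ≤ (∫⁻ z, G z ^ p ∂μ +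
        ENNReal.ofReal (p * d) * varCap μ p (T ∩ ball x r) Ω + η) + ∫⁻ z, e z ∂μ := by
        gcongr
        exact hmin.trans (add_le_add h1 le_rfl)
    _ = _ := by ring

end Pool.Agent.MP_024e69_an

end

-- part MP_024e69_an.KM2
section

/-! One step of a Kilpelainen-Maly type iteration. -/

open MeasureTheory Metric Set Filter Topology
open scoped ENNReal NNReal

namespace Pool.Agent.MP_024e69_an

universe u
variable {X : Type u} [MetricSpace X] [MeasurableSpace X] [BorelSpace X]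
variable {μ : Measure X} {p : ℝ} [hp : Fact (1 < p)]

/-- The level functional of the iteration. -/
noncomputable def Jf (μ : Measure X) (u : X → ℝ) (β : ℝ) (x : X) (r k d : ℝ) : ℝ≥0∞ :=
  ∫⁻ z in ball x r ∩ {z | k + d < u z}, ENNReal.ofReal (((u z - k) / d) ^ β) ∂μ

omit [BorelSpace X] hp in
lemma Jf_ge {u : X → ℝ} (hu : AEMeasurable u μ) {β : ℝ} (hβ : 0 ≤ β) (x : X) (r : ℝ) {k d a : ℝ}
    (hd : 0 < d) (ha : k + d ≤ a) :
    ENNReal.ofReal (((a - k) / d) ^ β) * μ (ball x r ∩ {z | a < u z}) ≤ Jf μ u β x r k d := by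
  rw [← setLIntegral_const]
  refine le_trans (setLIntegral_mono_ae (g := fun z => ENNReal.ofReal (((u z - k) / d) ^ β))
    (((hu.sub_const _).div_const _).pow_const _).ennreal_ofReal.restrict
    (Eventually.of_forall fun z hz => ?_))
    (lintegral_mono_set (inter_subset_inter_right _ fun z hz => ha.trans_lt hz))
  have hz : a < u z := hz.2
  refine ENNReal.ofReal_le_ofReal (Real.rpow_le_rpow (div_nonneg (by linarith) hd.le) ?_ hβ)
  gcongr

omit [MetricSpace X] [BorelSpace X] hp in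
lemma half_le_of_le_half {B Z W : Set X} (hB : μ B ≠ ⊤) (hcov : B ⊆ Z ∪ W)
    (h : μ (B ∩ W) ≤ ENNReal.ofReal 2⁻¹ * μ B) : ENNReal.ofReal 2⁻¹ * μ B ≤ μ (B ∩ Z) := by
  have h1 : μ B ≤ μ (B ∩ Z) + ENNReal.ofReal 2⁻¹ * μ B := by
    calc μ B ≤ μ (B ∩ Z ∪ B ∩ W) := measure_mono fun z hz => by
          rcases hcov hz with h | h
          exacts [Or.inl ⟨hz, h⟩, Or.inr ⟨hz, h⟩]
      _ ≤ μ (B ∩ Z) + μ (B ∩ W) := measure_union_le _ _
      _ ≤ _ := by gcongr
  have h2 : μ B = ENNReal.ofReal 2⁻¹ * μ B + ENNReal.ofReal 2⁻¹ * μ B := by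
    rw [← add_mul, ← ENNReal.ofReal_add (by norm_num) (by norm_num)]
    norm_num
  refine (ENNReal.add_le_add_iff_right (a := ENNReal.ofReal 2⁻¹ * μ B)
    (ENNReal.mul_ne_top ENNReal.ofReal_ne_top hB)).1 ?_
  rw [← h2]; exact h1

omit hp in
lemma two_pow_rpow (n : ℕ) (a : ℝ) : ((2 : ℝ) ^ n) ^ a = ((2 : ℝ) ^ a) ^ n := by
  rw [← Real.rpow_natCast, ← Real.rpow_mul (by norm_num), mul_comm,
    Real.rpow_mul (by norm_num), Real.rpow_natCast]

lemma Setting.step (S : Setting μ p) {Λ : ℝ} (hΛ : 2 * (1 + S.lam) ≤ Λ) :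
    ∃ β δ₀ : ℝ, 0 < β ∧ 0 < δ₀ ∧ ∀ δ : ℝ, 0 < δ → δ ≤ δ₀ →
      ∀ (T Ω : Set X) (u : X → ℝ) (g : X → ℝ≥0∞) (η : ℝ≥0∞), μ Ω ≠ ⊤ → Adm μ p T Ω u g →
        ∫⁻ z, g z ^ p ∂μ ≤ varCap μ p T Ω + η → ∫⁻ z, g z ^ p ∂μ ≠ ⊤ →
        ∀ (x : X) (r k₀ d₀ d : ℝ), 0 < r → 0 < d₀ → d₀ / 2 ≤ d →
          Jf μ u β x r k₀ d₀ ≤ ENNReal.ofReal δ * μ (ball x r) →
          ENNReal.ofReal (r ^ p) * varCap μ p (T ∩ ball x r) Ω ≤
            ENNReal.ofReal (δ * d ^ (p - 1)) * μ (ball x r) →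
          ENNReal.ofReal (r ^ p) * η ≤ ENNReal.ofReal (δ * d ^ p) * μ (ball x r) →
          Jf μ u β x (r / Λ) (k₀ + d₀) d ≤ ENNReal.ofReal δ * μ (ball x (r / Λ)) := by
  have hp1 : 1 < p := hp.out
  have hp0 : 0 < p := by linarith
  have hlam1 := S.one_le_lam
  have hΛ4 : 4 ≤ Λ := by linarith
  have hΛ0 : 0 < Λ := by linarith
  obtain ⟨κ, C1, hκ, hW⟩ := S.weak1
  obtain ⟨C2, hC21, hC2⟩ := S.comp (1 + Λ)
  have hC2r : (1 : ℝ) ≤ C2 := by exact_mod_cast hC21
  set τ : ℝ := min 1 ((κ - 1) * (p - 1) / (2 * (κ + p - 1))) with hτ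
  have hκp : 0 < κ + p - 1 := by linarith
  have hκp' : 0 < (κ - 1) * (p - 1) := mul_pos (by linarith) (by linarith)
  have hτ0 : 0 < τ := lt_min one_pos (by positivity)
  have hτ1 : τ ≤ 1 := min_le_left _ _
  have hτ2 : τ * (κ + p - 1) ≤ (κ - 1) * (p - 1) / 2 := by
    have : τ ≤ (κ - 1) * (p - 1) / (2 * (κ + p - 1)) := min_le_right _ _
    rw [le_div_iff₀ (by positivity)] at this
    linarith
  set β : ℝ := (1 + τ) * (p - 1) with hβ
  have hβ0 : 0 < β := mul_pos (by linarith) (by linarith)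
  set ρ : ℝ := (2 : ℝ) ^ (β + (1 + τ - p) * κ) with hρ
  have hρ0 : 0 < ρ := by positivity
  have hρ1 : ρ < 1 := Real.rpow_lt_one_of_one_lt_of_neg one_lt_two (by rw [hβ]; nlinarith)
  set C3 : ℝ := p ^ p * τ ^ (1 - p) * 2 ^ p * 2 ^ β + p + 1 with hC3
  set C4 : ℝ := τ⁻¹ * 2 ^ (τ + 1) * C3 * C2 with hC4
  set C5 : ℝ := 2 ^ β * C1 * C4 ^ κ * (1 - ρ)⁻¹ + 1 with hC5
  have hC30 : 0 < C3 := by positivity
  have hC40 : 0 < C4 := by positivity
  have hC50 : 0 < C5 := by
    have : 0 < 1 - ρ := by linarith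
    positivity
  refine ⟨β, min (2 * (C2 : ℝ))⁻¹ (C5⁻¹ ^ (κ - 1)⁻¹), hβ0, lt_min (by positivity) (by positivity),
    fun δ hδ hδ₀ T Ω u g η hΩ H hmin hfin x r k₀ d₀ d hr hd₀ hd₀d hJ hc hη => ?_⟩
  have hd : 0 < d := by linarith
  have hδ1 : δ * C2 ≤ 2⁻¹ := by
    have h1 : δ ≤ (2 * (C2 : ℝ))⁻¹ := hδ₀.trans (min_le_left _ _)
    calc δ * C2 ≤ (2 * (C2 : ℝ))⁻¹ * C2 := by gcongr
      _ = 2⁻¹ := by field_simp
  have hδ2 : C5 * δ ^ κ ≤ δ := by
    have h1 : δ ≤ C5⁻¹ ^ (κ - 1)⁻¹ := hδ₀.trans (min_le_right _ _)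
    have h2 : δ ^ (κ - 1) ≤ C5⁻¹ := by
      calc δ ^ (κ - 1) ≤ (C5⁻¹ ^ (κ - 1)⁻¹) ^ (κ - 1) := by gcongr
        _ = C5⁻¹ := Real.rpow_inv_rpow (by positivity) (by linarith)
    calc C5 * δ ^ κ = C5 * δ ^ (κ - 1) * δ := by
          rw [mul_assoc, ← Real.rpow_add_one hδ.ne']; simp
      _ ≤ C5 * C5⁻¹ * δ := by gcongr
      _ = δ := by field_simp
  set k := k₀ + d₀ with hk
  set r' := r / Λ with hr'
  have hr'0 : 0 < r' := by positivity
  have hrr' : r = Λ * r' := by rw [hr']; field_simp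
  set m := μ (ball x r) with hm
  set m' := μ (ball x r') with hm'
  have hmm' : m ≤ C2 * m' := hC2 x x r' r hr'0 (by rw [dist_self]; nlinarith)
  have ha : μ (ball x r ∩ {z | k < u z}) ≤ ENNReal.ofReal δ * m := by
    have := Jf_ge H.dg.mu hβ0.le x r (k := k₀) hd₀ (a := k) le_rfl
    rw [hk, add_sub_cancel_left, div_self hd₀.ne', Real.one_rpow, ENNReal.ofReal_one,
      one_mul] at this
    exact this.trans hJ
  have hb : ∫⁻ z in ball x r ∩ {z | k < u z}, ENNReal.ofReal ((1 + (u z - k) / d) ^ β) ∂μ ≤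
      ENNReal.ofReal (2 ^ β) * (ENNReal.ofReal δ * m) := by
    refine le_trans ?_ (mul_le_mul_right hJ _)
    unfold Jf
    rw [← lintegral_const_mul' _ _ ENNReal.ofReal_ne_top]
    refine setLIntegral_mono_ae ((((H.dg.mu.sub_const _).div_const _).pow_const
      _).ennreal_ofReal.const_mul _).restrict (Eventually.of_forall fun z hz => ?_)
    have hz : k < u z := hz.2
    have h1 : 0 < (u z - k) / d := div_pos (sub_pos.2 hz) hd
    have h2 : (u z - k) / d ≤ (u z - k) / (d₀ / 2) := by gcongr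
    have h3 : (u z - k) / (d₀ / 2) = 2 * ((u z - k₀) / d₀) - 2 := by rw [hk]; field_simp; ring
    have h4 : 0 ≤ (u z - k₀) / d₀ := by linarith
    rw [← ENNReal.ofReal_mul (by positivity), ← Real.mul_rpow (by norm_num) h4]
    exact ENNReal.ofReal_le_ofReal (Real.rpow_le_rpow (by linarith) (by linarith) hβ0.le)
  have hcacc := cacc hΩ H hmin hfin (k := k) hτ0 hτ1 hd hr x
  set I := ∫⁻ z in ball x (r / 2) ∩ {z | k < u z},
    ENNReal.ofReal (τ * (1 + (u z - k) / d) ^ (-τ - 1)) * g z ^ p ∂μ with hI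
  have hcI : ENNReal.ofReal ((r / d) ^ p) * I ≤ ENNReal.ofReal (C3 * δ) * m := by
    refine (mul_le_mul_right hcacc _).trans ?_
    have e1 : ENNReal.ofReal ((r / d) ^ p) = ENNReal.ofReal (d⁻¹ ^ p) * ENNReal.ofReal (r ^ p) := by
      rw [← ENNReal.ofReal_mul (by positivity), ← Real.mul_rpow (by positivity) hr.le,
        div_eq_inv_mul]
    have t1 : ENNReal.ofReal ((r / d) ^ p) *
        (ENNReal.ofReal (p ^ p * τ ^ (1 - p) * ((r / 2)⁻¹ * d) ^ p) *
          ∫⁻ z in ball x r ∩ {z | k < u z}, ENNReal.ofReal ((1 + (u z - k) / d) ^ β) ∂μ) ≤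
        ENNReal.ofReal (p ^ p * τ ^ (1 - p) * 2 ^ p * 2 ^ β * δ) * m := by
      refine (mul_le_mul_right (mul_le_mul_right hb _) _).trans (le_of_eq ?_)
      rw [← mul_assoc, ← mul_assoc, ← mul_assoc, ← ENNReal.ofReal_mul (by positivity),
        ← ENNReal.ofReal_mul (by positivity), ← ENNReal.ofReal_mul (by positivity)]
      congr 2
      have : (r / d) ^ p * ((r / 2)⁻¹ * d) ^ p = 2 ^ p := by
        rw [← Real.mul_rpow (by positivity) (by positivity)]
        congr 1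
        field_simp
      rw [← this]; ring
    have t2 : ENNReal.ofReal ((r / d) ^ p) *
        (ENNReal.ofReal (p * d) * varCap μ p (T ∩ ball x r) Ω) ≤ ENNReal.ofReal (p * δ) * m := by
      calc _ = ENNReal.ofReal (d⁻¹ ^ p) * ENNReal.ofReal (p * d) *
            (ENNReal.ofReal (r ^ p) * varCap μ p (T ∩ ball x r) Ω) := by rw [e1]; ring
        _ ≤ ENNReal.ofReal (d⁻¹ ^ p) * ENNReal.ofReal (p * d) *
            (ENNReal.ofReal (δ * d ^ (p - 1)) * m) := by gcongr
        _ = _ := by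
            rw [← mul_assoc, ← ENNReal.ofReal_mul (by positivity),
              ← ENNReal.ofReal_mul (by positivity)]
            congr 2
            rw [Real.inv_rpow hd.le, Real.rpow_sub_one hd.ne']
            field_simp
    have t3 : ENNReal.ofReal ((r / d) ^ p) * η ≤ ENNReal.ofReal δ * m := by
      calc _ = ENNReal.ofReal (d⁻¹ ^ p) * (ENNReal.ofReal (r ^ p) * η) := by rw [e1]; ring
        _ ≤ ENNReal.ofReal (d⁻¹ ^ p) * (ENNReal.ofReal (δ * d ^ p) * m) := by gcongr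
        _ = _ := by
            rw [← mul_assoc, ← ENNReal.ofReal_mul (by positivity)]
            congr 2
            rw [Real.inv_rpow hd.le]
            field_simp
    rw [mul_add, mul_add]
    refine (add_le_add (add_le_add t1 t2) t3).trans (le_of_eq ?_)
    rw [← add_mul, ← add_mul, ← ENNReal.ofReal_add (by positivity) (by positivity),
      ← ENNReal.ofReal_add (by positivity) (by positivity), hC3]
    congr 2
    ring
  have hA : ∀ n : ℕ, μ (ball x r' ∩ {z | k + d * 2 ^ n ≤ u z}) ≤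
      C1 * ENNReal.ofReal (C4 * δ * (2 ^ (1 + τ - p)) ^ n) ^ κ * m' := by
    intro n
    have h2n : (1 : ℝ) ≤ 2 ^ n := one_le_pow₀ one_le_two
    have hdn : 0 < d * 2 ^ n := by positivity
    refine hW u g H.dg (k + d * 2 ^ n / 2) (k + d * 2 ^ n) r' x _ _ (by linarith) hr'0
      inter_subset_left (fun y hy => hy.2) (fun y hy => ?_) ?_
    · have hy1 := mem_ball.1 hy.1
      refine half_le_of_le_half (W := {z | k < u z}) (S.fin _ _) (fun z _ => ?_) ?_
      · rcases le_or_gt (u z) k with h | h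
        · exact Or.inl (show u z ≤ k + d * 2 ^ n / 2 by linarith)
        · exact Or.inr h
      calc μ (ball y r' ∩ {z | k < u z}) ≤ μ (ball x r ∩ {z | k < u z}) :=
            measure_mono (inter_subset_inter_left _ (ball_subset_ball' (by nlinarith)))
        _ ≤ ENNReal.ofReal δ * m := ha
        _ ≤ ENNReal.ofReal δ * (C2 * μ (ball y r')) :=
            mul_le_mul_right (hC2 x y r' r hr'0 (by rw [dist_comm]; nlinarith)) _
        _ ≤ _ := by
            rw [← mul_assoc, ← ENNReal.ofReal_coe_nnreal, ← ENNReal.ofReal_mul hδ.le]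
            gcongr
    set ν := ∫⁻ z in ball x ((1 + S.lam) * r') ∩
      {z | k + d * 2 ^ n / 2 < u z ∧ u z < k + d * 2 ^ n}, g z ^ p ∂μ with hν
    have hνI : ENNReal.ofReal (τ * (2 ^ (n + 1)) ^ (-τ - 1)) * ν ≤ I := by
      rw [hν, ← lintegral_const_mul' _ _ ENNReal.ofReal_ne_top]
      refine le_trans (setLIntegral_mono_ae
        (g := fun z => ENNReal.ofReal (τ * (1 + (u z - k) / d) ^ (-τ - 1)) * g z ^ p)
        ((((((H.dg.mu.sub_const _).div_const _).const_add _).pow_const _).const_mul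
          _).ennreal_ofReal.mul (H.dg.mg.pow_const _)).restrict
        (Eventually.of_forall fun z hz => ?_)) (lintegral_mono_set (inter_subset_inter
          (ball_subset_ball (by nlinarith)) fun z hz => ?_))
      · have h1 : k + d * 2 ^ n / 2 < u z := hz.2.1
        have h2 : u z < k + d * 2 ^ n := hz.2.2
        have h3 : 0 < (u z - k) / d := div_pos (by linarith) hd
        have h4 : (u z - k) / d ≤ 2 ^ n := by rw [div_le_iff₀ hd]; linarith
        refine mul_le_mul_left (ENNReal.ofReal_le_ofReal (mul_le_mul_of_nonneg_left ?_ hτ0.le)) _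
        refine Real.rpow_le_rpow_of_nonpos (by linarith) ?_ (by linarith)
        rw [pow_succ]; linarith
      · have h1 : k + d * 2 ^ n / 2 < u z := hz.1
        show k < u z
        linarith
    set w : ℝ := τ * (2 ^ (n + 1)) ^ (-τ - 1) with hw
    have hw0 : 0 < w := by positivity
    have hreal : (r' / (k + d * 2 ^ n - (k + d * 2 ^ n / 2))) ^ p ≤
        w⁻¹ * (2 ^ n)⁻¹ ^ p * ((r / d) ^ p * w) := by
      have h1 : r' / (k + d * 2 ^ n - (k + d * 2 ^ n / 2)) ≤ (2 ^ n)⁻¹ * (r / d) := by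
        rw [show k + d * 2 ^ n - (k + d * 2 ^ n / 2) = d * 2 ^ n / 2 by ring,
          show (2 ^ n)⁻¹ * (r / d) = (r / 2) / (d * 2 ^ n / 2) by field_simp]
        gcongr
        nlinarith
      calc _ ≤ ((2 ^ n)⁻¹ * (r / d)) ^ p := by
            refine Real.rpow_le_rpow (div_nonneg hr'0.le (by linarith)) h1 hp0.le
        _ = _ := by
            rw [Real.mul_rpow (by positivity) (by positivity)]
            field_simp
    calc ENNReal.ofReal ((r' / (k + d * 2 ^ n - (k + d * 2 ^ n / 2))) ^ p) * ν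
        ≤ ENNReal.ofReal (w⁻¹ * (2 ^ n)⁻¹ ^ p * ((r / d) ^ p * w)) * ν := by gcongr
      _ = ENNReal.ofReal (w⁻¹ * (2 ^ n)⁻¹ ^ p) *
          (ENNReal.ofReal ((r / d) ^ p) * (ENNReal.ofReal w * ν)) := by
          rw [ENNReal.ofReal_mul (by positivity), ENNReal.ofReal_mul (p := (r / d) ^ p) (by positivity)]
          ring
      _ ≤ ENNReal.ofReal (w⁻¹ * (2 ^ n)⁻¹ ^ p) * (ENNReal.ofReal (C3 * δ) * (C2 * m')) := by
          refine mul_le_mul_right (((mul_le_mul_right hνI _).trans hcI).trans ?_) _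
          gcongr
      _ = _ := by
          rw [← ENNReal.ofReal_coe_nnreal, ← mul_assoc, ← mul_assoc,
            ← ENNReal.ofReal_mul (by positivity), ← ENNReal.ofReal_mul (by positivity)]
          congr 2
          have e1 : ((2 : ℝ) ^ (n + 1)) ^ (-τ - 1) = ((2 ^ (τ + 1)) ^ n * 2 ^ (τ + 1))⁻¹ := by
            rw [show -τ - 1 = -(τ + 1) by ring, Real.rpow_neg (by positivity), two_pow_rpow,
              pow_succ]
          have e2 : ((2 : ℝ) ^ n)⁻¹ ^ p = ((2 ^ p) ^ n)⁻¹ := by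
            rw [Real.inv_rpow (by positivity), two_pow_rpow]
          have e3 : ((2 : ℝ) ^ (1 + τ - p)) ^ n = (2 ^ (τ + 1)) ^ n / (2 ^ p) ^ n := by
            rw [Real.rpow_sub (by norm_num), div_pow, add_comm]
          rw [hw, hC4, e1, e2, e3]
          field_simp
  have hcov : ball x r' ∩ {z | k + d < u z} ⊆
      ⋃ n : ℕ, ball x r' ∩ {z | k + d * 2 ^ n ≤ u z ∧ u z < k + d * 2 ^ (n + 1)} := by
    intro z hz
    have h1 : k + d < u z := hz.2
    obtain ⟨n, hn1, hn2⟩ := exists_nat_pow_near (x := (u z - k) / d)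
      (by rw [one_le_div hd]; linarith) (one_lt_two (α := ℝ))
    rw [le_div_iff₀ hd] at hn1
    rw [div_lt_iff₀ hd] at hn2
    exact mem_iUnion.2 ⟨n, hz.1, by linarith, by linarith⟩
  calc Jf μ u β x r' k d
      ≤ ∑' n : ℕ, ∫⁻ z in ball x r' ∩ {z | k + d * 2 ^ n ≤ u z ∧ u z < k + d * 2 ^ (n + 1)},
          ENNReal.ofReal (((u z - k) / d) ^ β) ∂μ :=
        (lintegral_mono_set hcov).trans (lintegral_iUnion_le _ _)
    _ ≤ ∑' n : ℕ, ENNReal.ofReal (2 ^ β * C1 * C4 ^ κ * δ ^ κ * ρ ^ n) * m' := by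
        refine ENNReal.tsum_le_tsum fun n => ?_
        calc _ ≤ ∫⁻ _ in ball x r' ∩ {z | k + d * 2 ^ n ≤ u z ∧ u z < k + d * 2 ^ (n + 1)},
              ENNReal.ofReal ((2 ^ (n + 1)) ^ β) ∂μ := by
              refine setLIntegral_mono measurable_const fun z hz => ?_
              have h1 : k + d * 2 ^ n ≤ u z := hz.2.1
              have h2 : u z < k + d * 2 ^ (n + 1) := hz.2.2
              have h3 : 0 < d * 2 ^ n := by positivity
              refine ENNReal.ofReal_le_ofReal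
                (Real.rpow_le_rpow (div_nonneg (by linarith) hd.le) ?_ hβ0.le)
              rw [div_le_iff₀ hd]; linarith
          _ ≤ ENNReal.ofReal ((2 ^ (n + 1)) ^ β) *
              (C1 * ENNReal.ofReal (C4 * δ * (2 ^ (1 + τ - p)) ^ n) ^ κ * m') := by
              rw [setLIntegral_const]
              exact mul_le_mul_right ((measure_mono
                (inter_subset_inter_right _ fun z hz => hz.1)).trans (hA n)) _
          _ = _ := by
              rw [ENNReal.ofReal_rpow_of_nonneg (by positivity) (by linarith),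
                ← ENNReal.ofReal_coe_nnreal, ← mul_assoc, ← ENNReal.ofReal_mul (by positivity),
                ← ENNReal.ofReal_mul (by positivity)]
              congr 2
              rw [Real.mul_rpow (by positivity) (by positivity),
                Real.mul_rpow (by positivity) (by positivity), two_pow_rpow, hρ,
                Real.rpow_add (by norm_num), mul_pow, ← two_pow_rpow n (1 + τ - p),
                ← Real.rpow_mul (by positivity), ← two_pow_rpow n ((1 + τ - p) * κ), pow_succ]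
              ring
    _ = ENNReal.ofReal (2 ^ β * C1 * C4 ^ κ * δ ^ κ * (1 - ρ)⁻¹) * m' := by
        rw [ENNReal.tsum_mul_right, ← ENNReal.ofReal_tsum_of_nonneg (fun n => by positivity)
          ((summable_geometric_of_lt_one hρ0.le hρ1).mul_left _), tsum_mul_left,
          tsum_geometric_of_lt_one hρ0.le hρ1]
    _ ≤ _ := by
        refine mul_le_mul_left (ENNReal.ofReal_le_ofReal (le_trans ?_ hδ2)) _
        have : 0 ≤ δ ^ κ := by positivity
        rw [hC5]
        nlinarith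

end Pool.Agent.MP_024e69_an

end

-- part MP_024e69_an.Kellogg
section

/-! The fine Kellogg property, in a quantitative form. -/

open MeasureTheory Metric Set Filter Topology
open scoped ENNReal NNReal

namespace Pool.Agent.MP_024e69_an

universe u
variable {X : Type u} [MetricSpace X] [MeasurableSpace X] [BorelSpace X]
variable {μ : Measure X} {p : ℝ} [hp : Fact (1 < p)]

/-- Gradients of near minimisers are equi-integrable. -/
lemma equi : ∃ C : ℝ≥0∞, C ≠ 0 ∧ C ≠ ⊤ ∧ ∀ (T Ω : Set X) (u u₁ : X → ℝ) (g g₁ : X → ℝ≥0∞)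
    (η : ℝ≥0∞), μ Ω ≠ ⊤ → varCap μ p T Ω ≠ ⊤ → Adm μ p T Ω u g → Adm μ p T Ω u₁ g₁ →
    ∫⁻ z, g z ^ p ∂μ ≤ varCap μ p T Ω + η → ∫⁻ z, g₁ z ^ p ∂μ ≤ varCap μ p T Ω + η →
    ∀ Z : Set X, ∫⁻ z in Z, g z ^ p ∂μ ≤ C * (∫⁻ z in Z, g₁ z ^ p ∂μ + η) := by
  have hp1 : 1 < p := hp.out
  have hp0 : 0 < p := by linarith
  have h1 : (2⁻¹ : ℝ) < 2⁻¹ ^ p⁻¹ := by
    calc (2⁻¹ : ℝ) = 2⁻¹ ^ (1 : ℝ) := (Real.rpow_one _).symm
      _ < _ := Real.rpow_lt_rpow_of_exponent_gt (by norm_num) (by norm_num)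
          (inv_lt_one_of_one_lt₀ hp1)
  obtain ⟨y, hy1, hy2⟩ := exists_between h1
  have hy0 : 0 < y := lt_trans (by norm_num) hy1
  have hyp : y ^ p < 2⁻¹ := by
    calc y ^ p < (2⁻¹ ^ p⁻¹) ^ p := Real.rpow_lt_rpow hy0.le hy2 hp0
      _ = 2⁻¹ := Real.rpow_inv_rpow (by norm_num) hp0.ne'
  set θ : ℝ := 2 * y - 1 with hθ
  have hθ0 : 0 < θ := by linarith
  set c : ℝ := 2⁻¹ - y ^ p with hc
  have hc0 : 0 < c := by linarith
  set h2 : ℝ≥0∞ := ENNReal.ofReal 2⁻¹ with hh2
  have hh : h2 + h2 = 1 := by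
    rw [hh2, ← ENNReal.ofReal_add (by norm_num) (by norm_num)]; norm_num
  refine ⟨ENNReal.ofReal θ⁻¹ ^ p + ENNReal.ofReal c⁻¹, ?_, ?_,
    fun T Ω u u₁ g g₁ η hΩ ha H H₁ hg hg₁ Z => ?_⟩
  · exact (lt_of_lt_of_le (ENNReal.ofReal_pos.2 (by positivity)) le_add_self).ne'
  · simp [ENNReal.rpow_ne_top_of_nonneg hp0.le]
  set W := {z | g₁ z ≤ ENNReal.ofReal θ * g z} with hW
  have hWm : NullMeasurableSet W μ := nullMeasurableSet_le H₁.dg.mg (H.dg.mg.const_mul _)
  set e : X → ℝ≥0∞ := W.indicator fun z => g z ^ p with he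
  have hem : AEMeasurable e μ := (H.dg.mg.pow_const _).indicator₀ hWm
  have hmid := ((H₁.dg.affine 2⁻¹ 0).add (H.dg.affine 2⁻¹ 0)).varCap_le (A := T) (Ω := Ω)
    (fun x hx => by rw [H.one x hx, H₁.one x hx]; norm_num)
    (fun x hx => by rw [H.zero x hx, H₁.zero x hx]; norm_num) hΩ
  rw [Real.enorm_eq_ofReal (by norm_num), ← hh2] at hmid
  have hpt : ∀ z, (h2 * g₁ z + h2 * g z) ^ p + ENNReal.ofReal c * e z ≤
      h2 * g₁ z ^ p + h2 * g z ^ p := by
    intro z
    by_cases hz : z ∈ W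
    · rw [he, indicator_of_mem hz]
      have hz' : g₁ z ≤ ENNReal.ofReal θ * g z := hz
      have k1 : h2 * g₁ z + h2 * g z ≤ ENNReal.ofReal y * g z := by
        calc h2 * g₁ z + h2 * g z ≤ h2 * (ENNReal.ofReal θ * g z) + h2 * g z := by gcongr
          _ = _ := by
              rw [← mul_assoc, ← add_mul, hh2, ← ENNReal.ofReal_mul (by norm_num),
                ← ENNReal.ofReal_add (by positivity) (by norm_num), hθ]
              congr 2; ring
      calc _ ≤ (ENNReal.ofReal y * g z) ^ p + ENNReal.ofReal c * g z ^ p := by gcongr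
        _ = h2 * g z ^ p := by
            rw [ENNReal.mul_rpow_of_nonneg _ _ hp0.le, ENNReal.ofReal_rpow_of_nonneg hy0.le hp0.le,
              ← add_mul, ← ENNReal.ofReal_add (by positivity) hc0.le, hc, hh2]
            congr 2; ring
        _ ≤ _ := le_add_self
    · rw [he, indicator_of_notMem hz, mul_zero, add_zero]
      exact ENNReal.rpow_arith_mean_le_arith_mean2_rpow _ _ _ _ hh hp1.le
  have k2 : ENNReal.ofReal c * ∫⁻ z, e z ∂μ ≤ η := by
    refine (ENNReal.add_le_add_iff_left ha).1 ?_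
    calc varCap μ p T Ω + ENNReal.ofReal c * ∫⁻ z, e z ∂μ
        ≤ ∫⁻ z, (h2 * g₁ z + h2 * g z) ^ p ∂μ + ∫⁻ z, ENNReal.ofReal c * e z ∂μ := by
          rw [lintegral_const_mul' _ _ ENNReal.ofReal_ne_top]; gcongr
      _ ≤ ∫⁻ z, (h2 * g₁ z ^ p + h2 * g z ^ p) ∂μ := by
          rw [← lintegral_add_right' _ (hem.const_mul _)]
          exact lintegral_mono hpt
      _ = h2 * ∫⁻ z, g₁ z ^ p ∂μ + h2 * ∫⁻ z, g z ^ p ∂μ := by
          rw [lintegral_add_right' _ ((H.dg.mg.pow_const _).const_mul _),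
            lintegral_const_mul' _ _ ENNReal.ofReal_ne_top,
            lintegral_const_mul' _ _ ENNReal.ofReal_ne_top]
      _ ≤ h2 * (varCap μ p T Ω + η) + h2 * (varCap μ p T Ω + η) := by gcongr
      _ = _ := by rw [← add_mul, hh, one_mul]
  have k3 : ∫⁻ z, e z ∂μ ≤ ENNReal.ofReal c⁻¹ * η := by
    calc ∫⁻ z, e z ∂μ = ENNReal.ofReal c⁻¹ * (ENNReal.ofReal c * ∫⁻ z, e z ∂μ) := by
          rw [← mul_assoc, ← ENNReal.ofReal_mul (by positivity), inv_mul_cancel₀ hc0.ne']; simp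
      _ ≤ _ := by gcongr
  have k4 : ∀ z, g z ^ p ≤ ENNReal.ofReal θ⁻¹ ^ p * g₁ z ^ p + e z := by
    intro z
    by_cases hz : z ∈ W
    · rw [he, indicator_of_mem hz]; exact le_add_self
    · have hz' : ENNReal.ofReal θ * g z ≤ g₁ z := le_of_not_ge hz
      refine le_trans ?_ le_self_add
      rw [← ENNReal.mul_rpow_of_nonneg _ _ hp0.le]
      refine ENNReal.rpow_le_rpow ?_ hp0.le
      calc g z = ENNReal.ofReal θ⁻¹ * (ENNReal.ofReal θ * g z) := by
            rw [← mul_assoc, ← ENNReal.ofReal_mul (by positivity), inv_mul_cancel₀ hθ0.ne']; simp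
        _ ≤ _ := by gcongr
  calc ∫⁻ z in Z, g z ^ p ∂μ
      ≤ ∫⁻ z in Z, (ENNReal.ofReal θ⁻¹ ^ p * g₁ z ^ p + e z) ∂μ := lintegral_mono k4
    _ = ENNReal.ofReal θ⁻¹ ^ p * ∫⁻ z in Z, g₁ z ^ p ∂μ + ∫⁻ z in Z, e z ∂μ := by
        rw [lintegral_add_right' _ hem.restrict,
          lintegral_const_mul' _ _ (ENNReal.rpow_ne_top_of_nonneg hp0.le ENNReal.ofReal_ne_top)]
    _ ≤ ENNReal.ofReal θ⁻¹ ^ p * ∫⁻ z in Z, g₁ z ^ p ∂μ + ENNReal.ofReal c⁻¹ * η :=
        add_le_add le_rfl ((setLIntegral_le_lintegral _ _).trans k3)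
    _ ≤ _ := by
        rw [mul_add]
        gcongr
        exacts [le_self_add, le_add_self]

/-- The steps of the iteration. -/
noncomputable def dseq (K : ℝ) (b : ℕ → ℝ) : ℕ → ℝ
  | 0 => 1 / 32
  | j + 1 => dseq K b j / 2 + K * b j

omit hp in
lemma dseq_ge {K : ℝ} {b : ℕ → ℝ} (hK : 0 ≤ K) (hb : ∀ j, 0 ≤ b j) (j : ℕ) :
    1 / 32 / 2 ^ j ≤ dseq K b j := by
  induction j with
  | zero => simp [dseq]
  | succ j ih =>
    have := mul_nonneg hK (hb j)
    rw [dseq, pow_succ, ← div_div]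
    linarith

omit hp in
lemma dseq_sum {K ε : ℝ} {b : ℕ → ℝ} (hK : 0 ≤ K) (hs : ∀ n, ∑ j ∈ Finset.range n, b j ≤ ε)
    (hKε : K * ε ≤ 1 / 32) (n : ℕ) : ∑ j ∈ Finset.range n, dseq K b j ≤ 1 / 8 := by
  induction n with
  | zero => simp
  | succ n ih =>
    rw [Finset.sum_range_succ']
    simp only [dseq]
    rw [Finset.sum_add_distrib, ← Finset.sum_div, ← Finset.mul_sum]
    have := mul_le_mul_of_nonneg_left (hs n) hK
    linarith

lemma Setting.kellogg (S : Setting μ p) {R0 : ℝ} (hR0 : Nondeg X R0) {Λ : ℝ}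
    (hΛ : 2 * (1 + S.lam) ≤ Λ) : ∃ ε : ℝ, 0 < ε ∧ ∀ (T : Set X) (x0 : X) (r0 : ℝ), 0 < r0 →
      8 * r0 ≤ R0 → T ⊆ ball x0 (r0 / 2) →
      (∀ x ∈ T, ∃ b : ℕ → ℝ, (∀ j, 0 ≤ b j) ∧ (∀ n, ∑ j ∈ Finset.range n, b j ≤ ε) ∧
        ∀ j, ENNReal.ofReal ((r0 / Λ ^ j) ^ p) *
          varCap μ p (T ∩ ball x (r0 / Λ ^ j)) (ball x0 (2 * (8 * r0))) ≤
          ENNReal.ofReal (b j ^ (p - 1)) * μ (ball x (r0 / Λ ^ j))) →
      varCap μ p T (ball x0 (2 * (8 * r0))) = 0 := by
  have hp1 : 1 < p := hp.out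
  have hp0 : 0 < p := by linarith
  have hp' : 0 < p - 1 := by linarith
  have hlam1 := S.one_le_lam
  have hΛ1 : 1 ≤ Λ := by linarith
  have hΛ0 : 0 < Λ := by linarith
  obtain ⟨β, δ₀, hβ, hδ₀, hstep⟩ := S.step hΛ
  obtain ⟨CZ, hCZ1, hZ⟩ := S.weakZ hR0
  obtain ⟨CM, hCM1, hM⟩ := S.mazya (c := 2⁻¹) (by norm_num) 1
  obtain ⟨C7, hC71, hC7⟩ := S.comp (1 + 4 * (1 + S.lam))
  obtain ⟨CE, hCE0, hCEt, hE⟩ := equi (X := X) (μ := μ) (p := p)
  have hC7r : (1 : ℝ) ≤ C7 := by exact_mod_cast hC71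
  have hCZr : (1 : ℝ) ≤ CZ := by exact_mod_cast hCZ1
  set δ : ℝ := min δ₀ (2 * (C7 : ℝ))⁻¹ with hδ
  have hδ0 : 0 < δ := lt_min hδ₀ (by positivity)
  have hδ7 : δ * C7 ≤ 2⁻¹ := by
    have h1 : δ ≤ (2 * (C7 : ℝ))⁻¹ := min_le_right _ _
    calc δ * C7 ≤ (2 * (C7 : ℝ))⁻¹ * C7 := by gcongr
      _ = 2⁻¹ := by field_simp
  set K : ℝ := δ⁻¹ ^ (p - 1)⁻¹ with hK
  have hK0 : 0 < K := by positivity
  have hKp : K ^ (p - 1) = δ⁻¹ := Real.rpow_inv_rpow (by positivity) hp'.ne'
  set C6 : ℝ := 2 * 32 ^ β * CZ * 256 ^ p with hC6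
  have hC60 : 0 < C6 := by positivity
  set ε : ℝ := min (32 * K)⁻¹ ((δ / C6) ^ (p - 1)⁻¹) with hε
  have hε0 : 0 < ε := lt_min (by positivity) (by positivity)
  have hKε : K * ε ≤ 1 / 32 := by
    have h1 : ε ≤ (32 * K)⁻¹ := min_le_left _ _
    calc K * ε ≤ K * (32 * K)⁻¹ := by gcongr
      _ = 1 / 32 := by field_simp
  have hεp : C6 * ε ^ (p - 1) ≤ δ := by
    have h1 : ε ≤ (δ / C6) ^ (p - 1)⁻¹ := min_le_right _ _
    calc C6 * ε ^ (p - 1) ≤ C6 * ((δ / C6) ^ (p - 1)⁻¹) ^ (p - 1) := by gcongr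
      _ = δ := by rw [Real.rpow_inv_rpow (by positivity) hp'.ne']; field_simp
  refine ⟨ε, hε0, fun T x0 r0 hr0 hr0R hT hb => ?_⟩
  set Ω := ball x0 (2 * (8 * r0)) with hΩ
  have hΩf : μ Ω ≠ ⊤ := S.fin _ _
  have ha : varCap μ p T Ω ≠ ⊤ :=
    S.varCap_ball_ne_top (by positivity) (hT.trans (ball_subset_ball (by linarith)))
  have hrj : ∀ j : ℕ, 0 < r0 / Λ ^ j := fun j => by positivity
  have hrj' : ∀ j : ℕ, r0 / Λ ^ j ≤ r0 := fun j => div_le_self hr0.le (one_le_pow₀ hΛ1)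
  have hrj'' : ∀ j J : ℕ, j ≤ J → r0 / Λ ^ J ≤ r0 / Λ ^ j := fun j J h => by
    gcongr
  have main : varCap μ p T Ω ≤ (CM * CE * 2) * 0 := by
    refine le_mul_of_forall_lt (mul_ne_zero (mul_ne_zero ?_ hCE0) two_ne_zero)
      (ENNReal.mul_ne_top (ENNReal.mul_ne_top ENNReal.coe_ne_top hCEt) (by simp))
      fun η₁ hη₁ => ?_
    · exact_mod_cast (zero_lt_one.trans_le hCM1).ne'
    obtain ⟨u₁, g₁, H₁, hlt₁⟩ := exists_adm (ENNReal.lt_add_right ha hη₁.ne')
    obtain ⟨δ₁, hδ₁, hδ₁'⟩ := exists_pos_setLIntegral_lt_of_measure_lt (ne_top_of_lt hlt₁) hη₁.ne'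
    set M := ENNReal.ofReal δ * ((S.Cd : ℝ≥0∞) ^ 2 * μ (ball x0 r0)) with hMdef
    have hMt : M / δ₁ ≠ ⊤ := ENNReal.div_ne_top (ENNReal.mul_ne_top ENNReal.ofReal_ne_top
      (ENNReal.mul_ne_top (by simp) (S.fin _ _))) hδ₁.ne'
    obtain ⟨n, hn⟩ := ENNReal.exists_nat_gt hMt
    obtain ⟨J, hJ⟩ : ∃ J : ℕ, (n : ℝ) ≤ ((J : ℝ) + 1) ^ β :=
      (((tendsto_rpow_atTop hβ).comp (tendsto_atTop_add_const_right _ 1
        tendsto_natCast_atTop_atTop)).eventually_ge_atTop (n : ℝ)).exists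
    obtain ⟨CJ, hCJ1, hCJ⟩ := S.comp (Λ ^ J)
    set θ : ℝ := min (δ * (1 / 32 / 2 ^ (J + 1)) ^ p) (ε ^ (p - 1)) with hθ
    have hθ0 : 0 < θ := lt_min (by positivity) (by positivity)
    have hCJ0 : (CJ : ℝ≥0∞) ≠ 0 := by exact_mod_cast (zero_lt_one.trans_le hCJ1).ne'
    have hr0p : ENNReal.ofReal (r0 ^ p) ≠ 0 := (ENNReal.ofReal_pos.2 (by positivity)).ne'
    set η₂ := ENNReal.ofReal θ * μ (ball x0 (r0 / 2)) / CJ / ENNReal.ofReal (r0 ^ p) with hη₂
    have hη₂0 : η₂ ≠ 0 := by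
      refine (ENNReal.div_pos (ENNReal.div_pos (mul_ne_zero (ENNReal.ofReal_pos.2 hθ0).ne'
        (S.ne_zero _ (by positivity))) ENNReal.coe_ne_top).ne' ENNReal.ofReal_ne_top).ne'
    set η := min η₁ η₂ with hη
    have hη0 : η ≠ 0 := (lt_min hη₁ (pos_iff_ne_zero.2 hη₂0)).ne'
    have hηθ : ∀ x ∈ T, ∀ j ≤ J, ENNReal.ofReal (r0 ^ p) * η ≤
        ENNReal.ofReal θ * μ (ball x (r0 / Λ ^ j)) := by
      intro x hx j hj
      have h1 : μ (ball x0 (r0 / 2)) ≤ CJ * μ (ball x (r0 / Λ ^ J)) := by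
        refine hCJ x0 x _ _ (hrj J) ?_
        have := mem_ball.1 (hT hx)
        rw [mul_div_cancel₀ _ (by positivity), dist_comm]
        linarith
      calc ENNReal.ofReal (r0 ^ p) * η ≤ ENNReal.ofReal (r0 ^ p) * η₂ := by
            gcongr; exact min_le_right _ _
        _ ≤ ENNReal.ofReal θ * μ (ball x0 (r0 / 2)) / CJ := ENNReal.mul_div_le
        _ ≤ ENNReal.ofReal θ * μ (ball x (r0 / Λ ^ J)) := by
            rw [ENNReal.div_le_iff hCJ0 ENNReal.coe_ne_top, mul_assoc, mul_comm _ (CJ : ℝ≥0∞)]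
            gcongr
        _ ≤ _ := mul_le_mul_right (measure_mono (ball_subset_ball (hrj'' j J hj))) _
    obtain ⟨u, g, H, hlt⟩ := exists_adm (ENNReal.lt_add_right ha hη0)
    have hiter : ∀ x ∈ T,
        μ (ball x (r0 / Λ ^ J) ∩ {z | 1 / 4 < u z}) ≤ ENNReal.ofReal δ * μ (ball x (r0 / Λ ^ J)) ∧
        ∃ j ≤ J, ENNReal.ofReal (((J : ℝ) + 1) ^ β) * μ (ball x (r0 / Λ ^ j) ∩ {z | 1 / 4 < u z}) ≤
          ENNReal.ofReal δ * μ (ball x (r0 / Λ ^ j)) := by
      intro x hx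
      obtain ⟨b, hb0, hbs, hbc⟩ := hb x hx
      set d := dseq K b with hd
      have hdge := dseq_ge hK0.le hb0
      have hd0 : ∀ j, 0 < d j := fun j => lt_of_lt_of_le (by positivity) (hdge j)
      have hsum := dseq_sum hK0.le hbs hKε
      have hJf : ∀ j ≤ J, Jf μ u β x (r0 / Λ ^ j) (∑ i ∈ Finset.range j, d i) (d j) ≤
          ENNReal.ofReal δ * μ (ball x (r0 / Λ ^ j)) := by
        intro j hj
        induction j with
        | zero =>
          have h1 := hZ u g H.dg x0 (8 * r0) (1 / 32) (by positivity) hr0R (by norm_num)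
            fun y hy => (H.zero y hy).le
          have h2 := hbc 0
          have h3 := hηθ x hx 0 (Nat.zero_le _)
          simp only [pow_zero, div_one] at h2 h3 ⊢
          have hTx : T ∩ ball x r0 = T := inter_eq_left.2 fun y hy => by
            have a1 := mem_ball.1 (hT hx)
            have a2 := mem_ball.1 (hT hy)
            exact mem_ball.2 (by linarith [dist_triangle_right y x x0])
          rw [hTx] at h2
          have hb0ε : b 0 ≤ ε := by simpa using hbs 1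
          have h4 : ENNReal.ofReal (r0 ^ p) * ∫⁻ z, g z ^ p ∂μ ≤
              ENNReal.ofReal (2 * ε ^ (p - 1)) * μ (ball x r0) := by
            calc _ ≤ ENNReal.ofReal (r0 ^ p) * (varCap μ p T Ω + η) := by gcongr
              _ ≤ ENNReal.ofReal (ε ^ (p - 1)) * μ (ball x r0) +
                  ENNReal.ofReal (ε ^ (p - 1)) * μ (ball x r0) := by
                  rw [mul_add]
                  refine add_le_add (h2.trans ?_) (h3.trans ?_)
                  · have := hb0 0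
                    gcongr
                  · gcongr; exact min_le_right _ _
              _ = _ := by
                  rw [← add_mul, ← ENNReal.ofReal_add (by positivity) (by positivity), two_mul]
          calc Jf μ u β x r0 (∑ i ∈ Finset.range 0, d i) (d 0)
              ≤ ∫⁻ _ in ball x r0 ∩ {z | ∑ i ∈ Finset.range 0, d i + d 0 < u z},
                ENNReal.ofReal (32 ^ β) ∂μ := by
                refine setLIntegral_mono measurable_const fun z _ => ?_
                simp only [Finset.range_zero, Finset.sum_empty, sub_zero, hd, dseq]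
                have a1 := H.nonneg z
                have a2 := H.le_one z
                refine ENNReal.ofReal_le_ofReal (Real.rpow_le_rpow (by positivity) ?_ hβ.le)
                rw [div_le_iff₀ (by norm_num)]; linarith
            _ ≤ ENNReal.ofReal (32 ^ β) * (CZ * ENNReal.ofReal ((8 * r0 / (1 / 32)) ^ p) *
                ∫⁻ z, g z ^ p ∂μ) := by
                rw [setLIntegral_const]
                refine mul_le_mul_right (le_trans (measure_mono fun z hz => ?_) h1) _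
                have : ∑ i ∈ Finset.range 0, d i + d 0 < u z := hz.2
                simp only [Finset.range_zero, Finset.sum_empty, zero_add, hd, dseq] at this
                exact this.le
            _ = ENNReal.ofReal (32 ^ β * CZ * 256 ^ p) *
                (ENNReal.ofReal (r0 ^ p) * ∫⁻ z, g z ^ p ∂μ) := by
                rw [show 8 * r0 / (1 / 32) = 256 * r0 by ring,
                  Real.mul_rpow (by norm_num) hr0.le, ENNReal.ofReal_mul (by positivity),
                  ENNReal.ofReal_mul (by positivity), ENNReal.ofReal_mul (by positivity),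
                  ENNReal.ofReal_coe_nnreal]
                ring
            _ ≤ ENNReal.ofReal (32 ^ β * CZ * 256 ^ p) *
                (ENNReal.ofReal (2 * ε ^ (p - 1)) * μ (ball x r0)) := by gcongr
            _ ≤ _ := by
                rw [← mul_assoc, ← ENNReal.ofReal_mul (by positivity)]
                refine mul_le_mul_left (ENNReal.ofReal_le_ofReal (le_trans (le_of_eq ?_) hεp)) _
                rw [hC6]; ring
        | succ j ih =>
          have hj' : j ≤ J := by omega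
          rw [Finset.sum_range_succ, pow_succ, ← div_div]
          have hKb := mul_nonneg hK0.le (hb0 j)
          refine hstep δ hδ0 (min_le_left _ _) T Ω u g η hΩf H hlt.le (ne_top_of_lt hlt) x _ _ _ _
            (hrj j) (hd0 j) (by simp only [hd, dseq]; linarith) (ih hj') ((hbc j).trans ?_) ?_
          · refine mul_le_mul_left (ENNReal.ofReal_le_ofReal ?_) _
            have a1 : K * b j ≤ d (j + 1) := by
              have := hd0 j
              simp only [hd, dseq] at this ⊢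
              linarith
            calc b j ^ (p - 1) = δ * (K * b j) ^ (p - 1) := by
                  rw [Real.mul_rpow hK0.le (hb0 j), hKp]; field_simp
              _ ≤ _ := by gcongr
          · refine le_trans ?_ ((hηθ x hx j hj').trans ?_)
            · have := hrj j
              have := hrj' j
              gcongr
            · refine mul_le_mul_left (ENNReal.ofReal_le_ofReal ((min_le_left _ _).trans ?_)) _
              have a1 : 1 / 32 / 2 ^ (J + 1) ≤ d (j + 1) := by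
                refine le_trans ?_ (hdge (j + 1))
                gcongr
                norm_num
              gcongr
      have hlev : ∀ j ≤ J, ∀ a : ℝ, 0 ≤ a → a * d j ≤ 1 / 8 →
          ENNReal.ofReal (a ^ β) * μ (ball x (r0 / Λ ^ j) ∩ {z | 1 / 4 < u z}) ≤
            ENNReal.ofReal δ * μ (ball x (r0 / Λ ^ j)) := by
        intro j hj a ha0 ha
        have h1 := hsum (j + 1)
        have h2 := hsum j
        rw [Finset.sum_range_succ] at h1
        refine le_trans ?_ ((Jf_ge H.dg.mu hβ.le x _ (hd0 j) (a := 1 / 4)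
          (by linarith)).trans (hJf j hj))
        refine mul_le_mul_left (ENNReal.ofReal_le_ofReal (Real.rpow_le_rpow ha0 ?_ hβ.le)) _
        rw [le_div_iff₀ (hd0 j)]
        linarith
      constructor
      · have h1 := hsum (J + 1)
        rw [Finset.sum_range_succ] at h1
        have h2 : 0 ≤ ∑ i ∈ Finset.range J, d i := Finset.sum_nonneg fun i _ => (hd0 i).le
        simpa using hlev J le_rfl 1 zero_le_one (by linarith)
      · obtain ⟨j, hj, hj'⟩ := Finset.exists_le_of_sum_le (s := Finset.range (J + 1))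
          (f := d) (g := fun _ => 1 / 8 / ((J : ℝ) + 1)) ⟨0, by simp⟩ (by
            refine (hsum (J + 1)).trans (le_of_eq ?_)
            simp only [Finset.sum_const, Finset.card_range, nsmul_eq_mul]
            push_cast
            field_simp)
        refine ⟨j, Nat.lt_succ_iff.1 (Finset.mem_range.1 hj), hlev j
          (Nat.lt_succ_iff.1 (Finset.mem_range.1 hj)) _ (by positivity) ?_⟩
        rw [le_div_iff₀ (by positivity)] at hj'
        linarith
    set Z := thickening (r0 / Λ ^ J / 4) T ∩ {z | 1 / 4 < u z} with hZdef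
    have hZsmall : μ Z < δ₁ := by
      have hex : ∀ x, ∃ j, x ∈ T → j ≤ J ∧ ENNReal.ofReal (((J : ℝ) + 1) ^ β) *
          μ (ball x (r0 / Λ ^ j) ∩ {z | 1 / 4 < u z}) ≤
          ENNReal.ofReal δ * μ (ball x (r0 / Λ ^ j)) := by
        intro x
        by_cases hx : x ∈ T
        · obtain ⟨j, hj⟩ := (hiter x hx).2
          exact ⟨j, fun _ => hj⟩
        · exact ⟨0, fun h => absurd h hx⟩
      choose j hj using hex
      obtain ⟨U, hUT, hUc, hUd, hUcov⟩ := S.cover T (fun x => r0 / Λ ^ j x / 4) r0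
        fun y _ => ⟨by positivity, by linarith [hrj' (j y), hrj (j y)]⟩
      have h1 : Z ⊆ ⋃ z ∈ U, ball z (r0 / Λ ^ j z) ∩ {z | 1 / 4 < u z} := by
        intro y hy
        obtain ⟨w, hw, hyw⟩ := mem_thickening_iff.1 hy.1
        have := hUcov w hw (show y ∈ ball w (r0 / Λ ^ j w / 4) from
          mem_ball.2 (by linarith [hrj'' (j w) J (hj w hw).1]))
        simp only [mem_iUnion] at this ⊢
        obtain ⟨z, hz, hyz⟩ := this
        exact ⟨z, hz, by rwa [mul_div_cancel₀ _ (by norm_num)] at hyz, hy.2⟩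
      have h2 : ENNReal.ofReal (((J : ℝ) + 1) ^ β) * μ Z ≤ M := by
        calc _ ≤ ENNReal.ofReal (((J : ℝ) + 1) ^ β) *
              ∑' z : U, μ (ball (z : X) (r0 / Λ ^ j z) ∩ {z | 1 / 4 < u z}) :=
              mul_le_mul_right ((measure_mono h1).trans (measure_biUnion_le μ hUc _)) _
          _ ≤ ∑' z : U, ENNReal.ofReal δ *
              ((S.Cd : ℝ≥0∞) ^ 2 * μ (ball (z : X) (r0 / Λ ^ j z / 4))) := by
              rw [← ENNReal.tsum_mul_left]
              refine ENNReal.tsum_le_tsum fun z => (hj z (hUT z.2)).2.trans ?_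
              refine mul_le_mul_right (le_trans (le_of_eq ?_) (S.dbl_pow _ _ 2)) _
              congr 2; ring
          _ ≤ M := by
              rw [ENNReal.tsum_mul_left, ENNReal.tsum_mul_left,
                ← measure_biUnion hUc hUd fun _ _ => measurableSet_ball]
              refine mul_le_mul_right (mul_le_mul_right (measure_mono
                (iUnion₂_subset fun z hz => ball_subset_ball' ?_)) _) _
              have := mem_ball.1 (hT (hUT hz))
              linarith [hrj' (j z)]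
      by_contra hcon
      have h3 : (n : ℝ≥0∞) ≤ M / δ₁ := by
        rw [ENNReal.le_div_iff_mul_le (Or.inl hδ₁.ne') (Or.inr (ENNReal.mul_ne_top
          ENNReal.ofReal_ne_top (ENNReal.mul_ne_top (by simp) (S.fin _ _))))]
        refine le_trans (mul_le_mul' ?_ (not_lt.1 hcon)) h2
        rw [← ENNReal.ofReal_natCast]
        exact ENNReal.ofReal_le_ofReal hJ
      exact absurd hn (not_lt.2 h3)
    set s := r0 / Λ ^ J / (4 * (1 + S.lam)) with hs
    have hs0 : 0 < s := by positivity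
    have hss : r0 / Λ ^ J = 4 * (1 + S.lam) * s := by rw [hs]; field_simp
    have hcap := hM u g H.dg T Ω s s hs0 hs0 (by rw [one_mul]) (fun y hy => (H.one y hy).ge)
      (fun y hy => by
        obtain ⟨x, hx, hyx⟩ := mem_thickening_iff.1 hy
        refine half_le_of_le_half (W := {z | 1 / 4 < u z}) (S.fin _ _)
          (fun z _ => le_or_gt (u z) (1 / 4)) ?_
        calc μ (ball y s ∩ {z | 1 / 4 < u z}) ≤ μ (ball x (r0 / Λ ^ J) ∩ {z | 1 / 4 < u z}) :=
              measure_mono (inter_subset_inter_left _ (ball_subset_ball' (by nlinarith)))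
          _ ≤ ENNReal.ofReal δ * μ (ball x (r0 / Λ ^ J)) := (hiter x hx).1
          _ ≤ ENNReal.ofReal δ * (C7 * μ (ball y s)) :=
              mul_le_mul_right (hC7 x y s _ hs0 (by rw [dist_comm]; nlinarith)) _
          _ ≤ _ := by
              rw [← mul_assoc, ← ENNReal.ofReal_coe_nnreal, ← ENNReal.ofReal_mul hδ0.le]
              gcongr)
      ((thickening_subset_ball hT).trans (ball_subset_ball (by nlinarith [hrj' J]))) hΩf
    rw [show s + S.lam * s = r0 / Λ ^ J / 4 by rw [hss]; ring] at hcap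
    calc varCap μ p T Ω ≤ CM * ∫⁻ z in Z, g z ^ p ∂μ := hcap
      _ ≤ CM * (CE * (∫⁻ z in Z, g₁ z ^ p ∂μ + η₁)) :=
          mul_le_mul_right (hE T Ω u u₁ g g₁ η₁ hΩf ha H H₁
            (hlt.le.trans (add_le_add le_rfl (min_le_left _ _))) hlt₁.le Z) _
      _ ≤ CM * (CE * (η₁ + η₁)) := by gcongr; exact (hδ₁' Z hZsmall).le
      _ = _ := by ring
  simpa using main

end Pool.Agent.MP_024e69_an

end

-- part MP_024e69_an.PathOpen
section

/-! Finely open sets are path open and measurable. -/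

open MeasureTheory Metric Set Filter Topology
open scoped ENNReal NNReal

namespace Pool.Agent.MP_024e69_an

universe u
variable {X : Type u} [MetricSpace X] [MeasurableSpace X] [BorelSpace X]
variable {μ : Measure X} {p : ℝ} [hp : Fact (1 < p)] [Nontrivial X]

lemma Setting.pathOpen (S : Setting μ p) {V : Set X} (hV : IsFinelyOpen μ p V) :
    PathOpen μ p V ∧ NullMeasurableSet V μ := by
  have hp1 : 1 < p := hp.out
  have hp0 : 0 < p := by linarith
  have hp' : 0 < p - 1 := by linarith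
  have hq : 0 < 1 / (p - 1) := by positivity
  have := S.secondCountable
  obtain ⟨R0, h0, h1, hR0⟩ := S.exists_nondeg
  obtain ⟨N, hN⟩ := pow_unbounded_of_one_lt (2 * (1 + S.lam)) (one_lt_two (α := ℝ))
  have hN0 : N ≠ 0 := by
    rintro rfl
    have := S.one_le_lam
    simp only [pow_zero] at hN
    linarith
  obtain ⟨ε, hε, hK⟩ := S.kellogg hR0 hN.le
  obtain ⟨D, hDc, hDd⟩ := TopologicalSpace.exists_countable_dense X
  have hDc' : Countable D := hDc.to_subtype
  set ρ : ℕ → ℝ := fun n => R0 / 2 ^ n with hρdef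
  have hρ : ∀ n, 0 < ρ n := fun n => by simp only [hρdef]; positivity
  have hρ4 : ∀ n, ρ n = 4 * ρ (n + 2) := fun n => by simp only [hρdef]; field_simp; ring
  have hex : ∀ (z : X) (n m : ℕ), ∃ u g,
      Adm μ p (Vᶜ ∩ ball z (2 * ρ n)) (ball z (9 * ρ n)) u g ∧
      ∫⁻ x, g x ^ p ∂μ < varCap μ p (Vᶜ ∩ ball z (2 * ρ n)) (ball z (9 * ρ n)) + (m : ℝ≥0∞)⁻¹ := by
    intro z n m
    refine exists_adm (ENNReal.lt_add_right ?_ (by simp))
    have := S.varCap_ball_ne_top (E := Vᶜ ∩ ball z (2 * ρ n)) (x := z) (r := 9 / 2 * ρ n)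
      (by linarith [hρ n]) (inter_subset_right.trans (ball_subset_ball (by linarith [hρ n])))
    rwa [show 2 * (9 / 2 * ρ n) = 9 * ρ n by ring] at this
  choose u g H hlt using hex
  set Et := ⋂ i : D × ℕ × ℕ, (ball (i.1 : X) (2 * ρ i.2.1))ᶜ ∪ {y | u i.1 i.2.1 i.2.2 y = 1}
    with hEt
  have hVEt : Vᶜ ⊆ Et := by
    refine subset_iInter fun i y hy => ?_
    by_cases hb : y ∈ ball (i.1 : X) (2 * ρ i.2.1)
    · exact Or.inr ((H _ _ _).one y ⟨hy, hb⟩)
    · exact Or.inl hb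
  have hcapEt : ∀ (z : D) (n : ℕ), varCap μ p (Et ∩ ball (z : X) (2 * ρ n)) (ball z (9 * ρ n)) ≤
      varCap μ p (Vᶜ ∩ ball (z : X) (2 * ρ n)) (ball z (9 * ρ n)) := by
    intro z n
    refine ENNReal.le_of_forall_pos_le_add fun e he _ => ?_
    obtain ⟨m, hm⟩ := ENNReal.exists_inv_nat_lt (a := e) (by simpa using he.ne')
    refine ((H z n m).dg.varCap_le (fun y hy => ?_) (fun y hy => ((H z n m).zero y hy).le)
      (S.fin _ _)).trans ((hlt z n m).le.trans (add_le_add le_rfl hm.le))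
    exact ((mem_iInter.1 hy.1 (z, n, m)).resolve_left (not_not.2 hy.2)).ge
  set B : ℕ → X → ℝ≥0∞ := fun n x => (ENNReal.ofReal (ρ (n + 2) ^ p) *
    varCap μ p (Et ∩ ball x (ρ (n + 2))) (ball x (10 * ρ (n + 2))) /
      μ (ball x (ρ (n + 2)))) ^ (1 / (p - 1)) with hB
  have hBle : ∀ n x, B n x ≤
      ((S.Cd : ℝ≥0∞) ^ 2) ^ (1 / (p - 1)) * ncap μ p Vᶜ x (ρ n) ^ (1 / (p - 1)) := by
    intro n x
    rw [← ENNReal.mul_rpow_of_nonneg _ _ hq.le]
    refine ENNReal.rpow_le_rpow (div_le_mul_div (S.ne_zero x (hρ _)) (S.fin _ _)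
      (S.ne_zero x (hρ _)) (S.fin _ _) ?_) hq.le
    obtain ⟨z, hzD, hz⟩ := hDd.exists_dist_lt x (hρ (n + 2))
    have h4 := hρ4 n
    have h2 := hρ (n + 2)
    have a1 : varCap μ p (Et ∩ ball x (ρ (n + 2))) (ball x (10 * ρ (n + 2))) ≤
        varCap μ p (Vᶜ ∩ ball x (ρ n)) (ball x (2 * ρ n)) := by
      refine le_trans (varCap_mono (inter_subset_inter_right _ (ball_subset_ball' ?_))
        (ball_subset_ball' ?_)) ((hcapEt ⟨z, hzD⟩ (n + 2)).trans
        (varCap_mono (inter_subset_inter_right _ (ball_subset_ball' ?_)) (ball_subset_ball' ?_)))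
      · simp only; linarith
      · simp only; rw [dist_comm]; linarith
      · simp only; rw [dist_comm]; linarith
      · simp only; linarith
    have a2 : μ (ball x (ρ n)) ≤ (S.Cd : ℝ≥0∞) ^ 2 * μ (ball x (ρ (n + 2))) := by
      refine le_trans (le_of_eq ?_) (S.dbl_pow _ _ 2)
      rw [h4]; norm_num
    have a3 : ENNReal.ofReal (ρ (n + 2) ^ p) ≤ ENNReal.ofReal (ρ n ^ p) :=
      ENNReal.ofReal_le_ofReal (Real.rpow_le_rpow h2.le (by linarith) hp0.le)
    refine (mul_le_mul' (mul_le_mul' a3 a1) a2).trans (le_of_eq ?_)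
    ring
  have hnegl : Negl μ p (Et ∩ V) := by
    refine Negl.mono (B := ⋃ i : ℕ × D, {x | x ∈ Et ∧ ∑' n, B (n + (i.1 + 1)) x ≤ ENNReal.ofReal ε} ∩
      ball (i.2 : X) (ρ (i.1 + 1 + 2) / 2)) (Negl.iUnion fun i => ?_) fun x hx => ?_
    · obtain ⟨n₀, z⟩ := i
      have hr0 := hρ (n₀ + 1 + 2)
      have h8 : 8 * ρ (n₀ + 1 + 2) ≤ R0 := by
        simp only [hρdef]
        rw [show n₀ + 1 + 2 = n₀ + 3 by ring, pow_add, ← mul_div_assoc,
          div_le_iff₀ (by positivity)]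
        have : (1 : ℝ) ≤ 2 ^ n₀ := one_le_pow₀ one_le_two
        nlinarith
      refine S.negl_of_cap hR0 (x := z) (t := 8 * ρ (n₀ + 1 + 2)) (by linarith) h8
        (hK _ z _ hr0 h8 inter_subset_right fun x hx => ?_)
      have hfin : ∀ n, B (n + (n₀ + 1)) x ≠ ⊤ := fun n =>
        ne_top_of_le_ne_top ENNReal.ofReal_ne_top
          ((ENNReal.le_tsum (f := fun n => B (n + (n₀ + 1)) x) n).trans hx.1.2)
      refine ⟨fun j => (B (N * j + (n₀ + 1)) x).toReal, fun _ => ENNReal.toReal_nonneg,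
        fun n => ?_, fun j => ?_⟩
      · rw [← ENNReal.toReal_sum fun j _ => hfin _]
        refine ENNReal.toReal_le_of_le_ofReal hε.le (le_trans (ENNReal.sum_le_tsum _)
          (le_trans ?_ hx.1.2))
        exact ENNReal.tsum_comp_le_tsum_of_injective (f := fun j => N * j)
          (mul_right_injective₀ hN0) fun n => B (n + (n₀ + 1)) x
      · have hr : ρ (n₀ + 1 + 2) / (2 ^ N) ^ j = ρ (N * j + (n₀ + 1) + 2) := by
          simp only [hρdef]
          rw [div_div, ← pow_mul, ← pow_add]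
          congr 2
          ring
        have hle : ρ (N * j + (n₀ + 1) + 2) ≤ ρ (n₀ + 1 + 2) := by
          rw [← hr]
          exact div_le_self hr0.le (one_le_pow₀ (one_le_pow₀ one_le_two))
        rw [hr, ← ENNReal.ofReal_rpow_of_nonneg ENNReal.toReal_nonneg hp'.le,
          ENNReal.ofReal_toReal (hfin _)]
        simp only [hB]
        rw [one_div, ENNReal.rpow_inv_rpow hp'.ne',
          ENNReal.div_mul_cancel (S.ne_zero x (hρ _)) (S.fin _ _)]
        refine mul_le_mul_right (varCap_mono (inter_subset_inter_left _ fun y hy => hy.1.1)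
          (ball_subset_ball' ?_)) _
        have := mem_ball.1 hx.2
        simp only at this
        linarith
    · have hthin := (S.thin_iff hR0 h0 h1 Vᶜ x).1 (hV x hx.2)
      have hsum : ∑' n, B n x ≠ ⊤ := by
        refine ne_top_of_le_ne_top (ENNReal.mul_ne_top
          (ENNReal.rpow_ne_top_of_nonneg hq.le (x := (S.Cd : ℝ≥0∞) ^ 2) (by simp)) hthin) ?_
        rw [← ENNReal.tsum_mul_left]
        exact ENNReal.tsum_le_tsum fun n => hBle n x
      have hlim := (ENNReal.tendsto_sum_nat_add _ hsum).comp (tendsto_add_atTop_nat 1)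
      obtain ⟨n₀, hn₀⟩ := (hlim.eventually (Iic_mem_nhds (ENNReal.ofReal_pos.2 hε))).exists
      obtain ⟨z, hzD, hz⟩ := hDd.exists_dist_lt x (half_pos (hρ (n₀ + 1 + 2)))
      exact mem_iUnion.2 ⟨(n₀, ⟨z, hzD⟩), ⟨hx.1, hn₀⟩, hz⟩
  have hVeq : V = Etᶜ ∪ Et ∩ V := by
    ext y
    constructor
    · intro hy
      by_cases h : y ∈ Et
      exacts [Or.inr ⟨h, hy⟩, Or.inl h]
    · rintro (h | h)
      · by_contra hy
        exact h (hVEt hy)
      · exact h.2
  constructor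
  · filter_upwards [hnegl.2, eventually_countable_forall.2
      fun i : D × ℕ × ℕ => (H i.1 i.2.1 i.2.2).dg.ac] with γ k1 k2 t ht hmem
    have hnot : γ.toFun t ∉ Et := fun h => k1 t ht ⟨h, hmem⟩
    rw [hEt, mem_iInter, not_forall] at hnot
    obtain ⟨i, hi⟩ := hnot
    rw [mem_union, not_or, mem_compl_iff, not_not] at hi
    have c1 := γ.continuousOn t ht (isOpen_ball.mem_nhds hi.1)
    have c2 := (k2 i).continuousOn
    rw [uIcc_of_le γ.lt.le] at c2
    have c3 := c2 t ht (isOpen_compl_singleton.mem_nhds hi.2)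
    filter_upwards [c1, c3] with s hs1 hs2
    by_contra hsV
    rcases mem_iInter.1 (hVEt hsV) i with h | h
    · exact h hs1
    · exact hs2 h
  · rw [hVeq]
    refine NullMeasurableSet.union (NullMeasurableSet.compl (NullMeasurableSet.iInter fun i => ?_))
      (NullMeasurableSet.of_null hnegl.1)
    exact measurableSet_ball.compl.nullMeasurableSet.union
      ((H _ _ _).dg.mu.nullMeasurableSet_preimage (measurableSet_singleton 1))

end Pool.Agent.MP_024e69_an

end

-- part MP_024e69_an.Main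
section

/-! Two disjoint finely open sets with thin complement of the union cannot both be thick. -/

open MeasureTheory Metric Set Filter Topology
open scoped ENNReal NNReal

namespace Pool.Agent.MP_024e69_an

universe u
variable {X : Type u} [MetricSpace X] [MeasurableSpace X] [BorelSpace X]
variable {μ : Measure X} {p : ℝ} [hp : Fact (1 < p)]

omit hp in
lemma quarter {m a b c : ℝ≥0∞} (hm : m ≠ ⊤) (h : m ≤ a + b + c)
    (ha : a ≤ ENNReal.ofReal 4⁻¹ * m) (hc : c ≤ ENNReal.ofReal 4⁻¹ * m) :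
    ENNReal.ofReal 4⁻¹ * m ≤ b := by
  set q := ENNReal.ofReal 4⁻¹ * m with hq
  have hqt : q ≠ ⊤ := ENNReal.mul_ne_top ENNReal.ofReal_ne_top hm
  have h1 : m = q + q + (q + q) := by
    rw [hq, ← add_mul, ← add_mul, ← ENNReal.ofReal_add (by norm_num) (by norm_num),
      ← ENNReal.ofReal_add (by norm_num) (by norm_num)]
    norm_num
  have h2 : q + q + (q + q) ≤ b + (q + q) := by
    rw [← h1]
    calc m ≤ q + b + q := h.trans (by gcongr)
      _ = _ := by ring
  exact le_self_add.trans ((ENNReal.add_le_add_iff_right (by simp [hqt])).1 h2)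

omit hp in
lemma eighth {m a b : ℝ≥0∞} (hm : m ≠ ⊤) (h : ENNReal.ofReal 4⁻¹ * m ≤ a + b)
    (hb : b ≤ ENNReal.ofReal 8⁻¹ * m) : ENNReal.ofReal 8⁻¹ * m ≤ a := by
  set q := ENNReal.ofReal 8⁻¹ * m with hq
  have hqt : q ≠ ⊤ := ENNReal.mul_ne_top ENNReal.ofReal_ne_top hm
  have h1 : ENNReal.ofReal 4⁻¹ * m = q + q := by
    rw [hq, ← add_mul, ← ENNReal.ofReal_add (by norm_num) (by norm_num)]
    norm_num
  rw [h1] at h
  exact (ENNReal.add_le_add_iff_right hqt).1 (h.trans (by gcongr))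

lemma Setting.local_cap (S : Setting μ p) {R0 : ℝ} (hR0 : Nondeg X R0) :
    ∃ (N : ℕ) (C : ℝ≥0) (ε : ℝ), 0 < ε ∧ ∀ (A B : Set X), PathOpen μ p A → PathOpen μ p B →
      NullMeasurableSet B μ → Disjoint A B → ∀ (x : X) (ρ : ℝ), 0 < ρ → 2 ^ (N + 1) * ρ ≤ R0 →
      ENNReal.ofReal 4⁻¹ * μ (ball x (2 * ρ)) ≤ μ (B ∩ ball x (2 * ρ)) →
      ncap μ p (A ∪ B)ᶜ x (2 ^ (N + 1) * ρ) < ENNReal.ofReal ε →
      ncap μ p A x ρ ≤ C * ncap μ p (A ∪ B)ᶜ x (2 ^ (N + 1) * ρ) := by
  have hp1 : 1 < p := hp.out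
  have hp0 : 0 < p := by linarith
  have hlam := S.one_le_lam
  obtain ⟨N, hN⟩ := pow_unbounded_of_one_lt (2 + 4 * S.lam) (one_lt_two (α := ℝ))
  obtain ⟨C8, hC81, hC8⟩ := S.comp 3
  obtain ⟨C9, hC91, hC9⟩ := S.comp (2 ^ (N + 1))
  obtain ⟨CZ, hCZ1, hZ⟩ := S.weakZ hR0
  have hC8r : (1 : ℝ) ≤ C8 := by exact_mod_cast hC81
  have hC9r : (1 : ℝ) ≤ C9 := by exact_mod_cast hC91
  have hCZr : (1 : ℝ) ≤ CZ := by exact_mod_cast hCZ1
  obtain ⟨CM, hCM1, hM⟩ := S.mazya (c := 8⁻¹ * (C8 : ℝ)⁻¹) (by positivity) 4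
  refine ⟨N, CM * C9, 8⁻¹ * (CZ * 4 ^ p * C9 : ℝ)⁻¹, by positivity,
    fun A B hA hB hBm hAB x ρ hρ htR hdens hsmall => ?_⟩
  set t := 2 ^ (N + 1) * ρ with ht
  set ε : ℝ := 8⁻¹ * (CZ * 4 ^ p * C9 : ℝ)⁻¹ with hε
  have ht0 : 0 < t := by positivity
  have ht2 : (2 + 4 * S.lam) * ρ ≤ t / 2 := by
    rw [ht, pow_succ]; nlinarith
  have hρt : ρ ≤ t := by nlinarith
  have htp : ENNReal.ofReal (t ^ p) ≠ 0 := (ENNReal.ofReal_pos.2 (by positivity)).ne'
  have hμt : μ (ball x t) ≤ C9 * μ (ball x ρ) := hC9 x x ρ t hρ (by rw [dist_self, zero_add])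
  set F := (A ∪ B)ᶜ with hF
  set c₀ := ENNReal.ofReal ε * μ (ball x t) / ENNReal.ofReal (t ^ p) with hc₀
  have hlt₀ : varCap μ p (F ∩ ball x t) (ball x (2 * t)) < c₀ := by
    unfold ncap at hsmall
    rw [ENNReal.div_lt_iff (Or.inl (S.ne_zero x ht0)) (Or.inl (S.fin _ _))] at hsmall
    rw [hc₀, ENNReal.lt_div_iff_mul_lt (Or.inl htp) (Or.inl ENNReal.ofReal_ne_top), mul_comm]
    exact hsmall
  have main : varCap μ p (A ∩ ball x ρ) (ball x (2 * ρ)) ≤
      CM * varCap μ p (F ∩ ball x t) (ball x (2 * t)) := by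
    refine le_mul_of_forall_lt ?_ ENNReal.coe_ne_top fun c hc => ?_
    · exact_mod_cast (zero_lt_one.trans_le hCM1).ne'
    obtain ⟨v, g, H, hlt⟩ := exists_adm (lt_min hc hlt₀)
    have ht20 : 0 < t / 2 := by positivity
    have hcut := (DG.cut (μ := μ) (p := p) (ball x (t / 2)) ht20).const_sub 1
    set v' : X → ℝ := fun y => max (v y) (1 - cut (ball x (t / 2)) (t / 2) y) with hv'
    set G : X → ℝ≥0∞ := fun y => g y + (ball x (t / 2))ᶜ.indicator (fun _ => ⊤) y with hG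
    have hv'v : ∀ y ∈ ball x (t / 2), v' y = v y := fun y hy => by
      simp only [hv', cut_of_mem _ hy, sub_self]
      exact max_eq_left (H.nonneg y)
    have hGg : ∀ y ∈ ball x (t / 2), G y = g y := fun y hy => by simp [hG, hy]
    have hv'G : DG μ p v' G := by
      refine H.dg.glue₁ (H.dg.mu.max hcut.mu) (H.dg.ac.max hcut.ac)
        (H.dg.mg.add (measurable_const.indicator measurableSet_ball.compl).aemeasurable)
        fun y => ?_
      by_cases hy : y ∈ ball x (t / 2)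
      · exact Or.inr ⟨hv'v y hy, (hGg y hy).ge⟩
      · left; simp [hG, hy]
    have hw := (hv'G.indicator hB hA hAB.symm hBm fun y hyB hyA => by
      by_cases hy : y ∈ ball x t
      · simp only [hv', H.one y ⟨fun h => h.elim hyA hyB, hy⟩]
        exact max_eq_left (sub_le_self _ (cut_nonneg _ _ _))
      · have : cut (ball x (t / 2)) (t / 2) y = 0 :=
          cut_of_notMem (nonempty_ball.2 ht20) ht20 fun h => hy (by
            have := thickening_subset_ball subset_rfl h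
            rwa [add_halves] at this)
        simp only [hv', this, sub_zero]
        exact max_eq_right (H.le_one y)).const_sub 1
    have hth : thickening ρ (A ∩ ball x ρ) ⊆ ball x (2 * ρ) := by
      rw [two_mul]; exact thickening_subset_ball inter_subset_right
    have hv4 : μ {y | 1 / 4 ≤ v y} ≤ ENNReal.ofReal 8⁻¹ * μ (ball x (2 * ρ)) := by
      calc μ {y | 1 / 4 ≤ v y} ≤ CZ * ENNReal.ofReal ((t / (1 / 4)) ^ p) * c₀ :=
            (hZ v g H.dg x t (1 / 4) ht0 htR (by norm_num) fun y hy => (H.zero y hy).le).trans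
              (mul_le_mul_right (hlt.le.trans (min_le_right _ _)) _)
        _ = CZ * ENNReal.ofReal (4 ^ p) * (ENNReal.ofReal (t ^ p) * c₀) := by
            rw [show t / (1 / 4) = 4 * t by ring, Real.mul_rpow (by norm_num) ht0.le,
              ENNReal.ofReal_mul (by positivity)]
            ring
        _ ≤ CZ * ENNReal.ofReal (4 ^ p) * (ENNReal.ofReal ε * (C9 * μ (ball x (2 * ρ)))) := by
            refine mul_le_mul_right (ENNReal.mul_div_le.trans (mul_le_mul_right (hμt.trans ?_) _)) _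
            exact mul_le_mul_right (measure_mono (ball_subset_ball (by linarith))) _
        _ = _ := by
            rw [← mul_assoc, ← mul_assoc, ← ENNReal.ofReal_coe_nnreal,
              ← ENNReal.ofReal_coe_nnreal (p := C9), ← ENNReal.ofReal_mul (by positivity),
              ← ENNReal.ofReal_mul (by positivity), ← ENNReal.ofReal_mul (by positivity), hε]
            congr 2
            field_simp
    refine (hM _ G hw (A ∩ ball x ρ) (ball x (2 * ρ)) ρ (4 * ρ) hρ (by positivity) le_rfl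
      (fun y hy => by simp [indicator_of_notMem (Set.disjoint_left.1 hAB hy.1)])
      (fun y hy => ?_) hth (S.fin _ _)).trans (mul_le_mul_right ?_ _)
    · have hyx := mem_ball.1 (hth hy)
      have k1 : ENNReal.ofReal 8⁻¹ * μ (ball x (2 * ρ)) ≤ μ (ball y (4 * ρ) ∩
          {z | 1 - B.indicator (fun x => 1 - v' x) z ≤ 1 / 4}) := by
        refine eighth (S.fin _ _) (hdens.trans (le_trans (measure_mono fun z hz => ?_)
          (measure_union_le _ _))) hv4
        have hz2 := mem_ball.1 hz.2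
        rcases le_total (v z) (1 / 4) with h | h
        · refine Or.inl ⟨mem_ball.2 (by linarith [dist_triangle_right z y x]), ?_⟩
          show 1 - B.indicator (fun x => 1 - v' x) z ≤ 1 / 4
          rw [indicator_of_mem hz.1, hv'v z (mem_ball.2 (by nlinarith))]
          linarith
        · exact Or.inr h
      refine le_trans ?_ k1
      calc ENNReal.ofReal (8⁻¹ * (C8 : ℝ)⁻¹) * μ (ball y (4 * ρ))
          ≤ ENNReal.ofReal (8⁻¹ * (C8 : ℝ)⁻¹) * (C8 * μ (ball x (2 * ρ))) :=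
            mul_le_mul_right (hC8 y x (2 * ρ) (4 * ρ) (by positivity) (by linarith)) _
        _ = _ := by
            rw [← mul_assoc, ← ENNReal.ofReal_coe_nnreal, ← ENNReal.ofReal_mul (by positivity)]
            congr 2
            field_simp
    · calc _ ≤ ∫⁻ z in ball x (t / 2), G z ^ p ∂μ := by
            refine lintegral_mono_set (inter_subset_left.trans
              ((thickening_subset_ball inter_subset_right).trans (ball_subset_ball (by linarith))))
        _ = ∫⁻ z in ball x (t / 2), g z ^ p ∂μ :=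
            setLIntegral_congr_fun measurableSet_ball fun z hz => by simp only [hGg z hz]
        _ ≤ ∫⁻ z, g z ^ p ∂μ := setLIntegral_le_lintegral _ _
        _ ≤ c := hlt.le.trans (min_le_left _ _)
  unfold ncap
  refine div_le_mul_div (S.ne_zero x hρ) (S.fin _ _) (S.ne_zero x ht0) (S.fin _ _) ?_
  have a3 : ENNReal.ofReal (ρ ^ p) ≤ ENNReal.ofReal (t ^ p) :=
    ENNReal.ofReal_le_ofReal (Real.rpow_le_rpow hρ.le hρt hp0.le)
  refine (mul_le_mul' (mul_le_mul' a3 main) hμt).trans (le_of_eq ?_)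
  push_cast
  ring

variable [Nontrivial X]

lemma Setting.thin_or_thin (S : Setting μ p) {A B : Set X} (hA : IsFinelyOpen μ p A)
    (hB : IsFinelyOpen μ p B) (hAB : Disjoint A B) {x : X} (hF : IsThin μ p (A ∪ B)ᶜ x) :
    IsThin μ p A x ∨ IsThin μ p B x := by
  have hp1 : 1 < p := hp.out
  have hq : 0 < 1 / (p - 1) := by have : 0 < p - 1 := by linarith
                                  positivity
  obtain ⟨R0, h0, h1, hR0⟩ := S.exists_nondeg
  obtain ⟨N, C, ε, hε, hL⟩ := S.local_cap hR0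
  obtain ⟨Cm, hCm1, hm⟩ := S.measure_le_cap hR0
  set ρ : ℕ → ℝ := fun n => R0 / 2 ^ n with hρdef
  have hρ : ∀ n, 0 < ρ n := fun n => by simp only [hρdef]; positivity
  have hρR : ∀ n, ρ n ≤ R0 := fun n => div_le_self h0.le (one_le_pow₀ one_le_two)
  have hρ2 : ∀ n, 2 * ρ (n + 1) = ρ n := fun n => by simp only [hρdef]; field_simp; ring
  have hρN : ∀ n, 2 ^ (N + 1) * ρ (n + N + 1) = ρ n := fun n => by
    simp only [hρdef]; field_simp; ring
  set ε₁ : ℝ := min ε (4⁻¹ * ((Cm : ℝ) * (C + 1))⁻¹) with hε₁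
  have hCmr : (1 : ℝ) ≤ Cm := by exact_mod_cast hCm1
  have hε₁0 : 0 < ε₁ := lt_min hε (by positivity)
  have hmeas : ∀ (E : Set X) (n : ℕ), ncap μ p E x (ρ n) ≤ (C + 1 : ℝ≥0) * ENNReal.ofReal ε₁ →
      μ (E ∩ ball x (ρ n)) ≤ ENNReal.ofReal 4⁻¹ * μ (ball x (ρ n)) := by
    intro E n h
    refine (hm _ x _ (hρ n) (hρR n)).trans ?_
    rw [mul_assoc, ← S.ncap_mul E x (hρ n), ← mul_assoc]
    refine mul_le_mul_left ((mul_le_mul_right h _).trans ?_) _
    rw [← ENNReal.ofReal_coe_nnreal, ← ENNReal.ofReal_coe_nnreal (p := C + 1),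
      ← ENNReal.ofReal_mul (by positivity), ← ENNReal.ofReal_mul (by positivity)]
    refine ENNReal.ofReal_le_ofReal ?_
    have : ε₁ ≤ 4⁻¹ * ((Cm : ℝ) * (C + 1))⁻¹ := min_le_right _ _
    push_cast
    calc (Cm : ℝ) * ((C + 1) * ε₁) ≤ Cm * ((C + 1) * (4⁻¹ * ((Cm : ℝ) * (C + 1))⁻¹)) := by gcongr
      _ = 4⁻¹ := by field_simp
  have hsum := (S.thin_iff hR0 h0 h1 _ x).1 hF
  obtain ⟨n₀, hn₀⟩ : ∃ n₀, ∀ n ≥ n₀, ncap μ p (A ∪ B)ᶜ x (ρ n) < ENNReal.ofReal ε₁ := by
    have h2 := (ENNReal.tendsto_atTop_zero_of_tsum_ne_top hsum).eventually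
      (Iio_mem_nhds (ENNReal.rpow_pos (ENNReal.ofReal_pos.2 hε₁0) ENNReal.ofReal_ne_top
        (p := 1 / (p - 1))))
    obtain ⟨n₀, hn₀⟩ := eventually_atTop.1 h2
    exact ⟨n₀, fun n hn => (ENNReal.rpow_lt_rpow_iff hq).1 (hn₀ n hn)⟩
  have hFm : ∀ n ≥ n₀, μ ((A ∪ B)ᶜ ∩ ball x (ρ n)) ≤ ENNReal.ofReal 4⁻¹ * μ (ball x (ρ n)) :=
    fun n hn => hmeas _ n ((hn₀ n hn).le.trans (le_mul_of_one_le_left' (by simp)))
  have hsplit : ∀ (A' B' : Set X) (r : ℝ), μ (ball x r) ≤
      μ (A' ∩ ball x r) + μ (B' ∩ ball x r) + μ ((A' ∪ B')ᶜ ∩ ball x r) := by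
    intro A' B' r
    refine le_trans (measure_mono fun z hz => ?_)
      ((measure_union_le _ _).trans (add_le_add (measure_union_le _ _) le_rfl))
    by_cases h : z ∈ A' ∪ B'
    · exact Or.inl (h.imp (fun h => ⟨h, hz⟩) fun h => ⟨h, hz⟩)
    · exact Or.inr ⟨h, hz⟩
  have key : ∀ A' B' : Set X, IsFinelyOpen μ p A' → IsFinelyOpen μ p B' → Disjoint A' B' →
      A' ∪ B' = A ∪ B →
      ENNReal.ofReal 4⁻¹ * μ (ball x (ρ (n₀ + N))) ≤ μ (B' ∩ ball x (ρ (n₀ + N))) →
      IsThin μ p A' x := by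
    intro A' B' hA' hB' hd hU hinit
    have step : ∀ n ≥ n₀,
        ENNReal.ofReal 4⁻¹ * μ (ball x (ρ (n + N))) ≤ μ (B' ∩ ball x (ρ (n + N))) →
        ncap μ p A' x (ρ (n + N + 1)) ≤ C * ncap μ p (A ∪ B)ᶜ x (ρ n) := by
      intro n hn h
      have := hL A' B' (S.pathOpen hA').1 (S.pathOpen hB').1 (S.pathOpen hB').2 hd x
        (ρ (n + N + 1)) (hρ _) (by rw [hρN]; exact hρR n) (by rwa [hρ2])
        (by rw [hρN, hU]; exact (hn₀ n hn).trans_le (ENNReal.ofReal_le_ofReal (min_le_left _ _)))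
      rwa [hρN, hU] at this
    have ind : ∀ n ≥ n₀,
        ENNReal.ofReal 4⁻¹ * μ (ball x (ρ (n + N))) ≤ μ (B' ∩ ball x (ρ (n + N))) := by
      intro n hn
      induction n, hn using Nat.le_induction with
      | base => exact hinit
      | succ n hn ih =>
        rw [show n + 1 + N = n + N + 1 by ring]
        refine quarter (S.fin _ _) (hsplit A' B' _) (hmeas _ _ ((step n hn ih).trans ?_)) ?_
        · exact mul_le_mul' (by simp) (hn₀ n hn).le
        · rw [hU]; exact hFm _ (by omega)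
    rw [S.thin_iff hR0 h0 h1]
    refine tsum_ne_top_of_tail (fun n => ENNReal.rpow_ne_top_of_nonneg hq.le
      (S.ncap_ne_top _ x (hρ n))) (n₀ + N + 1) (ne_top_of_le_ne_top (ENNReal.mul_ne_top
        (ENNReal.rpow_ne_top_of_nonneg hq.le (x := C) ENNReal.coe_ne_top) hsum) ?_)
    refine le_trans ?_ (mul_le_mul_right (ENNReal.tsum_comp_le_tsum_of_injective
      (f := fun n => n + n₀) (add_left_injective n₀) _) _)
    rw [← ENNReal.tsum_mul_left]
    refine ENNReal.tsum_le_tsum fun n => ?_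
    rw [← ENNReal.mul_rpow_of_nonneg _ _ hq.le]
    refine ENNReal.rpow_le_rpow ?_ hq.le
    have := step (n + n₀) (by omega) (ind _ (by omega))
    rwa [show n + n₀ + N + 1 = n + (n₀ + N + 1) by ring] at this
  rcases le_total (μ (A ∩ ball x (ρ (n₀ + N)))) (ENNReal.ofReal 4⁻¹ * μ (ball x (ρ (n₀ + N))))
    with h | h
  · exact Or.inl (key A B hA hB hAB rfl
      (quarter (S.fin _ _) (hsplit A B _) h (hFm _ (by omega))))
  · exact Or.inr (key B A hB hA hAB.symm (union_comm _ _) h)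

lemma Setting.finelyOpen_inter (S : Setting μ p) {A B : Set X} (hA : IsFinelyOpen μ p A)
    (hB : IsFinelyOpen μ p B) : IsFinelyOpen μ p (A ∩ B) := fun x hx => by
  rw [compl_inter]
  exact S.thin_union (hA x hx.1) (hB x hx.2)

lemma Setting.isOpen_fine_iff (S : Setting μ p) (V : Set X) :
    IsOpen[fineTopology μ p] V ↔ IsFinelyOpen μ p V := by
  refine ⟨fun h => ?_, fun h => TopologicalSpace.isOpen_generateFrom_of_mem h⟩
  induction h with
  | basic s hs => exact hs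
  | univ => intro x _; rw [compl_univ]; exact S.thin_empty x
  | inter s t _ _ hs ht => exact S.finelyOpen_inter hs ht
  | sUnion T _ hT =>
    rintro x ⟨t, ht, hx⟩
    exact (hT t ht x hx).mono (compl_subset_compl.2 (subset_sUnion_of_mem ht))

lemma Setting.fineDomain_diff' (S : Setting μ p) {U E : Set X} (hU : IsFineDomain μ p U)
    (hE : sobolevCap μ p E = 0) : IsFineDomain μ p (U \ E) := by
  have hthin : ∀ x ∈ U, IsThin μ p (U \ E)ᶜ x := fun x hx => by
    rw [Set.sdiff_eq, compl_inter, compl_compl]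
    exact S.thin_union (hU.1 x hx) (S.thin_of_sobolevCap hE x)
  have hopen : IsFinelyOpen μ p (U \ E) := fun x hx => hthin x hx.1
  refine ⟨hopen, ?_, ?_⟩
  · obtain ⟨x, hx⟩ := hU.2.1
    by_contra hne
    have := hthin x hx
    rw [not_nonempty_iff_eq_empty.1 hne, compl_empty] at this
    exact S.not_thin_univ x this
  intro a b ha hb hcov hane hbne
  by_contra hemp
  rw [not_nonempty_iff_eq_empty] at hemp
  rw [S.isOpen_fine_iff] at ha hb
  set A := (U \ E) ∩ a with hAdef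
  set B := (U \ E) ∩ b with hBdef
  have hA : IsFinelyOpen μ p A := S.finelyOpen_inter hopen ha
  have hB : IsFinelyOpen μ p B := S.finelyOpen_inter hopen hb
  have hAB : Disjoint A B := by
    rw [Set.disjoint_left]
    intro z hz1 hz2
    have : z ∈ (U \ E) ∩ (a ∩ b) := ⟨hz1.1, hz1.2, hz2.2⟩
    rw [hemp] at this
    exact this
  have hun : A ∪ B = U \ E := by
    rw [hAdef, hBdef, ← inter_union_distrib_left, inter_eq_left.2 hcov]
  have hext : ∀ A' B' : Set X, IsFinelyOpen μ p A' → A' ∪ B' = U \ E →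
      IsFinelyOpen μ p (A' ∪ {x | x ∈ U ∧ IsThin μ p B' x}) := by
    intro A' B' hA' hun' x hx
    rcases hx with hx | hx
    · exact (hA' x hx).mono (compl_subset_compl.2 subset_union_left)
    · refine (S.thin_union hx.2 (hthin x hx.1)).mono fun z hz => ?_
      by_cases h : z ∈ U \ E
      · rw [← hun'] at h
        exact Or.inl (h.resolve_left fun h' => hz (Or.inl h'))
      · exact Or.inr h
  have hnot : ∀ x ∈ U, IsThin μ p A x → IsThin μ p B x → False := fun x hx h1 h2 => by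
    have := S.thin_union (S.thin_union h1 h2) (hthin x hx)
    rw [hun, union_compl_self] at this
    exact S.not_thin_univ x this
  have hAthin : ∀ x ∈ A, IsThin μ p B x := fun x hx =>
    (hA x hx).mono (Set.disjoint_right.1 hAB)
  have hBthin : ∀ x ∈ B, IsThin μ p A x := fun x hx =>
    (hB x hx).mono (Set.disjoint_left.1 hAB)
  obtain ⟨z, hzU, hz1, hz2⟩ := hU.2.2 _ _ ((S.isOpen_fine_iff _).2 (hext A B hA hun))
    ((S.isOpen_fine_iff _).2 (hext B A hB (by rw [union_comm, hun])))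
    (fun x hx => (S.thin_or_thin hA hB hAB (by rw [hun]; exact hthin x hx)).elim
      (fun h => Or.inr (Or.inr ⟨hx, h⟩)) fun h => Or.inl (Or.inr ⟨hx, h⟩))
    (hane.mono fun x hx => ⟨hx.1.1, Or.inl hx⟩) (hbne.mono fun x hx => ⟨hx.1.1, Or.inl hx⟩)
  exact hnot z hzU (hz2.elim (hBthin z) fun h => h.2) (hz1.elim (hAthin z) fun h => h.2)

omit [Nontrivial X] in
lemma measure_of_sobolevCap {E : Set X} (hE : sobolevCap μ p E = 0) : μ E = 0 := by
  refine le_antisymm (le_of_forall_gt_imp_ge_of_dense fun c hc => ?_) zero_le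
  obtain ⟨u, g, H, h1, -⟩ := exists_of_sobolevCap (hE ▸ hc : sobolevCap μ p E < c)
  refine le_trans ?_ ((setLIntegral_le_lintegral E _).trans h1.le)
  rw [← setLIntegral_one]
  refine setLIntegral_mono_ae (H.dg.mu.ennreal_ofReal.pow_const _).restrict
    (Eventually.of_forall fun x hx => ?_)
  simp [H.one x hx]

omit [Nontrivial X] in
lemma Setting.fineDomain_diff (S : Setting μ p) {U E : Set X} (hU : IsFineDomain μ p U)
    (hE : sobolevCap μ p E = 0) : IsFineDomain μ p (U \ E) := by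
  rcases subsingleton_or_nontrivial X with hX | hX
  · have : E = ∅ := by
      by_contra hne
      obtain ⟨x, hx⟩ := nonempty_iff_ne_empty.2 hne
      refine S.ne_zero x one_pos (measure_mono_null (fun y _ => ?_) (measure_of_sobolevCap hE))
      rwa [Subsingleton.elim y x]
    rwa [this, Set.sdiff_empty]
  · exact S.fineDomain_diff' hU hE

end Pool.Agent.MP_024e69_an

end
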