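import Mathlib
import Pool.Agent.MP_024e69_an.Defs

-- part MP_024e69_an.OneDim
section

/-! One-dimensional lemmas on absolutely continuous functions. -/

open MeasureTheory Metric Set Filter Topology
open scoped ENNReal NNReal

namespace Pool.Agent.MP_024e69_an

abbrev AC (f : ℝ → ℝ) (a b : ℝ) : Prop := AbsolutelyContinuousOnInterval f a b

lemma ac_of_dist_le {f g w : ℝ → ℝ} {a b : ℝ} (K : ℝ) (hf : AC f a b) (hg : AC g a b)
    (h : ∀ s ∈ uIcc a b, ∀ t ∈ uIcc a b,
      dist (w s) (w t) ≤ K * (dist (f s) (f t) + dist (g s) (g t))) : AC w a b := by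
  unfold AC AbsolutelyContinuousOnInterval at *
  have h1 := (hf.add hg).const_mul K
  simp only [add_zero, mul_zero] at h1
  refine squeeze_zero' ?_ ?_ h1
  · exact Eventually.of_forall fun E => Finset.sum_nonneg fun _ _ => dist_nonneg
  · rw [eventually_inf_principal]
    refine Eventually.of_forall fun E hE => ?_
    rw [← Finset.sum_add_distrib, Finset.mul_sum]
    refine Finset.sum_le_sum fun i hi => ?_
    have := hE.1 i hi
    exact h _ this.1 _ this.2

lemma ac_of_dist_le' {f w : ℝ → ℝ} {a b : ℝ} (K : ℝ) (hf : AC f a b)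
    (h : ∀ s ∈ uIcc a b, ∀ t ∈ uIcc a b, dist (w s) (w t) ≤ K * dist (f s) (f t)) :
    AC w a b := by
  refine ac_of_dist_le (K / 2) hf hf fun s hs t ht => ?_
  have := h s hs t ht
  linarith

lemma ac_const (c a b : ℝ) : AC (fun _ => c) a b := by
  unfold AC AbsolutelyContinuousOnInterval
  simpa using tendsto_const_nhds

lemma ac_comp_lipschitz {f : ℝ → ℝ} {Φ : ℝ → ℝ} {a b : ℝ} {K : ℝ≥0} (hΦ : LipschitzWith K Φ)
    (hf : AC f a b) : AC (fun t => Φ (f t)) a b :=
  ac_of_dist_le' K hf fun _ _ _ _ => hΦ.dist_le_mul _ _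

lemma ac_max {f g : ℝ → ℝ} {a b : ℝ} (hf : AC f a b) (hg : AC g a b) :
    AC (fun t => max (f t) (g t)) a b := by
  refine ac_of_dist_le 1 hf hg fun s _ t _ => ?_
  simp only [Real.dist_eq, one_mul]
  refine (abs_max_sub_max_le_max _ _ _ _).trans ?_
  exact max_le (le_add_of_nonneg_right (abs_nonneg _)) (le_add_of_nonneg_left (abs_nonneg _))

lemma ac_min {f g : ℝ → ℝ} {a b : ℝ} (hf : AC f a b) (hg : AC g a b) :
    AC (fun t => min (f t) (g t)) a b := by
  refine ac_of_dist_le 1 hf hg fun s _ t _ => ?_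
  simp only [Real.dist_eq, one_mul]
  refine (abs_min_sub_min_le_max _ _ _ _).trans ?_
  exact max_le (le_add_of_nonneg_right (abs_nonneg _)) (le_add_of_nonneg_left (abs_nonneg _))

lemma ae_diff {f : ℝ → ℝ} {a b : ℝ} (hab : a ≤ b) (hf : AC f a b) :
    ∀ᵐ τ ∂(volume.restrict (Icc a b)), DifferentiableAt ℝ f τ := by
  rw [ae_restrict_iff' measurableSet_Icc]
  filter_upwards [hf.ae_differentiableAt] with τ hτ hmem
  exact hτ (by rwa [uIcc_of_le hab])

lemma ae_deriv_zero_of_zero {h : ℝ → ℝ} {a b : ℝ} (hab : a ≤ b) (hh : AC h a b) :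
    ∀ᵐ τ ∂(volume.restrict (Icc a b)), h τ = 0 → HasDerivAt h 0 τ := by
  have habs : AC (fun t => |h t|) a b :=
    ac_of_dist_le' 1 hh fun s _ t _ => by
      simp only [Real.dist_eq, one_mul]; exact abs_abs_sub_abs_le_abs_sub _ _
  filter_upwards [ae_diff hab habs] with τ hτ h0
  have hmin : IsLocalMin (fun t => |h t|) τ :=
    Eventually.of_forall fun s => by simp [h0]
  have hd : HasDerivAt (fun t => |h t|) 0 τ := by
    have := hτ.hasDerivAt
    rwa [hmin.deriv_eq_zero] at this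
  rw [hasDerivAt_iff_isLittleO] at hd ⊢
  simp only [h0, abs_zero, sub_zero, smul_zero] at hd ⊢
  exact Asymptotics.isLittleO_abs_left.1 hd

lemma ae_deriv_eq_of_eq {f w : ℝ → ℝ} {a b : ℝ} (hab : a ≤ b) (hf : AC f a b) (hw : AC w a b) :
    ∀ᵐ τ ∂(volume.restrict (Icc a b)), f τ = w τ → deriv f τ = deriv w τ := by
  filter_upwards [ae_deriv_zero_of_zero hab (hf.sub hw), ae_diff hab hw] with τ h1 h2 h3
  have h4 := (h1 (by simp [h3])).add h2.hasDerivAt
  have h5 : ((f - w) + w) = f := by ext; simp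
  rw [h5, zero_add] at h4
  exact h4.deriv

lemma ctrl_of_ac {f : ℝ → ℝ} {h : ℝ → ℝ≥0∞} {a b : ℝ} (hf : AC f a b)
    (hd : ∀ᵐ τ ∂(volume.restrict (Icc a b)), ‖deriv f τ‖ₑ ≤ h τ) {s t : ℝ}
    (has : a ≤ s) (hst : s ≤ t) (htb : t ≤ b) :
    ‖f t - f s‖ₑ ≤ ∫⁻ τ in Icc s t, h τ := by
  have hsub : Icc s t ⊆ Icc a b := Icc_subset_Icc has htb
  have hf' : AC f s t := hf.mono (by
    rw [uIcc_of_le hst, uIcc_of_le (has.trans (hst.trans htb))]; exact hsub)
  rw [← hf'.integral_deriv_eq_sub, intervalIntegral.integral_of_le hst,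
    ← integral_Icc_eq_integral_Ioc]
  refine (enorm_integral_le_lintegral_enorm _).trans ?_
  exact lintegral_mono_ae (ae_restrict_of_ae_restrict_of_subset hsub hd)

lemma lintegral_deriv_ne_top {f : ℝ → ℝ} {a b : ℝ} (hab : a ≤ b) (hf : AC f a b) :
    ∫⁻ τ in Icc a b, ‖deriv f τ‖ₑ ≠ ⊤ := by
  have := hf.intervalIntegrable_deriv
  rw [intervalIntegrable_iff_integrableOn_Icc_of_le hab] at this
  exact this.2.ne

lemma ac_of_ctrl {f : ℝ → ℝ} {h : ℝ → ℝ≥0∞} {a b : ℝ} (hab : a ≤ b)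
    (hm : AEMeasurable h (volume.restrict (Icc a b))) (hfin : ∫⁻ t in Icc a b, h t ≠ ⊤)
    (hc : ∀ s t, a ≤ s → s ≤ t → t ≤ b → ‖f t - f s‖ₑ ≤ ∫⁻ τ in Icc s t, h τ) :
    AC f a b ∧ ∀ᵐ τ ∂(volume.restrict (Icc a b)), ‖deriv f τ‖ₑ ≤ h τ := by
  set H : ℝ → ℝ := fun τ => (h τ).toReal with hH
  have hint : IntegrableOn H (Icc a b) volume := integrable_toReal_of_lintegral_ne_top hm hfin
  have hii : IntervalIntegrable H volume a b :=
    (intervalIntegrable_iff_integrableOn_Icc_of_le hab).2 hint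
  set F : ℝ → ℝ := fun x => ∫ v in a..x, H v with hF
  have hFac : AC F a b := hii.absolutelyContinuousOnInterval_intervalIntegral (by simp)
  have key : ∀ s t, a ≤ s → s ≤ t → t ≤ b → |f t - f s| ≤ |F t - F s| := by
    intro s t has hst htb
    have hsub : Icc s t ⊆ Icc a b := Icc_subset_Icc has htb
    have h1 : F t - F s = ∫ v in s..t, H v := by
      simp only [hF]
      apply intervalIntegral.integral_interval_sub_left
      · exact hii.mono_set (by
          rw [uIcc_of_le hab, uIcc_of_le (has.trans hst)]; exact Icc_subset_Icc le_rfl htb)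
      · exact hii.mono_set (by
          rw [uIcc_of_le hab, uIcc_of_le has]; exact Icc_subset_Icc le_rfl (hst.trans htb))
    have hfin' : ∫⁻ τ in Icc s t, h τ ≠ ⊤ :=
      ne_top_of_le_ne_top hfin (lintegral_mono_set hsub)
    have h2 : ∫ v in s..t, H v = (∫⁻ τ in Icc s t, h τ).toReal := by
      rw [intervalIntegral.integral_of_le hst, ← integral_Icc_eq_integral_Ioc]
      exact integral_toReal (hm.mono_measure (Measure.restrict_mono hsub le_rfl))
        (ae_lt_top' (hm.mono_measure (Measure.restrict_mono hsub le_rfl)) hfin')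
    have h3 := ENNReal.toReal_mono hfin' (hc s t has hst htb)
    rw [toReal_enorm, Real.norm_eq_abs] at h3
    rw [h1, h2]
    exact h3.trans (le_abs_self _)
  have key' : ∀ s ∈ Icc a b, ∀ t ∈ Icc a b, |f t - f s| ≤ |F t - F s| := by
    intro s hs t ht
    rcases le_total s t with hst | hts
    · exact key s t hs.1 hst ht.2
    · rw [abs_sub_comm (f t), abs_sub_comm (F t)]
      exact key t s ht.1 hts hs.2
  have hfac : AC f a b := by
    refine ac_of_dist_le' 1 hFac fun s hs t ht => ?_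
    rw [uIcc_of_le hab] at hs ht
    simp only [Real.dist_eq, one_mul]
    exact key' t ht s hs
  refine ⟨hfac, ?_⟩
  have hIoo : ∀ᵐ τ ∂(volume.restrict (Icc a b)), τ ∈ Ioo a b := by
    rw [← Measure.restrict_congr_set Ioo_ae_eq_Icc]
    exact ae_restrict_mem measurableSet_Ioo
  have hFd : ∀ᵐ τ ∂(volume.restrict (Icc a b)), HasDerivAt F (H τ) τ := by
    rw [ae_restrict_iff' measurableSet_Icc]
    filter_upwards [hii.ae_hasDerivAt_integral] with τ hτ hmem
    exact hτ (by rwa [uIcc_of_le hab]) a (by simp)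
  filter_upwards [hIoo, hFd, ae_diff hab hfac] with τ hτ h1 h2
  have h3 := hasDerivAt_iff_tendsto_slope.1 h1
  have h4 := hasDerivAt_iff_tendsto_slope.1 h2.hasDerivAt
  have h5 : |deriv f τ| ≤ |H τ| := by
    refine le_of_tendsto_of_tendsto h4.abs h3.abs ?_
    have : ∀ᶠ s in 𝓝[≠] τ, s ∈ Icc a b :=
      mem_nhdsWithin_of_mem_nhds (Icc_mem_nhds hτ.1 hτ.2)
    filter_upwards [this] with s hs
    simp only [slope_def_field, abs_div]
    exact div_le_div_of_nonneg_right (key' τ (Ioo_subset_Icc_self hτ) s hs) (abs_nonneg _)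
  calc ‖deriv f τ‖ₑ = ENNReal.ofReal |deriv f τ| := by
        rw [← ofReal_norm, Real.norm_eq_abs]
    _ ≤ ENNReal.ofReal (H τ) := by
        refine ENNReal.ofReal_le_ofReal (h5.trans ?_)
        rw [abs_of_nonneg ENNReal.toReal_nonneg]
    _ ≤ h τ := ENNReal.ofReal_toReal_le

end Pool.Agent.MP_024e69_an

end

-- part MP_024e69_an.AECurve
section

/-! The filter of properties that hold for `p`-almost every curve. -/

open MeasureTheory Metric Set Filter Topology
open scoped ENNReal NNReal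

namespace Pool.Agent.MP_024e69_an

universe u
variable {X : Type u} [MetricSpace X]

/-- Lebesgue measure on the parameter interval. -/
noncomputable abbrev Curve.vol (γ : Curve X) : Measure ℝ := volume.restrict (Icc γ.a γ.b)

lemma Curve.dist_le (γ : Curve X) {s t : ℝ} (hs : s ∈ Icc γ.a γ.b) (ht : t ∈ Icc γ.a γ.b) :
    dist (γ.toFun s) (γ.toFun t) ≤ dist s t := by
  wlog hst : s ≤ t generalizing s t
  · rw [dist_comm, dist_comm s t]; exact this ht hs (le_of_not_ge hst)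
  have h1 := γ.unitSpeed hs ht
  have h2 : edist (γ.toFun s) (γ.toFun t) ≤ eVariationOn γ.toFun (Icc γ.a γ.b ∩ Icc s t) :=
    eVariationOn.edist_le _ ⟨hs, le_rfl, hst⟩ ⟨ht, hst, le_rfl⟩
  rw [h1, edist_dist] at h2
  simp only [NNReal.coe_one, one_mul] at h2
  rw [Real.dist_eq, abs_sub_comm, abs_of_nonneg (sub_nonneg.2 hst)]
  exact (ENNReal.ofReal_le_ofReal_iff (sub_nonneg.2 hst)).1 h2

lemma Curve.lipschitzOn (γ : Curve X) : LipschitzOnWith 1 γ.toFun (Icc γ.a γ.b) :=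
  LipschitzOnWith.of_dist_le_mul fun s hs t ht => by simpa using γ.dist_le hs ht

lemma Curve.continuousOn (γ : Curve X) : ContinuousOn γ.toFun (Icc γ.a γ.b) :=
  γ.lipschitzOn.continuousOn

/-- A subcurve. -/
def Curve.sub (γ : Curve X) (s t : ℝ) (hs : γ.a ≤ s) (hst : s < t) (ht : t ≤ γ.b) : Curve X where
  a := s
  b := t
  lt := hst
  toFun := γ.toFun
  unitSpeed := by
    intro x hx y hy
    have hx' : x ∈ Icc γ.a γ.b := ⟨hs.trans hx.1, hx.2.trans ht⟩
    have hy' : y ∈ Icc γ.a γ.b := ⟨hs.trans hy.1, hy.2.trans ht⟩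
    rw [← γ.unitSpeed hx' hy']
    congr 1
    rw [inter_eq_right.2 (Icc_subset_Icc hx.1 hy.2), inter_eq_right.2 (Icc_subset_Icc hx'.1 hy'.2)]

lemma lineIntegral_mono (γ : Curve X) {f g : X → ℝ≥0∞} (h : ∀ x, f x ≤ g x) :
    lineIntegral γ f ≤ lineIntegral γ g :=
  lintegral_mono fun _ => h _

lemma lineIntegral_const_mul (γ : Curve X) {c : ℝ≥0∞} (hc : c ≠ ⊤) (f : X → ℝ≥0∞) :
    lineIntegral γ (fun x => c * f x) = c * lineIntegral γ f :=
  lintegral_const_mul' _ _ hc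

variable [MeasurableSpace X]

lemma Curve.aemeasurable [BorelSpace X] (γ : Curve X) : AEMeasurable γ.toFun γ.vol :=
  γ.continuousOn.aemeasurable measurableSet_Icc

variable {μ : Measure X} {p : ℝ}

omit [MetricSpace X] in
lemma exists_dom (hp : 0 < p) (f : ℕ → X → ℝ≥0∞) (hm : ∀ n, Measurable (f n))
    (hs : ∑' n, ∫⁻ x, f n x ^ p ∂μ ≠ ⊤) :
    ∃ R : X → ℝ≥0∞, Measurable R ∧ ∫⁻ x, R x ^ p ∂μ ≠ ⊤ ∧ ∀ n x, f n x ≤ R x := by
  refine ⟨fun x => (∑' n, f n x ^ p) ^ p⁻¹, ?_, ?_, ?_⟩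
  · exact (Measurable.tsum fun n => (hm n).pow_const _).pow_const _
  · simp only [ENNReal.rpow_inv_rpow hp.ne']
    rwa [lintegral_tsum fun n => ((hm n).pow_const _).aemeasurable]
  · intro n x
    calc f n x = (f n x ^ p) ^ p⁻¹ := (ENNReal.rpow_rpow_inv hp.ne' _).symm
      _ ≤ _ := ENNReal.rpow_le_rpow (ENNReal.le_tsum n) (inv_nonneg.2 hp.le)

lemma exists_rpow_mul_le (hp : 0 < p) {I ε : ℝ≥0∞} (hI : I ≠ ⊤) (hε : ε ≠ 0) :
    ∃ c : ℝ≥0∞, c ≠ 0 ∧ c ≠ ⊤ ∧ c ^ p * I ≤ ε := by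
  wlog hε' : ε ≠ ⊤ generalizing ε
  · obtain ⟨c, h1, h2, -⟩ := this one_ne_zero ENNReal.one_ne_top
    push Not at hε'
    exact ⟨c, h1, h2, hε' ▸ le_top⟩
  have h1 : I + 1 ≠ ⊤ := by simp [hI]
  have h2 : I + 1 ≠ 0 := by simp
  have h3 : ε / (I + 1) ≠ 0 := by simp [hε, hI]
  have h4 : ε / (I + 1) ≠ ⊤ := ENNReal.div_ne_top hε' h2
  refine ⟨(ε / (I + 1)) ^ p⁻¹, ?_, ?_, ?_⟩
  · exact (ENNReal.rpow_pos (pos_iff_ne_zero.2 h3) h4).ne'
  · exact ENNReal.rpow_ne_top_of_nonneg (inv_nonneg.2 hp.le) h4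
  · rw [ENNReal.rpow_inv_rpow hp.ne']
    calc ε / (I + 1) * I ≤ ε / (I + 1) * (I + 1) := by gcongr; exact le_self_add
      _ = ε := ENNReal.div_mul_cancel h2 h1

/-- The filter of sets of curves containing `p`-almost every curve. -/
def aeC (μ : Measure X) (p : ℝ) [hp : Fact (1 < p)] : Filter (Curve X) :=
  Filter.ofCountableInter
    {S | ∃ ρ : X → ℝ≥0∞, Measurable ρ ∧ ∫⁻ x, ρ x ^ p ∂μ ≠ ⊤ ∧
      ∀ γ, lineIntegral γ ρ ≠ ⊤ → γ ∈ S}
    (by
      have hp0 : 0 < p := zero_lt_one.trans hp.out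
      intro S hS hSl
      rcases S.eq_empty_or_nonempty with rfl | hne
      · exact ⟨fun _ => 0, measurable_const, by simp [ENNReal.zero_rpow_of_pos hp0], by simp⟩
      obtain ⟨f, rfl⟩ := hS.exists_eq_range hne
      choose ρ hm hfin hρ using fun n => hSl (mem_range_self n)
      choose c hc0 hct hc using fun n =>
        exists_rpow_mul_le hp0 (hfin n) (ε := (2⁻¹ : ℝ≥0∞) ^ n) (by simp)
      obtain ⟨R, hR1, hR2, hR3⟩ := exists_dom (μ := μ) hp0 (fun n x => c n * ρ n x)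
        (fun n => (hm n).const_mul _) (by
          refine ne_top_of_le_ne_top (b := ∑' n, (2⁻¹ : ℝ≥0∞) ^ n) (by simp) ?_
          refine ENNReal.tsum_le_tsum fun n => ?_
          simp only [ENNReal.mul_rpow_of_nonneg _ _ hp0.le]
          rw [lintegral_const_mul' _ _ (ENNReal.rpow_ne_top_of_nonneg hp0.le (hct n))]
          exact hc n)
      refine ⟨R, hR1, hR2, fun γ hγ => ?_⟩
      rw [sInter_range, mem_iInter]
      intro n
      refine hρ n γ fun htop => hγ ?_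
      have := lineIntegral_mono γ (hR3 n)
      rw [lineIntegral_const_mul γ (hct n), htop, ENNReal.mul_top (hc0 n)] at this
      exact top_le_iff.1 this)
    (by
      rintro s t ⟨ρ, h1, h2, h3⟩ hst
      exact ⟨ρ, h1, h2, fun γ hγ => hst (h3 γ hγ)⟩)

variable [hp : Fact (1 < p)]

instance : CountableInterFilter (aeC μ p) := by
  unfold aeC; infer_instance

lemma eventually_aeC {P : Curve X → Prop} :
    (∀ᶠ γ in aeC μ p, P γ) ↔ ∃ ρ : X → ℝ≥0∞, Measurable ρ ∧ ∫⁻ x, ρ x ^ p ∂μ ≠ ⊤ ∧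
      ∀ γ, lineIntegral γ ρ ≠ ⊤ → P γ := Iff.rfl

lemma aeC_sub {P : Curve X → Prop} (h : ∀ᶠ γ in aeC μ p, P γ) :
    ∀ᶠ γ in aeC μ p, ∀ s t hs hst ht, P (γ.sub s t hs hst ht) := by
  obtain ⟨ρ, h1, h2, h3⟩ := eventually_aeC.1 h
  refine eventually_aeC.2 ⟨ρ, h1, h2, fun γ hγ s t hs hst ht => h3 _ ?_⟩
  exact ne_top_of_le_ne_top hγ (lintegral_mono_set (Icc_subset_Icc hs ht))

lemma aeC_of_modulus {P : Curve X → Prop} (h : modulus μ p {γ | ¬ P γ} = 0) :
    ∀ᶠ γ in aeC μ p, P γ := by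
  have hp0 : 0 < p := zero_lt_one.trans hp.out
  have : ∀ n : ℕ, ∃ ρ : X → ℝ≥0∞, Measurable ρ ∧ (∀ γ, ¬ P γ → 1 ≤ lineIntegral γ ρ) ∧
      ∫⁻ x, ρ x ^ p ∂μ < (2⁻¹ : ℝ≥0∞) ^ n / (n + 1) ^ p := by
    intro n
    have hlt : modulus μ p {γ | ¬ P γ} < (2⁻¹ : ℝ≥0∞) ^ n / (n + 1) ^ p := by
      rw [h]
      refine ENNReal.div_pos (by simp) ?_
      exact ENNReal.rpow_ne_top_of_nonneg hp0.le (by simp)
    unfold modulus at hlt
    simp only [iInf_lt_iff] at hlt
    obtain ⟨ρ, h1, h2, h3⟩ := hlt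
    exact ⟨ρ, h1, h2, h3⟩
  choose ρ hm hadm hsmall using this
  obtain ⟨R, hR1, hR2, hR3⟩ := exists_dom (μ := μ) hp0 (fun n x => (n + 1) * ρ n x)
    (fun n => (hm n).const_mul _) (by
      refine ne_top_of_le_ne_top (b := ∑' n, (2⁻¹ : ℝ≥0∞) ^ n) (by simp) ?_
      refine ENNReal.tsum_le_tsum fun n => ?_
      simp only [ENNReal.mul_rpow_of_nonneg _ _ hp0.le]
      have ht : ((n : ℝ≥0∞) + 1) ^ p ≠ ⊤ := ENNReal.rpow_ne_top_of_nonneg hp0.le (by simp)
      rw [lintegral_const_mul' _ _ ht]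
      calc ((n : ℝ≥0∞) + 1) ^ p * ∫⁻ x, ρ n x ^ p ∂μ
          ≤ ((n : ℝ≥0∞) + 1) ^ p * ((2⁻¹ : ℝ≥0∞) ^ n / (n + 1) ^ p) := by
            gcongr; exact (hsmall n).le
        _ ≤ _ := ENNReal.mul_div_le)
  refine eventually_aeC.2 ⟨R, hR1, hR2, fun γ hγ => ?_⟩
  by_contra hP
  apply hγ
  have : ∀ n : ℕ, (n : ℝ≥0∞) ≤ lineIntegral γ R := by
    intro n
    have h1 := lineIntegral_mono γ (hR3 n)
    rw [lineIntegral_const_mul γ (by simp)] at h1
    calc (n : ℝ≥0∞) ≤ (n + 1) * 1 := by simp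
      _ ≤ (n + 1) * lineIntegral γ (ρ n) := by gcongr; exact hadm n γ hP
      _ ≤ _ := h1
  by_contra hne
  obtain ⟨n, hn⟩ := ENNReal.exists_nat_gt hne
  exact absurd (this n) (not_le.2 hn)

lemma modulus_of_aeC {P : Curve X → Prop} (h : ∀ᶠ γ in aeC μ p, P γ) :
    modulus μ p {γ | ¬ P γ} = 0 := by
  have hp0 : 0 < p := zero_lt_one.trans hp.out
  obtain ⟨ρ, h1, h2, h3⟩ := eventually_aeC.1 h
  refine le_antisymm (ENNReal.le_of_forall_pos_le_add fun ε hε _ => ?_) bot_le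
  obtain ⟨c, hc0, hct, hc⟩ := exists_rpow_mul_le hp0 h2 (ε := ε) (by simpa using hε.ne')
  unfold modulus
  refine iInf_le_of_le (fun x => c * ρ x) (iInf_le_of_le (h1.const_mul _) (iInf_le_of_le ?_ ?_))
  · intro γ hγ
    have : lineIntegral γ ρ = ⊤ := by
      by_contra hne
      exact hγ (h3 γ hne)
    rw [lineIntegral_const_mul γ hct, this, ENNReal.mul_top hc0]
    exact le_top
  · simp only [ENNReal.mul_rpow_of_nonneg _ _ hp0.le, zero_add]
    rw [lintegral_const_mul' _ _ (ENNReal.rpow_ne_top_of_nonneg hp0.le hct)]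
    exact hc

variable [BorelSpace X]

lemma aeC_of_ae {P : X → Prop} (h : ∀ᵐ x ∂μ, P x) :
    ∀ᶠ γ in aeC μ p, ∀ᵐ τ ∂γ.vol, P (γ.toFun τ) := by
  have hp0 : 0 < p := zero_lt_one.trans hp.out
  set N := toMeasurable μ {x | ¬ P x} with hN
  have hNm : MeasurableSet N := measurableSet_toMeasurable _ _
  have hN0 : μ N = 0 := by rw [hN, measure_toMeasurable]; exact h
  have hm : Measurable (N.indicator fun _ => (⊤ : ℝ≥0∞)) := measurable_const.indicator hNm
  refine eventually_aeC.2 ⟨N.indicator fun _ => ⊤, hm, ?_, fun γ hγ => ?_⟩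
  · have : ∀ᵐ x ∂μ, (N.indicator (fun _ => (⊤ : ℝ≥0∞)) x) ^ p = 0 := by
      filter_upwards [measure_eq_zero_iff_ae_notMem.1 hN0] with x hx
      simp [hx, hp0]
    rw [lintegral_congr_ae this]
    simp
  · have := ae_lt_top' (hm.comp_aemeasurable γ.aemeasurable) hγ
    filter_upwards [this] with τ hτ
    by_contra hP
    have hmem : γ.toFun τ ∈ N := subset_toMeasurable _ _ hP
    simp [hmem] at hτ

lemma aeC_aemeasurable {g : X → ℝ≥0∞} (hg : AEMeasurable g μ) :
    ∀ᶠ γ in aeC μ p, AEMeasurable (fun τ => g (γ.toFun τ)) γ.vol := by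
  filter_upwards [aeC_of_ae (p := p) hg.ae_eq_mk] with γ hγ
  exact (hg.measurable_mk.comp_aemeasurable γ.aemeasurable).congr
    (hγ.mono fun τ hτ => hτ.symm)

lemma aeC_fin {g : X → ℝ≥0∞} (hg : AEMeasurable g μ) (hfin : ∫⁻ x, g x ^ p ∂μ ≠ ⊤) :
    ∀ᶠ γ in aeC μ p, lineIntegral γ g ≠ ⊤ := by
  have h1 : ∀ᶠ γ in aeC μ p, lineIntegral γ (hg.mk g) ≠ ⊤ := by
    refine eventually_aeC.2 ⟨hg.mk g, hg.measurable_mk, ?_, fun γ hγ => hγ⟩
    have : ∫⁻ x, g x ^ p ∂μ = ∫⁻ x, hg.mk g x ^ p ∂μ :=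
      lintegral_congr_ae (hg.ae_eq_mk.mono fun x hx => by simp only [← hx])
    rwa [← this]
  filter_upwards [h1, aeC_of_ae (p := p) hg.ae_eq_mk] with γ hγ h2
  unfold lineIntegral at *
  rwa [lintegral_congr_ae h2]

end Pool.Agent.MP_024e69_an

end

-- part MP_024e69_an.DG
section

/-! Weak upper gradients in derivative form, and their calculus. -/

open MeasureTheory Metric Set Filter Topology
open scoped ENNReal NNReal

namespace Pool.Agent.MP_024e69_an

universe u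
variable {X : Type u} [MetricSpace X] [MeasurableSpace X]

/-- `u` is absolutely continuous along almost every curve. -/
def ACae (μ : Measure X) (p : ℝ) [Fact (1 < p)] (u : X → ℝ) : Prop :=
  ∀ᶠ γ in aeC μ p, AC (fun t => u (γ.toFun t)) γ.a γ.b

/-- `g` is a weak upper gradient of `u`, in derivative form. -/
structure DG (μ : Measure X) (p : ℝ) [Fact (1 < p)] (u : X → ℝ) (g : X → ℝ≥0∞) : Prop where
  mu : AEMeasurable u μ
  mg : AEMeasurable g μ
  ac : ACae μ p u
  le : ∀ᶠ γ in aeC μ p, ∀ᵐ τ ∂γ.vol, ‖deriv (fun t => u (γ.toFun t)) τ‖ₑ ≤ g (γ.toFun τ)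

variable {μ : Measure X} {p : ℝ} [hp : Fact (1 < p)] {u v w : X → ℝ} {g h G : X → ℝ≥0∞}

lemma ACae.const (c : ℝ) : ACae μ p (fun _ => c) :=
  Eventually.of_forall fun _ => ac_const _ _ _

lemma ACae.max (hu : ACae μ p u) (hv : ACae μ p v) : ACae μ p (fun x => max (u x) (v x)) := by
  filter_upwards [hu, hv] with γ h1 h2 using ac_max h1 h2

lemma ACae.min (hu : ACae μ p u) (hv : ACae μ p v) : ACae μ p (fun x => min (u x) (v x)) := by
  filter_upwards [hu, hv] with γ h1 h2 using ac_min h1 h2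

lemma ACae.mul (hu : ACae μ p u) (hv : ACae μ p v) : ACae μ p (fun x => u x * v x) := by
  filter_upwards [hu, hv] with γ h1 h2 using h1.mul h2

lemma ACae.sub (hu : ACae μ p u) (hv : ACae μ p v) : ACae μ p (fun x => u x - v x) := by
  filter_upwards [hu, hv] with γ h1 h2 using h1.sub h2

lemma ACae.add (hu : ACae μ p u) (hv : ACae μ p v) : ACae μ p (fun x => u x + v x) := by
  filter_upwards [hu, hv] with γ h1 h2 using h1.add h2

lemma ACae.comp {Φ : ℝ → ℝ} {K : ℝ≥0} (hΦ : LipschitzWith K Φ) (hu : ACae μ p u) :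
    ACae μ p (fun x => Φ (u x)) := by
  filter_upwards [hu] with γ h1 using ac_comp_lipschitz hΦ h1

lemma ACae.diff (hu : ACae μ p u) :
    ∀ᶠ γ in aeC μ p, ∀ᵐ τ ∂γ.vol, DifferentiableAt ℝ (fun t => u (γ.toFun t)) τ := by
  filter_upwards [hu] with γ h1 using ae_diff γ.lt.le h1

/-- Locality: where `w` agrees with `u`, the gradient of `u` bounds the derivative of `w`. -/
lemma DG.loc (hu : DG μ p u g) (hw : ACae μ p w) :
    ∀ᶠ γ in aeC μ p, ∀ᵐ τ ∂γ.vol, w (γ.toFun τ) = u (γ.toFun τ) →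
      ‖deriv (fun t => w (γ.toFun t)) τ‖ₑ ≤ g (γ.toFun τ) := by
  filter_upwards [hu.ac, hu.le, hw] with γ h1 h2 h3
  filter_upwards [h2, ae_deriv_eq_of_eq γ.lt.le h3 h1] with τ h4 h5 h6
  rw [h5 h6]; exact h4

lemma DG.const (c : ℝ) : DG μ p (fun _ => c) (fun _ => 0) :=
  ⟨aemeasurable_const, aemeasurable_const, ACae.const c,
    Eventually.of_forall fun _ => Eventually.of_forall fun _ => by simp⟩

lemma DG.glue₃ {u₁ u₂ u₃ : X → ℝ} {g₁ g₂ g₃ : X → ℝ≥0∞} (h₁ : DG μ p u₁ g₁) (h₂ : DG μ p u₂ g₂)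
    (h₃ : DG μ p u₃ g₃) (hwm : AEMeasurable w μ) (hw : ACae μ p w) (hG : AEMeasurable G μ)
    (H : ∀ x, G x = ⊤ ∨ (w x = u₁ x ∧ g₁ x ≤ G x) ∨ (w x = u₂ x ∧ g₂ x ≤ G x) ∨
      (w x = u₃ x ∧ g₃ x ≤ G x)) : DG μ p w G := by
  refine ⟨hwm, hG, hw, ?_⟩
  filter_upwards [h₁.loc hw, h₂.loc hw, h₃.loc hw] with γ k₁ k₂ k₃
  filter_upwards [k₁, k₂, k₃] with τ l₁ l₂ l₃
  rcases H (γ.toFun τ) with h | h | h | h
  · rw [h]; exact le_top
  · exact (l₁ h.1).trans h.2
  · exact (l₂ h.1).trans h.2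
  · exact (l₃ h.1).trans h.2

lemma DG.glue₂ {u₁ u₂ : X → ℝ} {g₁ g₂ : X → ℝ≥0∞} (h₁ : DG μ p u₁ g₁) (h₂ : DG μ p u₂ g₂)
    (hwm : AEMeasurable w μ) (hw : ACae μ p w) (hG : AEMeasurable G μ)
    (H : ∀ x, G x = ⊤ ∨ (w x = u₁ x ∧ g₁ x ≤ G x) ∨ (w x = u₂ x ∧ g₂ x ≤ G x)) : DG μ p w G :=
  h₁.glue₃ h₂ h₂ hwm hw hG fun x => by
    rcases H x with h | h | h
    exacts [Or.inl h, Or.inr (Or.inl h), Or.inr (Or.inr (Or.inl h))]

lemma DG.glue₁ (hu : DG μ p u g) (hwm : AEMeasurable w μ) (hw : ACae μ p w)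
    (hG : AEMeasurable G μ) (H : ∀ x, G x = ⊤ ∨ (w x = u x ∧ g x ≤ G x)) : DG μ p w G :=
  hu.glue₂ hu hwm hw hG fun x => by
    rcases H x with h | h
    exacts [Or.inl h, Or.inr (Or.inl h)]

lemma DG.mono (hu : DG μ p u g) (hG : AEMeasurable G μ) (H : ∀ x, g x ≤ G x) : DG μ p u G :=
  hu.glue₁ hu.mu hu.ac hG fun x => Or.inr ⟨rfl, H x⟩

lemma DG.add (hu : DG μ p u g) (hv : DG μ p v h) :
    DG μ p (fun x => u x + v x) (fun x => g x + h x) := by
  refine ⟨hu.mu.add hv.mu, hu.mg.add hv.mg, hu.ac.add hv.ac, ?_⟩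
  filter_upwards [hu.le, hv.le, hu.ac.diff, hv.ac.diff] with γ h1 h2 h3 h4
  filter_upwards [h1, h2, h3, h4] with τ k1 k2 k3 k4
  rw [deriv_fun_add k3 k4]
  exact (enorm_add_le _ _).trans (add_le_add k1 k2)

lemma DG.mul (hu : DG μ p u g) (hv : DG μ p v h) :
    DG μ p (fun x => u x * v x) (fun x => ‖v x‖ₑ * g x + ‖u x‖ₑ * h x) := by
  refine ⟨hu.mu.mul hv.mu, (hv.mu.enorm.mul hu.mg).add (hu.mu.enorm.mul hv.mg),
    hu.ac.mul hv.ac, ?_⟩
  filter_upwards [hu.le, hv.le, hu.ac.diff, hv.ac.diff] with γ h1 h2 h3 h4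
  filter_upwards [h1, h2, h3, h4] with τ k1 k2 k3 k4
  rw [deriv_fun_mul k3 k4]
  refine (enorm_add_le _ _).trans (add_le_add ?_ ?_)
  · rw [enorm_mul, mul_comm]; gcongr
  · rw [enorm_mul]; gcongr

lemma DG.affine (hu : DG μ p u g) (c d : ℝ) :
    DG μ p (fun x => c * u x + d) (fun x => ‖c‖ₑ * g x) := by
  have := ((DG.const (μ := μ) (p := p) c).mul hu).add (DG.const d)
  simpa using this

lemma DG.const_sub (hu : DG μ p u g) (c : ℝ) : DG μ p (fun x => c - u x) g := by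
  have := hu.affine (-1) c
  simp only [neg_mul, one_mul, enorm_neg, enorm_one] at this
  convert this using 2
  ring

lemma DG.max_le (hu : DG μ p u g) (hv : DG μ p v h) (hG : AEMeasurable G μ)
    (H1 : ∀ x, v x ≤ u x → g x ≤ G x) (H2 : ∀ x, u x < v x → h x ≤ G x) :
    DG μ p (fun x => max (u x) (v x)) G :=
  hu.glue₂ hv (hu.mu.max hv.mu) (hu.ac.max hv.ac) hG fun x => by
    rcases le_or_gt (v x) (u x) with h | h
    · exact Or.inr (Or.inl ⟨max_eq_left h, H1 x h⟩)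
    · exact Or.inr (Or.inr ⟨max_eq_right h.le, H2 x h⟩)

lemma DG.min_le (hu : DG μ p u g) (hv : DG μ p v h) (hG : AEMeasurable G μ)
    (H1 : ∀ x, u x < v x → g x ≤ G x) (H2 : ∀ x, v x ≤ u x → h x ≤ G x) :
    DG μ p (fun x => min (u x) (v x)) G :=
  hu.glue₂ hv (hu.mu.min hv.mu) (hu.ac.min hv.ac) hG fun x => by
    rcases le_or_gt (v x) (u x) with h | h
    · exact Or.inr (Or.inr ⟨min_eq_right h, H2 x h⟩)
    · exact Or.inr (Or.inl ⟨min_eq_left h.le, H1 x h⟩)

/-- Truncation at the levels `a ≤ b`. -/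
def clamp (a b t : ℝ) : ℝ := min (max t a) b

lemma clamp_of_le {a b t : ℝ} (hab : a ≤ b) (h : t ≤ a) : clamp a b t = a := by
  simp [clamp, max_eq_right h, hab]

lemma clamp_of_ge {a b t : ℝ} (h : b ≤ t) : clamp a b t = b := by
  simp [clamp, h]

lemma clamp_of_mem {a b t : ℝ} (h1 : a ≤ t) (h2 : t ≤ b) : clamp a b t = t := by
  simp [clamp, h1, h2]

lemma le_clamp {a b : ℝ} (hab : a ≤ b) (t : ℝ) : a ≤ clamp a b t := by
  simp [clamp, hab]

lemma clamp_le (a b t : ℝ) : clamp a b t ≤ b := by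
  simp [clamp]

omit [MetricSpace X] in
lemma nullMeasurableSet_band (hu : AEMeasurable u μ) (a b : ℝ) :
    NullMeasurableSet {x | a < u x ∧ u x < b} μ :=
  hu.nullMeasurableSet_preimage (measurableSet_Ioo (a := a) (b := b))

omit [MetricSpace X] in
lemma nullMeasurableSet_gt (hu : AEMeasurable u μ) (a : ℝ) :
    NullMeasurableSet {x | a < u x} μ :=
  hu.nullMeasurableSet_preimage (measurableSet_Ioi (a := a))

omit [MetricSpace X] in
lemma nullMeasurableSet_le' (hu : AEMeasurable u μ) (a : ℝ) :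
    NullMeasurableSet {x | u x ≤ a} μ :=
  hu.nullMeasurableSet_preimage (measurableSet_Iic (a := a))

lemma DG.clamp (hu : DG μ p u g) {a b : ℝ} (hab : a ≤ b) :
    DG μ p (fun x => clamp a b (u x)) ({x | a < u x ∧ u x < b}.indicator g) := by
  refine hu.glue₃ (DG.const a) (DG.const b)
    ((hu.mu.max aemeasurable_const).min aemeasurable_const)
    ((hu.ac.max (ACae.const a)).min (ACae.const b))
    (hu.mg.indicator₀ (nullMeasurableSet_band hu.mu a b)) fun x => Or.inr ?_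
  rcases le_or_gt (u x) a with h | h
  · exact Or.inr (Or.inl ⟨clamp_of_le hab h, zero_le⟩)
  rcases le_or_gt b (u x) with h' | h'
  · exact Or.inr (Or.inr ⟨clamp_of_ge h', zero_le⟩)
  · exact Or.inl ⟨clamp_of_mem h.le h'.le, by simp [h, h']⟩

variable [BorelSpace X]

lemma DG.mono_ae (hu : DG μ p u g) (hG : AEMeasurable G μ) (H : ∀ᵐ x ∂μ, g x ≤ G x) :
    DG μ p u G := by
  refine ⟨hu.mu, hG, hu.ac, ?_⟩
  filter_upwards [hu.le, aeC_of_ae (p := p) H] with γ h1 h2
  filter_upwards [h1, h2] with τ k1 k2 using k1.trans k2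

lemma DG.lipschitz {K : ℝ≥0} (hu : LipschitzWith K u) : DG μ p u (fun _ => K) := by
  have hl : ∀ γ : Curve X, LipschitzOnWith K (fun t => u (γ.toFun t)) (Icc γ.a γ.b) := by
    intro γ
    have := hu.comp_lipschitzOnWith γ.lipschitzOn
    rw [mul_one] at this
    exact this
  refine ⟨hu.continuous.aemeasurable, aemeasurable_const,
    Eventually.of_forall fun γ => ?_, Eventually.of_forall fun γ => ?_⟩
  · exact LipschitzOnWith.absolutelyContinuousOnInterval
      (by rw [uIcc_of_le γ.lt.le]; exact hl γ)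
  · have hIoo : ∀ᵐ τ ∂γ.vol, τ ∈ Ioo γ.a γ.b := by
      unfold Curve.vol
      rw [← Measure.restrict_congr_set Ioo_ae_eq_Icc]
      exact ae_restrict_mem measurableSet_Ioo
    filter_upwards [hIoo] with τ hτ
    have := norm_deriv_le_of_lipschitzOn (Icc_mem_nhds hτ.1 hτ.2) (hl γ)
    rw [← ofReal_norm, ← ENNReal.ofReal_coe_nnreal]
    exact ENNReal.ofReal_le_ofReal this

/-- A cut-off function: `1` on `T`, `0` outside the `s`-neighbourhood of `T`. -/
noncomputable def cut (T : Set X) (s : ℝ) (y : X) : ℝ := max (1 - infDist y T / s) 0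

omit [MeasurableSpace X] [BorelSpace X] in
lemma cut_nonneg (T : Set X) (s : ℝ) (y : X) : 0 ≤ cut T s y := le_max_right _ _

omit [MeasurableSpace X] [BorelSpace X] in
lemma cut_le_one (T : Set X) {s : ℝ} (hs : 0 < s) (y : X) : cut T s y ≤ 1 :=
  max_le (sub_le_self _ (div_nonneg infDist_nonneg hs.le)) zero_le_one

omit [MeasurableSpace X] [BorelSpace X] in
lemma cut_of_mem {T : Set X} (s : ℝ) {y : X} (hy : y ∈ T) : cut T s y = 1 := by
  simp [cut, infDist_zero_of_mem hy]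

omit [MeasurableSpace X] [BorelSpace X] in
lemma cut_of_notMem {T : Set X} (hT : T.Nonempty) {s : ℝ} (hs : 0 < s) {y : X}
    (hy : y ∉ thickening s T) : cut T s y = 0 := by
  rw [mem_thickening_iff_infDist_lt hT, not_lt] at hy
  apply max_eq_right
  rw [sub_nonpos, one_le_div hs]
  exact hy

omit [MeasurableSpace X] [BorelSpace X] in
lemma cut_lipschitz (T : Set X) {s : ℝ} (hs : 0 < s) :
    LipschitzWith (Real.toNNReal s⁻¹) (cut T s) := by
  refine LipschitzWith.max_const ?_ _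
  refine LipschitzWith.of_dist_le_mul fun x y => ?_
  have h1 := (lipschitz_infDist_pt T).dist_le_mul x y
  rw [Real.coe_toNNReal _ (inv_nonneg.2 hs.le)]
  simp only [NNReal.coe_one, one_mul, Real.dist_eq] at h1 ⊢
  have : 1 - infDist x T / s - (1 - infDist y T / s) = -(s⁻¹ * (infDist x T - infDist y T)) := by
    ring
  rw [this, abs_neg, abs_mul, abs_of_pos (inv_pos.2 hs)]
  gcongr

lemma DG.cut (T : Set X) {s : ℝ} (hs : 0 < s) :
    DG μ p (cut T s) (fun _ => ENNReal.ofReal s⁻¹) :=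
  DG.lipschitz (cut_lipschitz T hs)

omit [MeasurableSpace X] [BorelSpace X] in
lemma thickening_subset_ball {T : Set X} {x : X} {r s : ℝ} (hT : T ⊆ ball x r) :
    thickening s T ⊆ ball x (r + s) := by
  intro y hy
  obtain ⟨z, hz, hyz⟩ := mem_thickening_iff.1 hy
  have := mem_ball.1 (hT hz)
  rw [mem_ball]
  linarith [dist_triangle y z x]

omit [MeasurableSpace X] [BorelSpace X] in
lemma ball_subset_thickening' {T : Set X} {y : X} {r s : ℝ} (hy : y ∈ thickening s T) :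
    ball y r ⊆ thickening (s + r) T := by
  intro z hz
  obtain ⟨w, hw, hyw⟩ := mem_thickening_iff.1 hy
  refine mem_thickening_iff.2 ⟨w, hw, ?_⟩
  have := mem_ball.1 hz
  linarith [dist_triangle z y w]

/-- `A` is path open: its preimage under almost every curve is relatively open. -/
def PathOpen (μ : Measure X) (p : ℝ) [Fact (1 < p)] (A : Set X) : Prop :=
  ∀ᶠ γ in aeC μ p, ∀ t ∈ Icc γ.a γ.b, γ.toFun t ∈ A →
    ∀ᶠ s in 𝓝[Icc γ.a γ.b] t, γ.toFun s ∈ A

omit [BorelSpace X] in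
lemma DG.indicator {A B : Set X} (hv : DG μ p v g) (hA : PathOpen μ p A) (hB : PathOpen μ p B)
    (hAB : Disjoint A B) (hAm : NullMeasurableSet A μ) (h1 : ∀ x, x ∉ A → x ∉ B → v x = 1) :
    DG μ p (A.indicator fun x => 1 - v x) g := by
  classical
  have key : ∀ᶠ γ in aeC μ p, AC (fun t => A.indicator (fun x => 1 - v x) (γ.toFun t)) γ.a γ.b ∧
      ∀ᵐ τ ∂γ.vol, ‖deriv (fun t => A.indicator (fun x => 1 - v x) (γ.toFun t)) τ‖ₑ ≤
        ‖deriv (fun t => v (γ.toFun t)) τ‖ₑ := by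
    filter_upwards [hv.ac, hA, hB] with γ hac hA hB
    have ctrl := fun {s t : ℝ} => ctrl_of_ac (h := fun τ => ‖deriv (fun t => v (γ.toFun t)) τ‖ₑ)
      hac (Eventually.of_forall fun _ => le_rfl) (s := s) (t := t)
    have cross : ∀ s t, γ.a ≤ s → s ≤ t → t ≤ γ.b →
        ¬ (γ.toFun s ∈ A ↔ γ.toFun t ∈ A) → ∃ c ∈ Icc s t, v (γ.toFun c) = 1 := by
      intro s t has hst htb hne
      by_contra hcon
      push Not at hcon
      have hsub : Icc s t ⊆ Icc γ.a γ.b := Icc_subset_Icc has htb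
      have hcont : ContinuousOn (fun τ => decide (γ.toFun τ ∈ A)) (Icc s t) := by
        intro c hc
        by_cases hcA : γ.toFun c ∈ A
        · refine (continuousWithinAt_const (b := true)).congr_of_eventuallyEq ?_ (by simp [hcA])
          filter_upwards [nhdsWithin_mono _ hsub (hA c (hsub hc) hcA)] with τ hτ
          simpa using hτ
        · have hcB : γ.toFun c ∈ B := by
            by_contra hcB
            exact hcon c hc (h1 _ hcA hcB)
          refine (continuousWithinAt_const (b := false)).congr_of_eventuallyEq ?_ (by simp [hcA])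
          filter_upwards [nhdsWithin_mono _ hsub (hB c (hsub hc) hcB)] with τ hτ
          simpa using Set.disjoint_right.1 hAB hτ
      have := isPreconnected_Icc.constant hcont (left_mem_Icc.2 hst) (right_mem_Icc.2 hst)
      exact hne (by simpa using this)
    refine ac_of_ctrl γ.lt.le (measurable_deriv _).enorm.aemeasurable
      (lintegral_deriv_ne_top γ.lt.le hac) fun s t has hst htb => ?_
    by_cases hs : γ.toFun s ∈ A <;> by_cases ht : γ.toFun t ∈ A
    · simp only [indicator_of_mem hs, indicator_of_mem ht]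
      rw [show 1 - v (γ.toFun t) - (1 - v (γ.toFun s)) = -(v (γ.toFun t) - v (γ.toFun s)) by ring,
        enorm_neg]
      exact ctrl has hst htb
    · obtain ⟨c, hc, hc1⟩ := cross s t has hst htb (by simp [hs, ht])
      simp only [indicator_of_mem hs, indicator_of_notMem ht]
      rw [zero_sub, enorm_neg, ← hc1]
      exact (ctrl has hc.1 (hc.2.trans htb)).trans
        (lintegral_mono_set (Icc_subset_Icc le_rfl hc.2))
    · obtain ⟨c, hc, hc1⟩ := cross s t has hst htb (by simp [hs, ht])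
      simp only [indicator_of_notMem hs, indicator_of_mem ht]
      rw [sub_zero, ← hc1, ← enorm_neg, neg_sub]
      exact (ctrl (has.trans hc.1) hc.2 htb).trans
        (lintegral_mono_set (Icc_subset_Icc hc.1 le_rfl))
    · simp [hs, ht]
  refine ⟨(aemeasurable_const.sub hv.mu).indicator₀ hAm, hv.mg, key.mono fun γ h => h.1, ?_⟩
  filter_upwards [key, hv.le] with γ k1 k2
  filter_upwards [k1.2, k2] with τ l1 l2 using l1.trans l2

end Pool.Agent.MP_024e69_an

end

-- part MP_024e69_an.Bridge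
section

/-! Passing between the definitions of the statement and the derivative form. -/

open MeasureTheory Metric Set Filter Topology
open scoped ENNReal NNReal

namespace Pool.Agent.MP_024e69_an

universe u
variable {X : Type u} [MetricSpace X] [MeasurableSpace X] [BorelSpace X]
variable {μ : Measure X} {p : ℝ} [hp : Fact (1 < p)] {u v w : X → ℝ} {g h G : X → ℝ≥0∞}

lemma eAbsSub_coe (s t : ℝ) : eAbsSub s t = ‖t - s‖ₑ := by
  simp [eAbsSub, ← ofReal_norm, abs_sub_comm]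

/-- Truncation of an extended real to `[0, 1]`. -/
noncomputable def clampE (t : EReal) : ℝ := (min (max t 0) 1).toReal

lemma clampE_coe (t : ℝ) : clampE t = clamp 0 1 t := by
  unfold clampE clamp
  rw [← EReal.coe_zero, ← EReal.coe_one, ← EReal.coe_strictMono.monotone.map_max,
    ← EReal.coe_strictMono.monotone.map_min, EReal.toReal_coe]

lemma clampE_top : clampE ⊤ = 1 := by simp [clampE]

lemma clampE_bot : clampE ⊥ = 0 := by simp [clampE]

lemma clampE_nonneg (t : EReal) : 0 ≤ clampE t := by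
  induction t with
  | bot => simp [clampE_bot]
  | coe t => rw [clampE_coe]; exact le_clamp zero_le_one _
  | top => simp [clampE_top]

lemma clampE_le_one (t : EReal) : clampE t ≤ 1 := by
  induction t with
  | bot => simp [clampE_bot]
  | coe t => rw [clampE_coe]; exact clamp_le _ _ _
  | top => simp [clampE_top]

lemma clampE_of_one_le {t : EReal} (ht : 1 ≤ t) : clampE t = 1 := by
  induction t with
  | bot => exact absurd ht (not_le.2 (EReal.bot_lt_coe 1))
  | coe t => rw [clampE_coe]; exact clamp_of_ge (by exact_mod_cast ht)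
  | top => exact clampE_top

lemma clampE_zero : clampE 0 = 0 := by simp [clampE]

lemma abs_clamp_sub_le (a b s t : ℝ) : |clamp a b s - clamp a b t| ≤ |s - t| := by
  unfold clamp
  refine (abs_min_sub_min_le_max _ _ _ _).trans ?_
  simp only [sub_self, abs_zero, abs_nonneg, max_eq_left]
  refine (abs_max_sub_max_le_max _ _ _ _).trans ?_
  simp

lemma enorm_clampE_sub_le (s t : EReal) : ‖clampE t - clampE s‖ₑ ≤ eAbsSub s t := by
  induction s with
  | bot => simp [eAbsSub]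
  | top => simp [eAbsSub]
  | coe s =>
    induction t with
    | bot => simp [eAbsSub]
    | top => simp [eAbsSub]
    | coe t =>
      rw [eAbsSub_coe, clampE_coe, clampE_coe, ← ofReal_norm, ← ofReal_norm]
      exact ENNReal.ofReal_le_ofReal (abs_clamp_sub_le _ _ _ _)

lemma ofReal_clampE_le (t : EReal) : ENNReal.ofReal (clampE t) ≤ t.abs := by
  induction t with
  | bot => simp
  | top => simp
  | coe t =>
    rw [clampE_coe, EReal.abs_def]
    refine ENNReal.ofReal_le_ofReal ?_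
    exact (min_le_left _ _).trans (max_le (le_abs_self _) (abs_nonneg _))

lemma measurable_clampE : Measurable clampE :=
  ((measurable_id.max measurable_const).min measurable_const).ereal_toReal

lemma DG.of_weak {f : X → EReal} (hf : AEMeasurable f μ) (hg : IsWeakUpperGradient μ p f g)
    (hfin : ∫⁻ x, g x ^ p ∂μ ≠ ⊤) : DG μ p (fun x => clampE (f x)) g := by
  have h1 := aeC_sub (aeC_of_modulus (P := UpperGradientIneq f g) hg.2)
  have key : ∀ᶠ γ in aeC μ p, AC (fun t => clampE (f (γ.toFun t))) γ.a γ.b ∧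
      ∀ᵐ τ ∂γ.vol, ‖deriv (fun t => clampE (f (γ.toFun t))) τ‖ₑ ≤ g (γ.toFun τ) := by
    filter_upwards [h1, aeC_fin hg.1.aemeasurable hfin] with γ k1 k2
    refine ac_of_ctrl γ.lt.le (hg.1.comp_aemeasurable γ.aemeasurable) k2
      fun s t has hst htb => ?_
    rcases hst.eq_or_lt with rfl | hlt
    · simp
    · exact (enorm_clampE_sub_le _ _).trans (k1 s t has hlt htb)
  exact ⟨measurable_clampE.comp_aemeasurable hf, hg.1.aemeasurable, key.mono fun _ h => h.1,
    key.mono fun _ h => h.2⟩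

lemma DG.ineq (hu : DG μ p u g) :
    ∀ᶠ γ in aeC μ p, UpperGradientIneq (fun x => (u x : EReal)) (hu.mg.mk g) γ := by
  have h1 := hu.mono_ae hu.mg.measurable_mk.aemeasurable (hu.mg.ae_eq_mk.mono fun x hx => hx.le)
  filter_upwards [h1.ac, h1.le] with γ k1 k2
  unfold UpperGradientIneq
  rw [eAbsSub_coe]
  exact ctrl_of_ac k1 k2 le_rfl γ.lt.le le_rfl

lemma DG.weak (hu : DG μ p u g) :
    IsWeakUpperGradient μ p (fun x => (u x : EReal)) (hu.mg.mk g) :=
  ⟨hu.mg.measurable_mk, modulus_of_aeC hu.ineq⟩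

lemma DG.energy_le (hu : DG μ p u g) :
    energy μ p (fun x => (u x : EReal)) ≤ ∫⁻ x, g x ^ p ∂μ := by
  unfold energy
  refine iInf_le_of_le (hu.mg.mk g) (iInf_le_of_le hu.weak (le_of_eq ?_))
  exact lintegral_congr_ae (hu.mg.ae_eq_mk.mono fun x hx => by simp only [← hx])

/-- An admissible pair for the variational capacity. -/
structure Adm (μ : Measure X) (p : ℝ) [Fact (1 < p)] (A Ω : Set X) (u : X → ℝ)
    (g : X → ℝ≥0∞) : Prop where
  dg : DG μ p u g
  nonneg : ∀ x, 0 ≤ u x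
  le_one : ∀ x, u x ≤ 1
  one : ∀ x ∈ A, u x = 1
  zero : ∀ x ∉ Ω, u x = 0

lemma Adm.varCap_le {A Ω : Set X} (H : Adm μ p A Ω u g) (hΩ : μ Ω ≠ ⊤) :
    varCap μ p A Ω ≤ ∫⁻ x, g x ^ p ∂μ := by
  have hp0 : 0 < p := zero_lt_one.trans hp.out
  by_cases hfin : ∫⁻ x, g x ^ p ∂μ = ⊤
  · rw [hfin]; exact le_top
  have hN : MemNewton μ p (fun x => (u x : EReal)) := by
    refine ⟨measurable_coe_real_ereal.comp_aemeasurable H.dg.mu, ?_⟩
    unfold newtonNormPow
    refine ENNReal.add_lt_top.2 ⟨?_, H.dg.energy_le.trans_lt (lt_top_iff_ne_top.2 hfin)⟩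
    calc ∫⁻ x, (u x : EReal).abs ^ p ∂μ ≤ ∫⁻ x, Ω.indicator 1 x ∂μ := by
          refine lintegral_mono fun x => ?_
          by_cases hx : x ∈ Ω
          · simp only [hx, indicator_of_mem, Pi.one_apply, EReal.abs_def]
            refine ENNReal.rpow_le_one ?_ hp0.le
            rw [abs_of_nonneg (H.nonneg x)]
            exact ENNReal.ofReal_le_one.2 (H.le_one x)
          · simp [H.zero x hx, hp0]
      _ ≤ μ Ω := lintegral_indicator_one_le _
      _ < ⊤ := lt_top_iff_ne_top.2 hΩ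
  unfold varCap
  refine iInf_le_of_le _ (iInf_le_of_le hN (iInf_le_of_le ?_ (iInf_le_of_le ?_ H.dg.energy_le)))
  · intro x hx; simp [H.one x hx]
  · intro x hx; simp [H.zero x hx]

omit [BorelSpace X] in
lemma DG.adm {A Ω : Set X} (hu : DG μ p u g) (h1 : ∀ x ∈ A, 1 ≤ u x) (h0 : ∀ x ∉ Ω, u x ≤ 0) :
    Adm μ p A Ω (fun x => Pool.Agent.MP_024e69_an.clamp 0 1 (u x)) g :=
  ⟨(hu.clamp zero_le_one).mono hu.mg fun x => indicator_le_self _ _ x,
    fun _ => le_clamp zero_le_one _, fun _ => clamp_le _ _ _,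
    fun x hx => clamp_of_ge (h1 x hx), fun x hx => clamp_of_le zero_le_one (h0 x hx)⟩

lemma DG.varCap_le {A Ω : Set X} (hu : DG μ p u g) (h1 : ∀ x ∈ A, 1 ≤ u x)
    (h0 : ∀ x ∉ Ω, u x ≤ 0) (hΩ : μ Ω ≠ ⊤) : varCap μ p A Ω ≤ ∫⁻ x, g x ^ p ∂μ :=
  (hu.adm h1 h0).varCap_le hΩ

lemma exists_adm {A Ω : Set X} {c : ℝ≥0∞} (h : varCap μ p A Ω < c) :
    ∃ u g, Adm μ p A Ω u g ∧ ∫⁻ x, g x ^ p ∂μ < c := by
  unfold varCap energy at h
  simp only [iInf_lt_iff] at h
  obtain ⟨f, hf, h1, h0, g, hg, hlt⟩ := h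
  refine ⟨fun x => clampE (f x), g, ⟨DG.of_weak hf.1 hg (ne_top_of_lt hlt), fun _ => clampE_nonneg _,
    fun _ => clampE_le_one _, fun x hx => clampE_of_one_le (h1 x hx), fun x hx => ?_⟩, hlt⟩
  rw [h0 x hx, clampE_zero]

lemma exists_of_sobolevCap {E : Set X} {c : ℝ≥0∞} (h : sobolevCap μ p E < c) :
    ∃ u g, Adm μ p E univ u g ∧ ∫⁻ x, ENNReal.ofReal (u x) ^ p ∂μ < c ∧
      ∫⁻ x, g x ^ p ∂μ < c := by
  have hp0 : 0 < p := zero_lt_one.trans hp.out
  unfold sobolevCap at h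
  simp only [iInf_lt_iff] at h
  obtain ⟨f, hf, h1, hlt⟩ := h
  unfold newtonNormPow at hlt
  have h2 : energy μ p f < c := lt_of_le_of_lt le_add_self hlt
  have h3 : ∫⁻ x, (f x).abs ^ p ∂μ < c := lt_of_le_of_lt le_self_add hlt
  unfold energy at h2
  simp only [iInf_lt_iff] at h2
  obtain ⟨g, hg, hlt'⟩ := h2
  refine ⟨fun x => clampE (f x), g, ⟨DG.of_weak hf.1 hg (ne_top_of_lt hlt'),
    fun _ => clampE_nonneg _, fun _ => clampE_le_one _, fun x hx => clampE_of_one_le (h1 x hx),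
    fun x hx => absurd (mem_univ x) hx⟩, lt_of_le_of_lt (lintegral_mono fun x => ?_) h3, hlt'⟩
  exact ENNReal.rpow_le_rpow (ofReal_clampE_le _) hp0.le

omit [BorelSpace X] hp in
lemma varCap_mono {A A' Ω Ω' : Set X} (hA : A ⊆ A') (hΩ : Ω' ⊆ Ω) :
    varCap μ p A Ω ≤ varCap μ p A' Ω' := by
  unfold varCap
  refine le_iInf fun f => le_iInf fun hf => le_iInf fun h1 => le_iInf fun h0 => ?_
  exact iInf_le_of_le f (iInf_le_of_le hf (iInf_le_of_le (fun x hx => h1 x (hA hx))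
    (iInf_le_of_le (fun x hx => h0 x fun h => hx (hΩ h)) le_rfl)))

/-- The standing assumptions, with their constants. -/
structure Setting (μ : Measure X) (p : ℝ) where
  Cd : ℝ≥0
  CP : ℝ≥0
  lam : ℝ
  pos : ∀ x r, 0 < r → 0 < μ (ball x r)
  fin : ∀ x r, μ (ball x r) ≠ ⊤
  dbl : ∀ x r, μ (ball x (2 * r)) ≤ Cd * μ (ball x r)
  one_le_lam : 1 ≤ lam
  pi : ∀ (x : X) (r : ℝ), 0 < r →
    ∀ (f : X → ℝ) (g : X → ℝ≥0∞), Integrable f μ → IsUpperGradient (fun y => (f y : EReal)) g →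
      ⨍⁻ y in ball x r, ‖f y - ⨍ z in ball x r, f z ∂μ‖ₑ ∂μ ≤
        CP * ENNReal.ofReal r * (⨍⁻ y in ball x (lam * r), g y ^ p ∂μ) ^ (1 / p)

omit [BorelSpace X] hp in
lemma exists_setting (hd : IsDoubling μ) (hP : SupportsPoincare μ p) : Nonempty (Setting μ p) := by
  obtain ⟨h1, Cd, h2⟩ := hd
  obtain ⟨CP, lam, h3, h4⟩ := hP
  refine ⟨⟨Cd, CP, lam, fun x r hr => (h1 x r hr).1, fun x r => ?_, fun x r => ?_, h3, h4⟩⟩
  · rcases le_or_gt r 0 with hr | hr
    · simp [ball_eq_empty.2 hr]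
    · exact (h1 x r hr).2.ne
  · rcases le_or_gt r 0 with hr | hr
    · simp [ball_eq_empty.2 (show 2 * r ≤ 0 by linarith)]
    · exact h2 x r hr

/-- The Poincare inequality for bounded functions and weak upper gradients. -/
lemma Setting.poincare (S : Setting μ p) (hu : DG μ p u g) {M : ℝ} (hM : ∀ x, |u x| ≤ M)
    (x : X) {r : ℝ} (hr : 0 < r) :
    ⨍⁻ y in ball x r, ‖u y - ⨍ z in ball x r, u z ∂μ‖ₑ ∂μ ≤
      S.CP * ENNReal.ofReal r * (⨍⁻ y in ball x (S.lam * r), g y ^ p ∂μ) ^ (1 / p) := by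
  have hp0 : 0 < p := zero_lt_one.trans hp.out
  have hlr : r ≤ S.lam * r := le_mul_of_one_le_left hr.le S.one_le_lam
  set B := ball x (S.lam * r) with hB
  have hBne : B.Nonempty := nonempty_ball.2 (hr.trans_le hlr)
  set f : X → ℝ := fun y => u y * cut B 1 y with hf
  set G : X → ℝ≥0∞ := fun y => g y + Bᶜ.indicator (fun _ => ⊤) y with hG
  have hfB : ∀ y ∈ B, f y = u y := fun y hy => by simp [hf, cut_of_mem 1 hy]
  have hGB : ∀ y ∈ B, G y = g y := fun y hy => by simp [hG, hy]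
  have hcut := DG.cut (μ := μ) (p := p) B one_pos
  have hfG : DG μ p f G := by
    refine hu.glue₁ (hu.mu.mul hcut.mu) (hu.ac.mul hcut.ac)
      (hu.mg.add (measurable_const.indicator measurableSet_ball.compl).aemeasurable) fun y => ?_
    by_cases hy : y ∈ B
    · exact Or.inr ⟨hfB y hy, (hGB y hy).ge⟩
    · left; simp [hG, hy]
  have hint : Integrable f μ := by
    have hsupp : ∀ y ∉ ball x (S.lam * r + 1), f y = 0 := by
      intro y hy
      have : y ∉ thickening 1 B := fun h => hy (thickening_subset_ball subset_rfl h)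
      simp [hf, cut_of_notMem hBne one_pos this]
    rw [← integrableOn_iff_integrable_of_support_subset
      (s := ball x (S.lam * r + 1)) (fun y hy => by by_contra h; exact hy (hsupp y h))]
    refine Measure.integrableOn_of_bounded (M := M) (S.fin _ _) hfG.mu.aestronglyMeasurable ?_
    refine Eventually.of_forall fun y => ?_
    simp only [hf, Real.norm_eq_abs, abs_mul]
    rw [abs_of_nonneg (cut_nonneg _ _ _)]
    exact (mul_le_of_le_one_right (abs_nonneg _) (cut_le_one _ one_pos _)).trans (hM y)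
  obtain ⟨ρ, hρm, hρfin, hρ⟩ := eventually_aeC.1 hfG.ineq
  have hsub : ball x r ⊆ B := ball_subset_ball hlr
  have hav : ⨍ z in ball x r, f z ∂μ = ⨍ z in ball x r, u z ∂μ :=
    setAverage_congr_fun measurableSet_ball (Eventually.of_forall fun y hy => hfB y (hsub hy))
  have hL : ⨍⁻ y in ball x r, ‖f y - ⨍ z in ball x r, f z ∂μ‖ₑ ∂μ =
      ⨍⁻ y in ball x r, ‖u y - ⨍ z in ball x r, u z ∂μ‖ₑ ∂μ := by
    rw [hav]
    exact setLAverage_congr_fun measurableSet_ball fun y hy => by simp only [hfB y (hsub hy)]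
  have main : ∀ ε : ℝ≥0∞, 0 < ε →
      ⨍⁻ y in ball x r, ‖u y - ⨍ z in ball x r, u z ∂μ‖ₑ ∂μ ≤
        S.CP * ENNReal.ofReal r * (⨍⁻ y in B, g y ^ p ∂μ + ε) ^ (1 / p) := by
    intro ε hε
    have hB0 : μ B ≠ 0 := (S.pos _ _ (hr.trans_le hlr)).ne'
    obtain ⟨c, hc0, hct, hc⟩ := exists_rpow_mul_le hp0 hρfin (ε := ε * μ B)
      (mul_ne_zero hε.ne' hB0)
    have hUG : IsUpperGradient (fun y => (f y : EReal))
        (fun y => max (hfG.mg.mk G y) (c * ρ y)) := by
      refine ⟨hfG.mg.measurable_mk.max (hρm.const_mul _), fun γ => ?_⟩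
      by_cases hγ : lineIntegral γ ρ = ⊤
      · have : lineIntegral γ (fun y => c * ρ y) ≤
            lineIntegral γ (fun y => max (hfG.mg.mk G y) (c * ρ y)) :=
          lineIntegral_mono γ fun y => le_max_right _ _
        rw [lineIntegral_const_mul γ hct, hγ, ENNReal.mul_top hc0] at this
        exact le_top.trans this
      · exact (hρ γ hγ).trans (lineIntegral_mono γ fun y => le_max_left _ _)
    have h1 := S.pi x r hr f _ hint hUG
    rw [hL] at h1
    refine h1.trans ?_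
    gcongr
    rw [setLAverage_eq, setLAverage_eq]
    have h2 : ∫⁻ y in B, (max (hfG.mg.mk G y) (c * ρ y)) ^ p ∂μ ≤
        ∫⁻ y in B, g y ^ p ∂μ + ε * μ B := by
      calc ∫⁻ y in B, (max (hfG.mg.mk G y) (c * ρ y)) ^ p ∂μ
          ≤ ∫⁻ y in B, (g y ^ p + c ^ p * ρ y ^ p) ∂μ := by
            refine lintegral_mono_ae ?_
            filter_upwards [ae_restrict_of_ae hfG.mg.ae_eq_mk, ae_restrict_mem measurableSet_ball]
              with y h1 h2
            rw [← h1, hGB y h2, ← ENNReal.mul_rpow_of_nonneg _ _ hp0.le]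
            rcases le_total (g y) (c * ρ y) with h | h
            · rw [max_eq_right h]; exact le_add_self
            · rw [max_eq_left h]; exact le_self_add
        _ = ∫⁻ y in B, g y ^ p ∂μ + c ^ p * ∫⁻ y in B, ρ y ^ p ∂μ := by
            rw [lintegral_add_right _ ((hρm.pow_const _).const_mul _),
              lintegral_const_mul _ (hρm.pow_const _)]
        _ ≤ _ := by
            refine add_le_add le_rfl (le_trans ?_ hc)
            exact mul_le_mul_right (setLIntegral_le_lintegral _ _) _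
    calc _ ≤ (∫⁻ y in B, g y ^ p ∂μ + ε * μ B) / μ B := by gcongr
      _ = _ := by
        rw [ENNReal.add_div, ENNReal.mul_div_cancel_right hB0 (S.fin _ _)]
  have hlim : Tendsto (fun ε : ℝ≥0∞ => S.CP * ENNReal.ofReal r * (⨍⁻ y in B, g y ^ p ∂μ + ε) ^ (1 / p))
      (𝓝[>] 0) (𝓝 (S.CP * ENNReal.ofReal r * (⨍⁻ y in B, g y ^ p ∂μ + 0) ^ (1 / p))) := by
    refine ENNReal.Tendsto.const_mul ?_ (Or.inr (ENNReal.mul_ne_top (by simp) (by simp)))
    refine (ENNReal.continuous_rpow_const.tendsto _).comp ?_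
    exact (tendsto_const_nhds.add tendsto_id).mono_left nhdsWithin_le_nhds
  rw [add_zero] at hlim
  exact ge_of_tendsto hlim (eventually_nhdsWithin_of_forall main)

end Pool.Agent.MP_024e69_an

end

-- part MP_024e69_an.Doubling
section

/-! Consequences of doubling and of the Poincare inequality. -/

open MeasureTheory Metric Set Filter Topology
open scoped ENNReal NNReal

namespace Pool.Agent.MP_024e69_an

universe u
variable {X : Type u} [MetricSpace X] [MeasurableSpace X]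
variable {μ : Measure X} {p : ℝ} {u v w : X → ℝ} {g h G : X → ℝ≥0∞}

lemma Setting.ne_zero (S : Setting μ p) (x : X) {r : ℝ} (hr : 0 < r) : μ (ball x r) ≠ 0 :=
  (S.pos x r hr).ne'

lemma Setting.one_le_Cd (S : Setting μ p) (x : X) : 1 ≤ S.Cd := by
  have h1 : μ (ball x 1) ≤ S.Cd * μ (ball x 1) :=
    (measure_mono (ball_subset_ball (by norm_num))).trans (S.dbl x 1)
  have h2 : (1 : ℝ≥0∞) * μ (ball x 1) ≤ S.Cd * μ (ball x 1) := by rwa [one_mul]
  exact_mod_cast (ENNReal.mul_le_mul_iff_left (S.ne_zero x one_pos) (S.fin x 1)).1 h2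

lemma Setting.dbl_pow (S : Setting μ p) (x : X) (r : ℝ) (n : ℕ) :
    μ (ball x (2 ^ n * r)) ≤ (S.Cd : ℝ≥0∞) ^ n * μ (ball x r) := by
  induction n with
  | zero => simp
  | succ n ih =>
    calc μ (ball x (2 ^ (n + 1) * r)) = μ (ball x (2 * (2 ^ n * r))) := by congr 2; ring
      _ ≤ S.Cd * μ (ball x (2 ^ n * r)) := S.dbl _ _
      _ ≤ S.Cd * ((S.Cd : ℝ≥0∞) ^ n * μ (ball x r)) := by gcongr
      _ = _ := by ring

lemma Setting.comp (S : Setting μ p) (K : ℝ) : ∃ C : ℝ≥0, 1 ≤ C ∧ ∀ (x y : X) (r R : ℝ), 0 < r →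
    dist x y + R ≤ K * r → μ (ball x R) ≤ C * μ (ball y r) := by
  obtain ⟨n, hn⟩ := pow_unbounded_of_one_lt K (one_lt_two (α := ℝ))
  refine ⟨max 1 (S.Cd ^ n), le_max_left _ _, fun x y r R hr h => ?_⟩
  calc μ (ball x R) ≤ μ (ball y (2 ^ n * r)) := by
        refine measure_mono (ball_subset_ball' ?_)
        nlinarith
    _ ≤ (S.Cd : ℝ≥0∞) ^ n * μ (ball y r) := S.dbl_pow _ _ _
    _ ≤ _ := by
        gcongr
        exact_mod_cast le_max_right _ _

variable [BorelSpace X]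

lemma Setting.secondCountable (S : Setting μ p) : SecondCountableTopology X := by
  refine Metric.secondCountable_of_almost_dense_set fun ε hε => ?_
  rcases isEmpty_or_nonempty X with hX | ⟨⟨x0⟩⟩
  · exact ⟨∅, countable_empty, fun x => hX.elim x⟩
  obtain ⟨U, -, hd, hc⟩ := Vitali.exists_disjoint_subfamily_covering_enlargement_ball
    (univ : Set X) id (fun _ => ε / 4) (ε / 4) (fun _ _ => le_rfl) 4 (by norm_num)
  refine ⟨U, ?_, fun x => ?_⟩
  · have : U = ⋃ n : ℕ, U ∩ ball x0 n := by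
      rw [← inter_iUnion, iUnion_ball_nat, inter_univ]
    rw [this]
    refine countable_iUnion fun n => ?_
    have hcount := Measure.countable_meas_pos_of_disjoint_of_meas_iUnion_ne_top μ
      (As := fun i : ↥(U ∩ ball x0 n) => ball (i : X) (ε / 4)) (fun _ => measurableSet_ball)
      (fun i j hij => hd i.2.1 j.2.1 (fun h => hij (Subtype.ext h)))
      (ne_top_of_le_ne_top (S.fin x0 (n + ε / 4)) (measure_mono (iUnion_subset fun i =>
        ball_subset_ball' (by have := mem_ball.1 i.2.2; linarith))))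
    have h2 : {i : ↥(U ∩ ball x0 n) | 0 < μ (ball (i : X) (ε / 4))} = univ :=
      eq_univ_of_forall fun i => S.pos _ _ (by linarith)
    rw [h2, countable_univ_iff] at hcount
    exact countable_coe_iff.1 hcount
  · obtain ⟨b, hb, hsub⟩ := hc x (mem_univ x)
    refine ⟨b, hb, ?_⟩
    have := hsub (mem_ball_self (x := x) (by linarith : 0 < ε / 4))
    rw [mem_ball] at this
    simp only [id] at this
    linarith

omit [BorelSpace X] in
lemma Setting.unifDoubling (S : Setting μ p) : IsUnifLocDoublingMeasure μ := by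
  refine ⟨⟨S.Cd ^ 2, eventually_nhdsWithin_of_forall fun ε hε x => ?_⟩⟩
  have hε : 0 < ε := hε
  calc μ (closedBall x (2 * ε)) ≤ μ (ball x (2 ^ 2 * ε)) :=
        measure_mono (closedBall_subset_ball (by linarith))
    _ ≤ (S.Cd : ℝ≥0∞) ^ 2 * μ (ball x ε) := S.dbl_pow _ _ _
    _ ≤ _ := by
        push_cast
        gcongr
        exact ball_subset_closedBall

omit [BorelSpace X] in
lemma Setting.locFinite (S : Setting μ p) : IsLocallyFiniteMeasure μ :=
  ⟨fun x => ⟨ball x 1, ball_mem_nhds x one_pos, lt_top_iff_ne_top.2 (S.fin x 1)⟩⟩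

omit [MetricSpace X] [BorelSpace X] in
lemma integrableOn_of_bdd (hu : AEMeasurable u μ) {M : ℝ} (hM : ∀ x, |u x| ≤ M) {A : Set X}
    (hA : μ A ≠ ⊤) : IntegrableOn u A μ :=
  Measure.integrableOn_of_bounded (M := M) hA hu.aestronglyMeasurable
    (Eventually.of_forall fun y => hM y)

omit [MetricSpace X] [BorelSpace X] in
lemma enorm_avg_sub_le {A : Set X} (hA0 : μ A ≠ 0) (hA : μ A ≠ ⊤) (hu : IntegrableOn u A μ)
    (c : ℝ) : ‖(⨍ z in A, u z ∂μ) - c‖ₑ ≤ (∫⁻ z in A, ‖u z - c‖ₑ ∂μ) / μ A := by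
  have hc : IntegrableOn (fun _ => c) A μ := integrableOn_const hA
  have h1 : (⨍ z in A, u z ∂μ) - c = ⨍ z in A, (u z - c) ∂μ := by
    rw [setAverage_eq, setAverage_eq, integral_sub hu hc, smul_sub, ← setAverage_eq μ (fun _ => c),
      setAverage_const hA0 hA]
  rw [h1, setAverage_eq, enorm_smul, ENNReal.div_eq_inv_mul]
  refine mul_le_mul' (le_of_eq ?_) (enorm_integral_le_lintegral_enorm _)
  rw [← ofReal_norm, Real.norm_eq_abs, abs_of_nonneg (by positivity), measureReal_def,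
    ENNReal.ofReal_inv_of_pos (ENNReal.toReal_pos hA0 hA), ENNReal.ofReal_toReal hA]

omit [MetricSpace X] [BorelSpace X] in
lemma enorm_avg_sub_le' {A B : Set X} (hAB : A ⊆ B) {C : ℝ≥0∞} (hC : μ B ≤ C * μ A)
    (hA0 : μ A ≠ 0) (hB : μ B ≠ ⊤) (hu : IntegrableOn u A μ) (c : ℝ) :
    ‖(⨍ z in A, u z ∂μ) - c‖ₑ ≤ C * ⨍⁻ z in B, ‖u z - c‖ₑ ∂μ := by
  have hA : μ A ≠ ⊤ := ne_top_of_le_ne_top hB (measure_mono hAB)
  have hB0 : μ B ≠ 0 := fun h => hA0 (measure_mono_null hAB h)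
  refine (enorm_avg_sub_le hA0 hA hu c).trans ?_
  rw [setLAverage_eq, ENNReal.div_le_iff hA0 hA]
  calc ∫⁻ z in A, ‖u z - c‖ₑ ∂μ ≤ ∫⁻ z in B, ‖u z - c‖ₑ ∂μ := lintegral_mono_set hAB
    _ = (∫⁻ z in B, ‖u z - c‖ₑ ∂μ) / μ B * μ B := (ENNReal.div_mul_cancel hB0 hB).symm
    _ ≤ (∫⁻ z in B, ‖u z - c‖ₑ ∂μ) / μ B * (C * μ A) := by gcongr
    _ = _ := by ring

/-- Lebesgue points along dyadic radii. -/
lemma Setting.lebesgue (S : Setting μ p) (hu : AEMeasurable u μ) {M : ℝ} (hM : ∀ x, |u x| ≤ M) :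
    ∀ᵐ y ∂μ, ∀ r : ℝ, 0 < r →
      Tendsto (fun i : ℕ => ⨍ z in ball y (r / 2 ^ i), u z ∂μ) atTop (𝓝 (u y)) := by
  have := S.secondCountable
  have := S.unifDoubling
  have := S.locFinite
  have hloc : LocallyIntegrable u μ := fun x =>
    ⟨ball x 1, ball_mem_nhds x one_pos, integrableOn_of_bdd hu hM (S.fin _ _)⟩
  filter_upwards [IsUnifLocDoublingMeasure.ae_tendsto_average_norm_sub μ hloc 1] with y hy r hr
  have hδ : Tendsto (fun i : ℕ => r / 2 ^ i) atTop (𝓝[>] 0) := by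
    refine tendsto_nhdsWithin_iff.2 ⟨?_, Eventually.of_forall fun i => ?_⟩
    · exact tendsto_const_nhds.div_atTop (tendsto_pow_atTop_atTop_of_one_lt one_lt_two)
    · exact mem_Ioi.2 (by positivity)
  have h1 := hy (fun _ => y) (fun i : ℕ => r / 2 ^ i) hδ
    (Eventually.of_forall fun i => mem_closedBall_self (by positivity))
  rw [tendsto_iff_norm_sub_tendsto_zero]
  have h2 := h1.const_mul (S.Cd : ℝ)
  rw [mul_zero] at h2
  refine squeeze_zero (fun _ => norm_nonneg _) (fun i => ?_) h2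
  have hri : 0 < r / 2 ^ i := by positivity
  have hfin : μ (closedBall y (r / 2 ^ i)) ≠ ⊤ :=
    ne_top_of_le_ne_top (S.fin y (2 * (r / 2 ^ i)))
      (measure_mono (closedBall_subset_ball (by linarith)))
  have h3 := enorm_avg_sub_le' (ball_subset_closedBall (x := y) (ε := r / 2 ^ i)) (C := S.Cd)
    ((measure_mono (closedBall_subset_ball (by linarith))).trans (S.dbl y _))
    (S.ne_zero y hri) hfin (integrableOn_of_bdd hu hM (S.fin _ _)) (u y)
  have hint : IntegrableOn (fun z => ‖u z - u y‖) (closedBall y (r / 2 ^ i)) μ :=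
    ((integrableOn_of_bdd hu hM hfin).sub (integrableOn_const hfin)).norm
  have h4 := ofReal_setAverage hint (Eventually.of_forall fun z => norm_nonneg _)
  simp only [ofReal_norm] at h4
  rw [setLAverage_eq, ← h4, ← ofReal_norm, ← ENNReal.ofReal_coe_nnreal,
    ← ENNReal.ofReal_mul (NNReal.coe_nonneg _)] at h3
  refine (ENNReal.ofReal_le_ofReal_iff ?_).1 h3
  exact mul_nonneg (NNReal.coe_nonneg _) (integral_nonneg fun _ => norm_nonneg _)

variable [hp : Fact (1 < p)]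

omit [BorelSpace X] in
lemma PathOpen.of_isOpen {A : Set X} (hA : IsOpen A) : PathOpen μ p A :=
  Eventually.of_forall fun γ t ht hmem => γ.continuousOn t ht (hA.mem_nhds hmem)

lemma Setting.exists_annulus (S : Setting μ p) (x z : X) {s t : ℝ} (hs : 0 < s) (hst : s < t)
    (hz : t ≤ dist z x) : ∃ y, s ≤ dist y x ∧ dist y x < t := by
  have hp0 : 0 < p := zero_lt_one.trans hp.out
  by_contra hcon
  push Not at hcon
  have hB : IsOpen (ball x s)ᶜ := by
    have : (ball x s)ᶜ = (closedBall x ((s + t) / 2))ᶜ := by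
      ext y
      simp only [mem_compl_iff, mem_ball, mem_closedBall, not_lt, not_le]
      constructor
      · intro h; linarith [hcon y h]
      · intro h; linarith
    rw [this]; exact isClosed_closedBall.isOpen_compl
  have hDG := (DG.const (μ := μ) (p := p) 0).indicator (PathOpen.of_isOpen (isOpen_ball (x := x) (ε := s)))
    (PathOpen.of_isOpen hB) disjoint_compl_right measurableSet_ball.nullMeasurableSet
    (fun y h1 h2 => absurd h1 h2)
  set f : X → ℝ := (ball x s).indicator fun _ => 1 - 0 with hf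
  have hR : 0 < dist z x + t := by linarith
  have h1 := S.poincare hDG (M := 1) (fun y => by
    by_cases hy : y ∈ ball x s <;> simp [hf, hy]) x hR
  have h2 : (⨍⁻ y in ball x (S.lam * (dist z x + t)), (0 : ℝ≥0∞) ^ p ∂μ) ^ (1 / p) = 0 := by
    simp [hp0]
  rw [h2, mul_zero, setLAverage_eq, nonpos_iff_eq_zero, ENNReal.div_eq_zero_iff] at h1
  have h3 := h1.resolve_right (S.fin _ _)
  set m := ⨍ z in ball x (dist z x + t), f z ∂μ
  have hmeas : AEMeasurable (fun y => ‖f y - m‖ₑ) (μ.restrict (ball x (dist z x + t))) :=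
    (hDG.mu.sub aemeasurable_const).enorm.restrict
  rw [lintegral_eq_zero_iff' hmeas] at h3
  have h4 : ∀ B : Set X, B ⊆ ball x (dist z x + t) → μ B ≠ 0 → ∃ y ∈ B, f y = m := by
    intro B hB hB0
    obtain ⟨y, hy, hy'⟩ := Measure.exists_mem_of_measure_ne_zero_of_ae hB0
      (ae_restrict_of_ae_restrict_of_subset hB h3)
    exact ⟨y, hy, by simpa [sub_eq_zero] using hy'⟩
  obtain ⟨y1, hy1, hy1'⟩ := h4 (ball x s) (ball_subset_ball (by linarith [dist_nonneg (x := z) (y := x)]))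
    (S.ne_zero x hs)
  obtain ⟨y2, hy2, hy2'⟩ := h4 (ball z (t - s)) (ball_subset_ball' (by linarith))
    (S.ne_zero z (by linarith))
  have hy2n : y2 ∉ ball x s := by
    rw [mem_ball] at hy2 ⊢
    have := dist_triangle_left z x y2
    intro h
    linarith
  simp [hf, hy1] at hy1'
  simp [hf, hy2n] at hy2'
  linarith

/-- Below the scale `R0` the annuli around every point are nonempty. -/
def Nondeg (X : Type u) [MetricSpace X] (R0 : ℝ) : Prop :=
  ∀ (x : X) (t : ℝ), 0 < t → t ≤ R0 → ∃ z, 3 * t ≤ dist z x ∧ dist z x < 4 * t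

lemma Setting.exists_nondeg (S : Setting μ p) [Nontrivial X] :
    ∃ R0, 0 < R0 ∧ R0 ≤ 1 / 4 ∧ Nondeg X R0 := by
  obtain ⟨a, b, hab⟩ := exists_pair_ne X
  have hD : 0 < dist a b := dist_pos.2 hab
  refine ⟨min (dist a b / 8) (1 / 4), by positivity, min_le_right _ _, fun x t ht htR => ?_⟩
  have ht' : t ≤ dist a b / 8 := htR.trans (min_le_left _ _)
  have : ∃ z, 4 * t ≤ dist z x := by
    by_contra hcon
    push Not at hcon
    have := dist_triangle_right a b x
    linarith [hcon a, hcon b]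
  obtain ⟨z, hz⟩ := this
  exact S.exists_annulus x z (by linarith) (by linarith) hz

end Pool.Agent.MP_024e69_an

end

-- part MP_024e69_an.Weak
section

/-! Weak type Sobolev-Poincare estimates. -/

open MeasureTheory Metric Set Filter Topology
open scoped ENNReal NNReal

namespace Pool.Agent.MP_024e69_an

universe u
variable {X : Type u} [MetricSpace X] [MeasurableSpace X] [BorelSpace X]
variable {μ : Measure X} {p : ℝ}

lemma Setting.cover (S : Setting μ p) (A : Set X) (ρ : X → ℝ) (R : ℝ)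
    (h : ∀ y ∈ A, 0 < ρ y ∧ ρ y ≤ R) :
    ∃ U ⊆ A, U.Countable ∧ U.PairwiseDisjoint (fun y => ball y (ρ y)) ∧
      ∀ y ∈ A, ball y (ρ y) ⊆ ⋃ z ∈ U, ball z (4 * ρ z) := by
  have := S.secondCountable
  obtain ⟨U, hUA, hd, hc⟩ := Vitali.exists_disjoint_subfamily_covering_enlargement_ball
    A id ρ R (fun y hy => (h y hy).2) 4 (by norm_num)
  refine ⟨U, hUA, hd.countable_of_nonempty_interior fun y hy => ?_, hd, fun y hy => ?_⟩
  · rw [isOpen_ball.interior_eq]
    exact nonempty_ball.2 (h y (hUA hy)).1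
  · obtain ⟨b, hb, hsub⟩ := hc y hy
    exact hsub.trans (subset_biUnion_of_mem (u := fun z => ball z (4 * ρ z)) hb)

lemma tsum_rpow_le {ι : Type*} (a : ι → ℝ≥0∞) {κ : ℝ} (hκ : 1 ≤ κ) :
    ∑' i, a i ^ κ ≤ (∑' i, a i) ^ κ := by
  have h : ∀ x : ℝ≥0∞, x ^ κ = x * x ^ (κ - 1) := fun x => by
    conv_lhs => rw [show κ = 1 + (κ - 1) by ring]
    rw [ENNReal.rpow_add_of_nonneg _ _ zero_le_one (sub_nonneg.2 hκ), ENNReal.rpow_one]
  rw [h (∑' i, a i), ← ENNReal.tsum_mul_right]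
  refine ENNReal.tsum_le_tsum fun i => ?_
  rw [h (a i)]
  exact mul_le_mul_right (ENNReal.rpow_le_rpow (ENNReal.le_tsum i) (sub_nonneg.2 hκ)) _

lemma Setting.weak_cover (S : Setting μ p) {A N : Set X} {R κ : ℝ} (hκ : 1 ≤ κ) {K L : ℝ≥0∞}
    (f : X → ℝ≥0∞)
    (h : ∀ᵐ y ∂μ, y ∈ A → ∃ ρ, 0 < ρ ∧ ρ ≤ R ∧ ball y ρ ⊆ N ∧
      L * μ (ball y ρ) ≤ K * (∫⁻ z in ball y ρ, f z ∂μ) ^ κ) :
    L * μ A ≤ (S.Cd : ℝ≥0∞) ^ 2 * K * (∫⁻ z in N, f z ∂μ) ^ κ := by
  set A' := {y | y ∈ A ∧ ∃ ρ, 0 < ρ ∧ ρ ≤ R ∧ ball y ρ ⊆ N ∧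
      L * μ (ball y ρ) ≤ K * (∫⁻ z in ball y ρ, f z ∂μ) ^ κ} with hA'
  have hAA' : μ A ≤ μ A' := measure_mono_ae (h.mono fun y hy hyA => ⟨hyA, hy hyA⟩)
  have hex : ∀ y, ∃ ρ, y ∈ A' → 0 < ρ ∧ ρ ≤ R ∧ ball y ρ ⊆ N ∧
      L * μ (ball y ρ) ≤ K * (∫⁻ z in ball y ρ, f z ∂μ) ^ κ := by
    intro y
    by_cases hy : y ∈ A'
    · obtain ⟨ρ, hρ⟩ := hy.2
      exact ⟨ρ, fun _ => hρ⟩
    · exact ⟨0, fun h => absurd h hy⟩
  choose ρ hρ using hex
  obtain ⟨U, hUA, hUc, hd, hc⟩ := S.cover A' ρ R fun y hy => ⟨(hρ y hy).1, (hρ y hy).2.1⟩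
  calc L * μ A ≤ L * μ (⋃ z ∈ U, ball z (4 * ρ z)) := by
        refine mul_le_mul_right (hAA'.trans (measure_mono fun y hy => ?_)) _
        exact hc y hy (mem_ball_self (hρ y hy).1)
    _ ≤ L * ∑' z : U, μ (ball z (4 * ρ z)) := mul_le_mul_right (measure_biUnion_le μ hUc _) _
    _ = ∑' z : U, L * μ (ball z (4 * ρ z)) := ENNReal.tsum_mul_left.symm
    _ ≤ ∑' z : U, (S.Cd : ℝ≥0∞) ^ 2 * K * (∫⁻ y in ball (z : X) (ρ z), f y ∂μ) ^ κ := by
        refine ENNReal.tsum_le_tsum fun z => ?_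
        have h1 := S.dbl_pow z (ρ z) 2
        rw [show (2 : ℝ) ^ 2 = 4 by norm_num] at h1
        calc L * μ (ball z (4 * ρ z)) ≤ L * ((S.Cd : ℝ≥0∞) ^ 2 * μ (ball z (ρ z))) := by gcongr
          _ = (S.Cd : ℝ≥0∞) ^ 2 * (L * μ (ball z (ρ z))) := by ring
          _ ≤ (S.Cd : ℝ≥0∞) ^ 2 * (K * (∫⁻ y in ball (z : X) (ρ z), f y ∂μ) ^ κ) :=
              mul_le_mul_right (hρ z (hUA z.2)).2.2.2 _
          _ = _ := by ring
    _ ≤ (S.Cd : ℝ≥0∞) ^ 2 * K * (∑' z : U, ∫⁻ y in ball (z : X) (ρ z), f y ∂μ) ^ κ := by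
        rw [ENNReal.tsum_mul_left]
        exact mul_le_mul_right (tsum_rpow_le _ hκ) _
    _ ≤ _ := by
        rw [← lintegral_biUnion hUc (fun _ _ => measurableSet_ball) hd]
        refine mul_le_mul_right (ENNReal.rpow_le_rpow (lintegral_mono_set ?_) (by linarith)) _
        exact iUnion₂_subset fun z hz => (hρ z (hUA hz)).2.2.1

omit [MetricSpace X] [BorelSpace X] in
lemma avg_gap {v : X → ℝ} {B Z : Set X} (hB0 : μ B ≠ 0) (hB : μ B ≠ ⊤) (hv : IntegrableOn v B μ)
    {a b c : ℝ} (_hab : a ≤ b) (hc0 : 0 ≤ c) (hle : ∀ x, v x ≤ b) (hZ : NullMeasurableSet Z μ)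
    (hZa : ∀ x ∈ Z, v x ≤ a) (hc : ENNReal.ofReal c * μ B ≤ μ (B ∩ Z)) :
    c * (b - a) ≤ b - ⨍ z in B, v z ∂μ := by
  have hb : IntegrableOn (fun _ => b) B μ := integrableOn_const hB
  have h1 : b - ⨍ z in B, v z ∂μ = ⨍ z in B, (b - v z) ∂μ := by
    rw [setAverage_eq μ (fun z => b - v z), integral_sub hb hv, smul_sub,
      ← setAverage_eq μ (fun _ => b), setAverage_const hB0 hB, setAverage_eq]
  have h2 := ofReal_setAverage (f := fun z => b - v z) (hb.sub hv)
    (Eventually.of_forall fun z => sub_nonneg.2 (hle z))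
  rw [h1]
  have h3 : ENNReal.ofReal (c * (b - a)) ≤ ENNReal.ofReal (⨍ z in B, (b - v z) ∂μ) := by
    rw [h2, ENNReal.le_div_iff_mul_le (Or.inl hB0) (Or.inl hB), ENNReal.ofReal_mul hc0]
    calc ENNReal.ofReal c * ENNReal.ofReal (b - a) * μ B
        = ENNReal.ofReal (b - a) * (ENNReal.ofReal c * μ B) := by ring
      _ ≤ ENNReal.ofReal (b - a) * μ (B ∩ Z) := by gcongr
      _ = ∫⁻ z in B, Z.indicator (fun _ => ENNReal.ofReal (b - a)) z ∂μ := by
          rw [lintegral_indicator₀ (hZ.mono Measure.restrict_le_self), setLIntegral_const,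
            Measure.restrict_apply₀ (hZ.mono Measure.restrict_le_self), inter_comm]
      _ ≤ _ := by
          refine lintegral_mono fun z => ?_
          by_cases hz : z ∈ Z
          · simp only [indicator_of_mem hz]
            exact ENNReal.ofReal_le_ofReal (by linarith [hZa z hz])
          · simp [hz]
  exact (ENNReal.ofReal_le_ofReal_iff
    (integral_nonneg fun z => sub_nonneg.2 (hle z))).1 h3

omit [MetricSpace X] [BorelSpace X] in
lemma lintegral_indicator_rpow (hp0 : 0 < p) {Z : Set X} (hZ : NullMeasurableSet Z μ)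
    (g : X → ℝ≥0∞) (N : Set X) :
    ∫⁻ z in N, (Z.indicator g z) ^ p ∂μ = ∫⁻ z in N ∩ Z, g z ^ p ∂μ := by
  have : (fun z => (Z.indicator g z) ^ p) = Z.indicator fun z => g z ^ p := by
    ext z
    by_cases hz : z ∈ Z <;> simp [hz, hp0]
  rw [this, lintegral_indicator₀ (hZ.mono Measure.restrict_le_self),
    Measure.restrict_restrict₀ (hZ.mono Measure.restrict_le_self), inter_comm]

lemma abs_clamp_le {a b : ℝ} (hab : a ≤ b) (t : ℝ) : |clamp a b t| ≤ max |a| |b| := by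
  have h1 := le_clamp hab t
  have h2 := clamp_le a b t
  rw [abs_le]
  constructor
  · linarith [neg_abs_le a, le_max_left |a| |b|]
  · linarith [le_abs_self b, le_max_right |a| |b|]

variable [hp : Fact (1 < p)]

lemma Setting.core (S : Setting μ p) : ∃ c : ℝ, 0 < c ∧ ∀ (u : X → ℝ) (g : X → ℝ≥0∞) (M : ℝ),
    DG μ p u g → (∀ x, |u x| ≤ M) → ∀ᵐ y ∂μ, ∀ r t : ℝ, 0 < r → 0 < t →
      t ≤ |u y - ⨍ z in ball y r, u z ∂μ| → ∃ i : ℕ,
        ENNReal.ofReal ((c * t / r * (3 / 2) ^ i) ^ p) * μ (ball y (S.lam * (r / 2 ^ i))) ≤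
          ∫⁻ z in ball y (S.lam * (r / 2 ^ i)), g z ^ p ∂μ := by
  have hp0 : 0 < p := zero_lt_one.trans hp.out
  set D : ℝ := S.Cd * S.CP with hD
  have hD0 : 0 ≤ D := by positivity
  refine ⟨1 / (8 * (D + 1)), by positivity, fun u g M hu hM => ?_⟩
  set c : ℝ := 1 / (8 * (D + 1)) with hc
  have hc0 : 0 < c := by positivity
  filter_upwards [S.lebesgue hu.mu hM] with y hy r t hr ht hle
  by_contra hcon
  push Not at hcon
  have hlam : 0 < S.lam := zero_lt_one.trans_le S.one_le_lam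
  have step : ∀ i : ℕ, dist (⨍ z in ball y (r / 2 ^ i), u z ∂μ)
      (⨍ z in ball y (r / 2 ^ (i + 1)), u z ∂μ) ≤ D * c * t * (3 / 4) ^ i := by
    intro i
    have hri : 0 < r / 2 ^ i := by positivity
    have hri' : 0 < r / 2 ^ (i + 1) := by positivity
    have h2 : 2 * (r / 2 ^ (i + 1)) = r / 2 ^ i := by field_simp; ring
    have h3 := enorm_avg_sub_le' (A := ball y (r / 2 ^ (i + 1))) (B := ball y (r / 2 ^ i))
      (ball_subset_ball (by linarith)) (C := S.Cd) (by rw [← h2]; exact S.dbl _ _)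
      (S.ne_zero y hri') (S.fin _ _) (integrableOn_of_bdd hu.mu hM (S.fin _ _))
      (⨍ z in ball y (r / 2 ^ i), u z ∂μ)
    have h4 := S.poincare hu hM y hri
    have h5 : (⨍⁻ z in ball y (S.lam * (r / 2 ^ i)), g z ^ p ∂μ) ^ (1 / p) ≤
        ENNReal.ofReal (c * t / r * (3 / 2) ^ i) := by
      have h6 : ⨍⁻ z in ball y (S.lam * (r / 2 ^ i)), g z ^ p ∂μ ≤
          ENNReal.ofReal (c * t / r * (3 / 2) ^ i) ^ p := by
        rw [setLAverage_eq, ENNReal.div_le_iff (S.ne_zero y (by positivity)) (S.fin _ _),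
          ENNReal.ofReal_rpow_of_nonneg (by positivity) hp0.le]
        exact (hcon i).le
      refine (ENNReal.rpow_le_rpow h6 (by positivity)).trans (le_of_eq ?_)
      rw [one_div, ENNReal.rpow_rpow_inv hp0.ne']
    have h7 : ‖(⨍ z in ball y (r / 2 ^ (i + 1)), u z ∂μ) - ⨍ z in ball y (r / 2 ^ i), u z ∂μ‖ₑ ≤
        ENNReal.ofReal (D * c * t * (3 / 4) ^ i) := by
      calc _ ≤ S.Cd * (S.CP * ENNReal.ofReal (r / 2 ^ i) *
            ENNReal.ofReal (c * t / r * (3 / 2) ^ i)) := by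
            refine h3.trans (mul_le_mul_right (h4.trans ?_) _)
            gcongr
        _ = _ := by
            rw [← ENNReal.ofReal_coe_nnreal, ← ENNReal.ofReal_coe_nnreal (p := S.CP),
              ← ENNReal.ofReal_mul (by positivity), ← ENNReal.ofReal_mul (by positivity),
              ← ENNReal.ofReal_mul (by positivity)]
            congr 1
            have : ((3 : ℝ) / 4) ^ i = (3 / 2) ^ i / 2 ^ i := by
              rw [← div_pow]; norm_num
            rw [this, hD]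
            field_simp
    rw [← ofReal_norm, ENNReal.ofReal_le_ofReal_iff (by positivity)] at h7
    rwa [dist_comm, dist_eq_norm]
  have h8 := dist_le_of_le_geometric_of_tendsto₀ (3 / 4) (D * c * t) (by norm_num) step (hy r hr)
  simp only [pow_zero, div_one] at h8
  rw [Real.dist_eq, abs_sub_comm] at h8
  have h9 : D * c ≤ 1 / 8 := by
    rw [hc, mul_one_div, div_le_div_iff₀ (by positivity) (by norm_num)]
    linarith
  have : D * c * t / (1 - 3 / 4) ≤ t / 2 := by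
    rw [div_le_iff₀ (by norm_num)]
    nlinarith
  linarith

/-- Common part of the two weak type estimates. -/
lemma Setting.core' (S : Setting μ p) : ∃ c₀ : ℝ, 0 < c₀ ∧ ∀ (u : X → ℝ) (g : X → ℝ≥0∞),
    DG μ p u g → ∀ a b : ℝ, a < b → ∀ᵐ y ∂μ, ∀ R c : ℝ, 0 < R → 0 < c → b ≤ u y →
      ENNReal.ofReal c * μ (ball y R) ≤ μ (ball y R ∩ {z | u z ≤ a}) → ∃ i : ℕ,
        ENNReal.ofReal ((c₀ * (c * (b - a)) / R * (3 / 2) ^ i) ^ p) *
          μ (ball y (S.lam * (R / 2 ^ i))) ≤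
          ∫⁻ z in ball y (S.lam * (R / 2 ^ i)),
            ({z | a < u z ∧ u z < b}.indicator g z) ^ p ∂μ := by
  obtain ⟨c₀, hc₀, H⟩ := S.core
  refine ⟨c₀, hc₀, fun u g hu a b hab => ?_⟩
  have hv := hu.clamp hab.le
  filter_upwards [H _ _ _ hv (fun x => abs_clamp_le hab.le (u x))] with y hy R c hR hc hb hμ
  refine hy R (c * (b - a)) hR (mul_pos hc (sub_pos.2 hab)) ?_
  rw [clamp_of_ge hb]
  refine le_trans ?_ (le_abs_self _)
  exact avg_gap (S.ne_zero y hR) (S.fin _ _)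
    (integrableOn_of_bdd hv.mu (fun x => abs_clamp_le hab.le (u x)) (S.fin _ _)) hab.le hc.le
    (fun x => clamp_le _ _ _) (nullMeasurableSet_le' hu.mu a)
    (fun x hx => (clamp_of_le hab.le hx).le) hμ

/-- Weak type `(p, p)` estimate. -/
lemma Setting.weak0 (S : Setting μ p) : ∃ C : ℝ≥0, ∀ (u : X → ℝ) (g : X → ℝ≥0∞),
    DG μ p u g → ∀ (a b c R : ℝ) (A : Set X), a < b → 0 < c → 0 < R → (∀ y ∈ A, b ≤ u y) →
      (∀ y ∈ A, ENNReal.ofReal c * μ (ball y R) ≤ μ (ball y R ∩ {z | u z ≤ a})) →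
      μ A ≤ C * ENNReal.ofReal ((R / (c * (b - a))) ^ p) *
        ∫⁻ z in thickening (S.lam * R) A ∩ {z | a < u z ∧ u z < b}, g z ^ p ∂μ := by
  have hp0 : 0 < p := zero_lt_one.trans hp.out
  obtain ⟨c₀, hc₀, H⟩ := S.core'
  have hlam : 0 < S.lam := zero_lt_one.trans_le S.one_le_lam
  refine ⟨S.Cd ^ 2 * Real.toNNReal (c₀⁻¹ ^ p), fun u g hu a b c R A hab hc hR hA hμ => ?_⟩
  have hba : 0 < b - a := sub_pos.2 hab
  have h1 := S.weak_cover (A := A) (N := thickening (S.lam * R) A) (R := S.lam * R) le_rfl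
    (K := ENNReal.ofReal (c₀⁻¹ ^ p) * ENNReal.ofReal ((R / (c * (b - a))) ^ p)) (L := 1)
    (fun z => ({z | a < u z ∧ u z < b}.indicator g z) ^ p) (by
      filter_upwards [H u g hu a b hab] with y hy hyA
      obtain ⟨i, hi⟩ := hy R c hR hc (hA y hyA) (hμ y hyA)
      have hle : S.lam * (R / 2 ^ i) ≤ S.lam * R := by
        gcongr
        exact div_le_self hR.le (one_le_pow₀ one_le_two)
      refine ⟨S.lam * (R / 2 ^ i), by positivity, hle,
        (ball_subset_ball hle).trans (ball_subset_thickening hyA _), ?_⟩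
      rw [ENNReal.rpow_one]
      refine le_trans ?_ (mul_le_mul_right hi _)
      rw [← mul_assoc]
      refine mul_le_mul_left ?_ _
      rw [← ENNReal.ofReal_mul (by positivity), ← ENNReal.ofReal_mul (by positivity),
        ← Real.mul_rpow (by positivity) (by positivity),
        ← Real.mul_rpow (by positivity) (by positivity), ENNReal.one_le_ofReal]
      refine Real.one_le_rpow ?_ hp0.le
      have : c₀⁻¹ * (R / (c * (b - a))) * (c₀ * (c * (b - a)) / R * (3 / 2) ^ i) = (3 / 2) ^ i := by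
        field_simp
      rw [this]
      exact one_le_pow₀ (by norm_num))
  rw [one_mul, ENNReal.rpow_one, lintegral_indicator_rpow hp0 (nullMeasurableSet_band hu.mu a b)]
    at h1
  refine h1.trans (le_of_eq ?_)
  push_cast
  rw [← mul_assoc]
  rfl

/-- Weak type estimate with a gain in the exponent. -/
lemma Setting.weak1 (S : Setting μ p) : ∃ (κ : ℝ) (C : ℝ≥0), 1 < κ ∧
    ∀ (u : X → ℝ) (g : X → ℝ≥0∞), DG μ p u g → ∀ (a b R : ℝ) (x : X) (A : Set X) (Y : ℝ≥0∞),
      a < b → 0 < R → A ⊆ ball x R → (∀ y ∈ A, b ≤ u y) →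
      (∀ y ∈ A, ENNReal.ofReal 2⁻¹ * μ (ball y R) ≤ μ (ball y R ∩ {z | u z ≤ a})) →
      ENNReal.ofReal ((R / (b - a)) ^ p) *
        ∫⁻ z in ball x ((1 + S.lam) * R) ∩ {z | a < u z ∧ u z < b}, g z ^ p ∂μ ≤
          Y * μ (ball x R) →
      μ A ≤ C * Y ^ κ * μ (ball x R) := by
  have hp0 : 0 < p := zero_lt_one.trans hp.out
  obtain ⟨c₀, hc₀, H⟩ := S.core'
  have hlam : 0 < S.lam := zero_lt_one.trans_le S.one_le_lam
  set ε : ℝ := Real.logb (S.Cd + 2) (3 / 2) with hε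
  have hCd2 : (1 : ℝ) < S.Cd + 2 := by linarith [S.Cd.coe_nonneg]
  have hε0 : 0 < ε := Real.logb_pos hCd2 (by norm_num)
  have hCε : (S.Cd : ℝ≥0∞) ^ ε ≤ ENNReal.ofReal (3 / 2) := by
    rw [← ENNReal.ofReal_coe_nnreal, ENNReal.ofReal_rpow_of_nonneg S.Cd.coe_nonneg hε0.le]
    refine ENNReal.ofReal_le_ofReal ?_
    calc (S.Cd : ℝ) ^ ε ≤ (S.Cd + 2 : ℝ) ^ ε := by gcongr; linarith
      _ = 3 / 2 := Real.rpow_logb (by linarith) hCd2.ne' (by norm_num)
  refine ⟨1 + ε, S.Cd ^ 2 * Real.toNNReal (3 / 2 * ((2 / c₀) ^ p) ^ (1 + ε)), by linarith,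
    fun u g hu a b R x A Y hab hR hAx hA hμ hY => ?_⟩
  have hba : 0 < b - a := sub_pos.2 hab
  set m := μ (ball x R) with hm
  have hm0 : m ≠ 0 := S.ne_zero x hR
  have hmt : m ≠ ⊤ := S.fin _ _
  set Q := ENNReal.ofReal ((R / (b - a)) ^ p) with hQ
  set C₁ := ENNReal.ofReal (3 / 2 * ((2 / c₀) ^ p) ^ (1 + ε)) with hC₁
  have h1 := S.weak_cover (A := A) (N := ball x ((1 + S.lam) * R)) (R := S.lam * R)
    (κ := 1 + ε) (by linarith) (K := C₁ * Q ^ (1 + ε)) (L := m ^ ε)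
    (fun z => ({z | a < u z ∧ u z < b}.indicator g z) ^ p) (by
      filter_upwards [H u g hu a b hab] with y hy hyA
      obtain ⟨i, hi⟩ := hy R 2⁻¹ hR (by norm_num) (hA y hyA) (hμ y hyA)
      have hle : S.lam * (R / 2 ^ i) ≤ S.lam * R := by
        gcongr
        exact div_le_self hR.le (one_le_pow₀ one_le_two)
      have hyx := mem_ball.1 (hAx hyA)
      refine ⟨S.lam * (R / 2 ^ i), by positivity, hle, ball_subset_ball' (by linarith), ?_⟩
      set μi := μ (ball y (S.lam * (R / 2 ^ i))) with hμi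
      set νi := ∫⁻ z in ball y (S.lam * (R / 2 ^ i)),
        ({z | a < u z ∧ u z < b}.indicator g z) ^ p ∂μ with hνi
      have hmi : m ≤ (S.Cd : ℝ≥0∞) ^ (i + 1) * μi := by
        calc m ≤ μ (ball y (2 ^ (i + 1) * (R / 2 ^ i))) := by
              refine measure_mono (ball_subset_ball' ?_)
              have : 2 ^ (i + 1) * (R / 2 ^ i) = 2 * R := by field_simp; ring
              rw [this, dist_comm]; linarith
          _ ≤ (S.Cd : ℝ≥0∞) ^ (i + 1) * μ (ball y (R / 2 ^ i)) := S.dbl_pow _ _ _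
          _ ≤ _ := by
              refine mul_le_mul_right (measure_mono (ball_subset_ball ?_)) _
              exact le_mul_of_one_le_left (by positivity) S.one_le_lam
      have h2 : m ^ ε * μi ≤ ENNReal.ofReal (3 / 2) ^ (i + 1) * μi ^ (1 + ε) := by
        calc m ^ ε * μi ≤ ((S.Cd : ℝ≥0∞) ^ (i + 1) * μi) ^ ε * μi := by gcongr
          _ = ((S.Cd : ℝ≥0∞) ^ ε) ^ (i + 1) * μi ^ (1 + ε) := by
              rw [ENNReal.mul_rpow_of_nonneg _ _ hε0.le,
                ENNReal.rpow_add_of_nonneg _ _ zero_le_one hε0.le, ENNReal.rpow_one,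
                ← ENNReal.rpow_natCast, ← ENNReal.rpow_natCast, ← ENNReal.rpow_mul,
                ← ENNReal.rpow_mul, mul_comm ε]
              ring
          _ ≤ _ := by gcongr
      refine h2.trans ?_
      set Ki := ENNReal.ofReal ((c₀ * (2⁻¹ * (b - a)) / R * (3 / 2) ^ i) ^ p) with hKi
      have h3 : ENNReal.ofReal (3 / 2) ^ (i + 1) ≤ C₁ * Q ^ (1 + ε) * Ki ^ (1 + ε) := by
        rw [hC₁, hQ, hKi, ENNReal.ofReal_rpow_of_nonneg (by positivity) (by linarith),
          ENNReal.ofReal_rpow_of_nonneg (by positivity) (by linarith),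
          ← ENNReal.ofReal_mul (by positivity), ← ENNReal.ofReal_mul (by positivity),
          ← ENNReal.ofReal_pow (by positivity)]
        refine ENNReal.ofReal_le_ofReal ?_
        rw [mul_assoc, mul_assoc, ← Real.mul_rpow (by positivity) (by positivity),
          ← Real.mul_rpow (by positivity) (by positivity),
          ← Real.mul_rpow (by positivity) (by positivity),
          ← Real.mul_rpow (by positivity) (by positivity), pow_succ']
        refine mul_le_mul_of_nonneg_left ?_ (by norm_num)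
        have : 2 / c₀ * (R / (b - a) * (c₀ * (2⁻¹ * (b - a)) / R * (3 / 2) ^ i)) = (3 / 2) ^ i := by
          field_simp
        rw [this, ← Real.rpow_mul (by positivity)]
        have h4 : (1 : ℝ) ≤ (3 / 2) ^ i := one_le_pow₀ (by norm_num)
        calc ((3 : ℝ) / 2) ^ i = ((3 / 2) ^ i) ^ (1 : ℝ) := (Real.rpow_one _).symm
          _ ≤ _ := Real.rpow_le_rpow_of_exponent_le h4 (by nlinarith [hp.out])
      calc ENNReal.ofReal (3 / 2) ^ (i + 1) * μi ^ (1 + ε)
          ≤ C₁ * Q ^ (1 + ε) * Ki ^ (1 + ε) * μi ^ (1 + ε) := by gcongr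
        _ = C₁ * Q ^ (1 + ε) * (Ki * μi) ^ (1 + ε) := by
            rw [ENNReal.mul_rpow_of_nonneg _ _ (by linarith)]; ring
        _ ≤ _ := by gcongr)
  rw [lintegral_indicator_rpow hp0 (nullMeasurableSet_band hu.mu a b)] at h1
  set ν := ∫⁻ z in ball x ((1 + S.lam) * R) ∩ {z | a < u z ∧ u z < b}, g z ^ p ∂μ
  have h5 : m ^ ε * μ A ≤ m ^ ε * ((S.Cd : ℝ≥0∞) ^ 2 * C₁ * Y ^ (1 + ε) * m) := by
    calc m ^ ε * μ A ≤ (S.Cd : ℝ≥0∞) ^ 2 * C₁ * (Q * ν) ^ (1 + ε) := by
          refine h1.trans (le_of_eq ?_)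
          rw [ENNReal.mul_rpow_of_nonneg _ _ (by linarith)]; ring
      _ ≤ (S.Cd : ℝ≥0∞) ^ 2 * C₁ * (Y * m) ^ (1 + ε) := by gcongr
      _ = _ := by
          rw [ENNReal.mul_rpow_of_nonneg _ _ (by linarith),
            ENNReal.rpow_add_of_nonneg (x := m) _ _ zero_le_one hε0.le, ENNReal.rpow_one]
          ring
  have h6 := (ENNReal.mul_le_mul_iff_right (ENNReal.rpow_pos (pos_iff_ne_zero.2 hm0) hmt).ne'
    (ENNReal.rpow_ne_top_of_nonneg hε0.le hmt)).1 h5
  refine h6.trans (le_of_eq ?_)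
  push_cast
  rfl

end Pool.Agent.MP_024e69_an

end

-- part MP_024e69_an.Cap
section

/-! Estimates for the variational capacity. -/

open MeasureTheory Metric Set Filter Topology
open scoped ENNReal NNReal

namespace Pool.Agent.MP_024e69_an

universe u
variable {X : Type u} [MetricSpace X] [MeasurableSpace X] [BorelSpace X]
variable {μ : Measure X} {p : ℝ}

lemma le_mul_of_forall_lt {a b K : ℝ≥0∞} (hK0 : K ≠ 0) (hK : K ≠ ⊤)
    (h : ∀ c, a < c → b ≤ K * c) : b ≤ K * a := by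
  rw [← ENNReal.div_le_iff' hK0 hK]
  exact le_of_forall_gt_imp_ge_of_dense fun c hc => (ENNReal.div_le_iff' hK0 hK).2 (h c hc)

omit [BorelSpace X] in
lemma Setting.far (S : Setting μ p) {R0 : ℝ} (hR0 : Nondeg X R0) : ∃ c : ℝ, 0 < c ∧
    ∀ (x y : X) (t : ℝ), 0 < t → t ≤ R0 → y ∈ ball x (2 * t) →
      ENNReal.ofReal c * μ (ball y (7 * t)) ≤ μ (ball y (7 * t) \ ball x (2 * t)) := by
  obtain ⟨C, hC1, hC⟩ := S.comp 13
  have hC0 : (0 : ℝ) < C := by exact_mod_cast zero_lt_one.trans_le hC1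
  refine ⟨(C : ℝ)⁻¹, by positivity, fun x y t ht htR hy => ?_⟩
  obtain ⟨z, hz1, hz2⟩ := hR0 x t ht htR
  have hyx := mem_ball.1 hy
  have hyz : dist y z < 6 * t := by linarith [dist_triangle_right y z x]
  have h1 := hC y z t (7 * t) ht (by linarith)
  have h2 : ball z t ⊆ ball y (7 * t) \ ball x (2 * t) := by
    intro w hw
    have hw' := mem_ball.1 hw
    refine ⟨mem_ball.2 (by linarith [dist_triangle_right w y z]), fun h => ?_⟩
    have := mem_ball.1 h
    linarith [dist_triangle_left z x w]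
  calc ENNReal.ofReal (C : ℝ)⁻¹ * μ (ball y (7 * t))
      ≤ ENNReal.ofReal (C : ℝ)⁻¹ * (C * μ (ball z t)) := by gcongr
    _ = μ (ball z t) := by
        rw [← mul_assoc, ENNReal.ofReal_inv_of_pos hC0, ENNReal.ofReal_coe_nnreal,
          ENNReal.inv_mul_cancel (by exact_mod_cast hC0.ne') ENNReal.coe_ne_top, one_mul]
    _ ≤ _ := measure_mono h2

variable [hp : Fact (1 < p)]

/-- Weak Poincare inequality for functions vanishing outside a ball. -/
lemma Setting.weakZ (S : Setting μ p) {R0 : ℝ} (hR0 : Nondeg X R0) : ∃ C : ℝ≥0, 1 ≤ C ∧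
    ∀ (u : X → ℝ) (g : X → ℝ≥0∞), DG μ p u g → ∀ (x : X) (t h : ℝ), 0 < t → t ≤ R0 → 0 < h →
      (∀ y ∉ ball x (2 * t), u y ≤ 0) →
      μ {y | h ≤ u y} ≤ C * ENNReal.ofReal ((t / h) ^ p) * ∫⁻ z, g z ^ p ∂μ := by
  obtain ⟨c, hc, hfar⟩ := S.far hR0
  obtain ⟨C, hC⟩ := S.weak0
  refine ⟨max 1 (C * Real.toNNReal ((7 / c) ^ p)), le_max_left _ _,
    fun u g hu x t h ht htR hh h0 => ?_⟩
  have h1 := hC u g hu 0 h c (7 * t) {y | h ≤ u y} hh hc (by positivity) (fun y hy => hy)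
    (fun y hy => by
      have hyb : y ∈ ball x (2 * t) := by
        by_contra hn
        have := h0 y hn
        have hy' : h ≤ u y := hy
        linarith
      exact (hfar x y t ht htR hyb).trans (measure_mono fun w hw => ⟨hw.1, h0 w hw.2⟩))
  refine h1.trans (mul_le_mul' ?_ (setLIntegral_le_lintegral _ _))
  have h2 : (7 * t / (c * (h - 0))) ^ p = (7 / c) ^ p * (t / h) ^ p := by
    rw [← Real.mul_rpow (by positivity) (by positivity)]
    congr 1
    rw [sub_zero]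
    field_simp
  rw [h2, ENNReal.ofReal_mul (by positivity), ← mul_assoc]
  refine mul_le_mul_left ?_ _
  rw [ENNReal.ofReal, ← ENNReal.coe_mul]
  exact ENNReal.coe_le_coe.2 (le_max_right _ _)

lemma varCap_empty (Ω : Set X) (hΩ : μ Ω ≠ ⊤) : varCap μ p ∅ Ω = 0 := by
  have hp0 : 0 < p := zero_lt_one.trans hp.out
  have := (DG.const (μ := μ) (p := p) 0).varCap_le (A := ∅) (Ω := Ω) (by simp) (by simp) hΩ
  simpa [hp0] using this

/-- A Mazya type capacitary estimate. -/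
lemma Setting.mazya (S : Setting μ p) {c : ℝ} (hc : 0 < c) (K : ℝ) : ∃ C : ℝ≥0, 1 ≤ C ∧
    ∀ (w : X → ℝ) (G : X → ℝ≥0∞), DG μ p w G → ∀ (T Ω : Set X) (s R : ℝ), 0 < s → 0 < R →
      R ≤ K * s → (∀ y ∈ T, 1 ≤ w y) →
      (∀ y ∈ thickening s T,
        ENNReal.ofReal c * μ (ball y R) ≤ μ (ball y R ∩ {z | w z ≤ 1 / 4})) →
      thickening s T ⊆ Ω → μ Ω ≠ ⊤ →
      varCap μ p T Ω ≤
        C * ∫⁻ z in thickening (s + S.lam * R) T ∩ {z | 1 / 4 < w z}, G z ^ p ∂μ := by
  have hp0 : 0 < p := zero_lt_one.trans hp.out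
  obtain ⟨C, hC⟩ := S.weak0
  have hlam : 0 < S.lam := zero_lt_one.trans_le S.one_le_lam
  set C1 : ℝ≥0 := 2 ^ (p - 1) * (C * Real.toNNReal ((4 * K / c) ^ p) + 2 ^ p) with hC1
  refine ⟨max 1 C1, le_max_left _ _, fun w G hw T Ω s R hs hR hRK hT hdens hΩ hΩf => ?_⟩
  rcases T.eq_empty_or_nonempty with rfl | hTne
  · rw [varCap_empty Ω hΩf]; exact zero_le
  have hK : 0 < K := by
    by_contra hK
    nlinarith
  set N := thickening s T with hN
  have hNm : MeasurableSet N := isOpen_thickening.measurableSet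
  set I := ∫⁻ z in thickening (s + S.lam * R) T ∩ {z | 1 / 4 < w z}, G z ^ p ∂μ with hI
  set band := {z | 1 / 2 < w z ∧ w z < 1} with hband
  have hbm : NullMeasurableSet band μ := nullMeasurableSet_band hw.mu _ _
  set A := N ∩ {z | 1 / 2 ≤ w z} with hA
  have hAm : NullMeasurableSet A μ := hNm.nullMeasurableSet.inter
    (hw.mu.nullMeasurableSet_preimage (measurableSet_Ici (a := (1 / 2 : ℝ))))
  have hw2 := (hw.clamp (a := 1 / 2) (b := 1) (by norm_num)).affine 2 (-1)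
  have hcut := DG.cut (μ := μ) (p := p) T hs
  have hprod := hcut.mul hw2
  set G1 : X → ℝ≥0∞ := A.indicator fun _ => ENNReal.ofReal s⁻¹ with hG1
  set G2 : X → ℝ≥0∞ := (N ∩ band).indicator fun z => 2 * G z with hG2
  have hG1m : AEMeasurable G1 μ := aemeasurable_const.indicator₀ hAm
  have hG2m : AEMeasurable G2 μ :=
    (hw.mg.const_mul _).indicator₀ (hNm.nullMeasurableSet.inter hbm)
  have hW : DG μ p (fun z => cut T s z * (2 * clamp (1 / 2) 1 (w z) + -1))
      (fun z => G1 z + G2 z) := by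
    refine hprod.glue₂ (DG.const 0) hprod.mu hprod.ac (hG1m.add hG2m) fun z => Or.inr ?_
    by_cases hz : z ∈ N
    · by_cases hz2 : 1 / 2 ≤ w z
      · refine Or.inl ⟨rfl, add_le_add ?_ ?_⟩
        · rw [hG1, indicator_of_mem (show z ∈ A from ⟨hz, hz2⟩)]
          refine mul_le_of_le_one_left' ?_
          rw [← ofReal_norm, ENNReal.ofReal_le_one, Real.norm_eq_abs, abs_le]
          constructor
          · linarith [le_clamp (a := 1 / 2) (b := 1) (by norm_num) (w z)]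
          · linarith [clamp_le (1 / 2) 1 (w z)]
        · have h1 : ‖cut T s z‖ₑ ≤ 1 := by
            rw [← ofReal_norm, ENNReal.ofReal_le_one, Real.norm_eq_abs,
              abs_of_nonneg (cut_nonneg _ _ _)]
            exact cut_le_one _ hs _
          refine (mul_le_of_le_one_left' h1).trans ?_
          by_cases hzb : z ∈ band
          · rw [hG2, indicator_of_mem (show z ∈ N ∩ band from ⟨hz, hzb⟩), indicator_of_mem hzb]
            simp [Real.enorm_eq_ofReal]
          · rw [indicator_of_notMem hzb]; simp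
      · refine Or.inr ⟨?_, zero_le⟩
        rw [clamp_of_le (by norm_num) (le_of_not_ge hz2)]; ring
    · refine Or.inr ⟨?_, zero_le⟩
      rw [cut_of_notMem hTne hs hz, zero_mul]
  have h1 := hW.varCap_le (A := T) (Ω := Ω)
    (fun y hy => by rw [cut_of_mem s hy, clamp_of_ge (hT y hy)]; norm_num)
    (fun y hy => by rw [cut_of_notMem hTne hs fun h => hy (hΩ h), zero_mul]) hΩf
  have h2 : μ A ≤ C * ENNReal.ofReal ((R / (c * (1 / 2 - 1 / 4))) ^ p) * I := by
    refine (hC w G hw (1 / 4) (1 / 2) c R A (by norm_num) hc hR (fun y hy => hy.2)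
      (fun y hy => hdens y hy.1)).trans (mul_le_mul_right (lintegral_mono_set ?_) _)
    refine inter_subset_inter ?_ fun z hz => hz.1
    rw [add_comm]
    exact (thickening_subset_of_subset _ inter_subset_left).trans
      (thickening_thickening_subset _ _ _)
  have h3 : ∫⁻ z, G1 z ^ p ∂μ ≤ C * ENNReal.ofReal ((4 * K / c) ^ p) * I := by
    have := lintegral_indicator_rpow hp0 hAm (fun _ => ENNReal.ofReal s⁻¹) univ
    rw [Measure.restrict_univ, univ_inter, setLIntegral_const] at this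
    rw [hG1, this]
    calc ENNReal.ofReal s⁻¹ ^ p * μ A
        ≤ ENNReal.ofReal s⁻¹ ^ p * (C * ENNReal.ofReal ((R / (c * (1 / 2 - 1 / 4))) ^ p) * I) := by
          gcongr
      _ = C * (ENNReal.ofReal s⁻¹ ^ p * ENNReal.ofReal ((R / (c * (1 / 2 - 1 / 4))) ^ p)) * I := by
          ring
      _ ≤ _ := by
          gcongr
          rw [ENNReal.ofReal_rpow_of_nonneg (by positivity) hp0.le,
            ← ENNReal.ofReal_mul (by positivity), ← Real.mul_rpow (by positivity) (by positivity)]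
          refine ENNReal.ofReal_le_ofReal (Real.rpow_le_rpow (by positivity) ?_ hp0.le)
          rw [show s⁻¹ * (R / (c * (1 / 2 - 1 / 4))) = 4 * (R / s) / c by field_simp; ring]
          gcongr
          rwa [div_le_iff₀ hs]
  have h4 : ∫⁻ z, G2 z ^ p ∂μ ≤ 2 ^ p * I := by
    have := lintegral_indicator_rpow hp0 (hNm.nullMeasurableSet.inter hbm) (fun z => 2 * G z) univ
    rw [Measure.restrict_univ, univ_inter] at this
    rw [hG2, this]
    simp only [ENNReal.mul_rpow_of_nonneg _ _ hp0.le]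
    rw [lintegral_const_mul' _ _ (ENNReal.rpow_ne_top_of_nonneg hp0.le (by simp))]
    refine mul_le_mul_right (lintegral_mono_set (inter_subset_inter ?_ fun z hz => ?_)) _
    · exact thickening_mono (by nlinarith) _
    · have : 1 / 2 < w z := hz.1
      show 1 / 4 < w z
      linarith
  calc varCap μ p T Ω ≤ ∫⁻ z, (G1 z + G2 z) ^ p ∂μ := h1
    _ ≤ ∫⁻ z, 2 ^ (p - 1) * (G1 z ^ p + G2 z ^ p) ∂μ :=
        lintegral_mono fun z => ENNReal.rpow_add_le_mul_rpow_add_rpow _ _ hp.out.le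
    _ = 2 ^ (p - 1) * (∫⁻ z, G1 z ^ p ∂μ + ∫⁻ z, G2 z ^ p ∂μ) := by
        rw [lintegral_const_mul' _ _ (ENNReal.rpow_ne_top_of_nonneg (by linarith [hp.out]) (by simp)),
          lintegral_add_left' (hG1m.pow_const _)]
    _ ≤ 2 ^ (p - 1) * (C * ENNReal.ofReal ((4 * K / c) ^ p) * I + 2 ^ p * I) := by gcongr
    _ = C1 * I := by
        rw [hC1]
        push_cast
        rw [ENNReal.coe_rpow_of_nonneg _ (by linarith [hp.out]),
          ENNReal.coe_rpow_of_nonneg _ hp0.le]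
        simp only [ENNReal.coe_ofNat, ENNReal.ofReal]
        ring
    _ ≤ _ := by
        gcongr
        exact_mod_cast le_max_right _ _

lemma varCap_le_cut {T Ω : Set X} {s : ℝ} (hs : 0 < s) (hΩ : thickening s T ⊆ Ω) (hΩf : μ Ω ≠ ⊤) :
    varCap μ p T Ω ≤ ENNReal.ofReal (s⁻¹ ^ p) * μ Ω := by
  have hp0 : 0 < p := zero_lt_one.trans hp.out
  rcases T.eq_empty_or_nonempty with rfl | hTne
  · rw [varCap_empty Ω hΩf]; exact zero_le
  have hNm : MeasurableSet (thickening s T) := isOpen_thickening.measurableSet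
  have hcut := DG.cut (μ := μ) (p := p) T hs
  have hW : DG μ p (cut T s) ((thickening s T).indicator fun _ => ENNReal.ofReal s⁻¹) := by
    refine hcut.glue₂ (DG.const 0) hcut.mu hcut.ac
      (measurable_const.indicator hNm).aemeasurable fun z => Or.inr ?_
    by_cases hz : z ∈ thickening s T
    · exact Or.inl ⟨rfl, by simp [hz]⟩
    · exact Or.inr ⟨cut_of_notMem hTne hs hz, zero_le⟩
  refine (hW.varCap_le (fun y hy => (cut_of_mem s hy).ge)
    (fun y hy => (cut_of_notMem hTne hs fun h => hy (hΩ h)).le) hΩf).trans ?_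
  have := lintegral_indicator_rpow (μ := μ) hp0 hNm.nullMeasurableSet
    (fun _ => ENNReal.ofReal s⁻¹) univ
  rw [Measure.restrict_univ, univ_inter, setLIntegral_const] at this
  rw [this, ENNReal.ofReal_rpow_of_nonneg (by positivity) hp0.le]
  gcongr

lemma Setting.varCap_ball_le (S : Setting μ p) {E : Set X} {x : X} {r : ℝ} (hr : 0 < r)
    (hE : E ⊆ ball x r) :
    varCap μ p E (ball x (2 * r)) ≤ ENNReal.ofReal (r⁻¹ ^ p) * μ (ball x (2 * r)) :=
  varCap_le_cut hr (by rw [two_mul]; exact thickening_subset_ball hE) (S.fin _ _)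

lemma Setting.varCap_ball_ne_top (S : Setting μ p) {E : Set X} {x : X} {r : ℝ} (hr : 0 < r)
    (hE : E ⊆ ball x r) : varCap μ p E (ball x (2 * r)) ≠ ⊤ :=
  ne_top_of_le_ne_top (ENNReal.mul_ne_top ENNReal.ofReal_ne_top (S.fin _ _))
    (S.varCap_ball_le hr hE)

lemma Setting.measure_le_cap (S : Setting μ p) {R0 : ℝ} (hR0 : Nondeg X R0) : ∃ C : ℝ≥0, 1 ≤ C ∧
    ∀ (A : Set X) (x : X) (t : ℝ), 0 < t → t ≤ R0 →
      μ A ≤ C * ENNReal.ofReal (t ^ p) * varCap μ p A (ball x (2 * t)) := by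
  obtain ⟨C, hC1, hC⟩ := S.weakZ hR0
  refine ⟨C, hC1, fun A x t ht htR => le_mul_of_forall_lt ?_ ?_ fun c hc => ?_⟩
  · refine mul_ne_zero ?_ (ENNReal.ofReal_pos.2 (by positivity)).ne'
    exact_mod_cast (zero_lt_one.trans_le hC1).ne'
  · exact ENNReal.mul_ne_top ENNReal.coe_ne_top ENNReal.ofReal_ne_top
  obtain ⟨u, g, H, hlt⟩ := exists_adm hc
  have := hC u g H.dg x t 1 ht htR one_pos fun y hy => (H.zero y hy).le
  rw [div_one] at this
  refine (measure_mono fun y hy => (H.one y hy).ge).trans (this.trans ?_)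
  gcongr

lemma varCap_union_le (A B Ω : Set X) (hΩ : μ Ω ≠ ⊤) :
    varCap μ p (A ∪ B) Ω ≤ varCap μ p A Ω + varCap μ p B Ω := by
  refine ENNReal.le_of_forall_pos_le_add fun ε hε hfin => ?_
  obtain ⟨hA, hB⟩ := ENNReal.add_lt_top.1 hfin
  have hε2 : (ε : ℝ≥0∞) / 2 ≠ 0 := by simpa using hε.ne'
  obtain ⟨u, g, H1, hlt1⟩ := exists_adm (ENNReal.lt_add_right hA.ne hε2)
  obtain ⟨v, h, H2, hlt2⟩ := exists_adm (ENNReal.lt_add_right hB.ne hε2)
  have hW := H1.dg.max_le H2.dg (H1.dg.mg.max H2.dg.mg) (fun x _ => le_max_left _ _)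
    (fun x _ => le_max_right _ _)
  refine (hW.varCap_le (A := A ∪ B) (Ω := Ω) ?_ ?_ hΩ).trans ?_
  · rintro x (hx | hx)
    · exact (H1.one x hx).ge.trans (le_max_left _ _)
    · exact (H2.one x hx).ge.trans (le_max_right _ _)
  · exact fun x hx => max_le (H1.zero x hx).le (H2.zero x hx).le
  calc ∫⁻ x, (max (g x) (h x)) ^ p ∂μ ≤ ∫⁻ x, (g x ^ p + h x ^ p) ∂μ := by
        refine lintegral_mono fun x => ?_
        rcases le_total (g x) (h x) with k | k
        · rw [max_eq_right k]; exact le_add_self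
        · rw [max_eq_left k]; exact le_self_add
    _ = ∫⁻ x, g x ^ p ∂μ + ∫⁻ x, h x ^ p ∂μ := lintegral_add_left' (H1.dg.mg.pow_const _) _
    _ ≤ (varCap μ p A Ω + ε / 2) + (varCap μ p B Ω + ε / 2) := add_le_add hlt1.le hlt2.le
    _ = _ := by
        rw [add_add_add_comm, ENNReal.add_halves]

lemma Setting.shrink (S : Setting μ p) {R0 : ℝ} (hR0 : Nondeg X R0) (K : ℝ) :
    ∃ C : ℝ≥0, 1 ≤ C ∧ ∀ (E : Set X) (x : X) (ρ t : ℝ), 0 < ρ → ρ ≤ t → t ≤ K * ρ → t ≤ R0 →
      varCap μ p (E ∩ ball x ρ) (ball x (2 * ρ)) ≤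
        C * varCap μ p (E ∩ ball x t) (ball x (2 * t)) := by
  obtain ⟨c, hc, hfar⟩ := S.far hR0
  obtain ⟨C, hC1, hC⟩ := S.mazya hc (7 * K)
  refine ⟨C, hC1, fun E x ρ t hρ hρt htK htR => le_mul_of_forall_lt ?_ ENNReal.coe_ne_top
    fun a ha => ?_⟩
  · exact_mod_cast (zero_lt_one.trans_le hC1).ne'
  obtain ⟨u, g, H, hlt⟩ := exists_adm ha
  have ht : 0 < t := hρ.trans_le hρt
  have hth : thickening ρ (E ∩ ball x ρ) ⊆ ball x (2 * ρ) := by
    rw [two_mul]; exact thickening_subset_ball inter_subset_right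
  refine (hC u g H.dg (E ∩ ball x ρ) (ball x (2 * ρ)) ρ (7 * t) hρ (by positivity) (by linarith)
    (fun y hy => (H.one y ⟨hy.1, ball_subset_ball hρt hy.2⟩).ge) (fun y hy => ?_) hth
    (S.fin _ _)).trans (mul_le_mul_right ((setLIntegral_le_lintegral _ _).trans hlt.le) _)
  refine (hfar x y t ht htR (ball_subset_ball (by linarith) (hth hy))).trans
    (measure_mono fun w hw => ⟨hw.1, ?_⟩)
  show u w ≤ 1 / 4
  rw [H.zero w hw.2]; norm_num

lemma Setting.varCap_of_sobolevCap (S : Setting μ p) {E : Set X} (hE : sobolevCap μ p E = 0)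
    (x : X) {r : ℝ} (hr : 0 < r) : varCap μ p (E ∩ ball x r) (ball x (2 * r)) = 0 := by
  have hp0 : 0 < p := zero_lt_one.trans hp.out
  set K : ℝ≥0∞ := 2 ^ (p - 1) * (ENNReal.ofReal r⁻¹ ^ p + 1) with hK
  have hK0 : K ≠ 0 := mul_ne_zero (ENNReal.rpow_pos (by simp) (by simp)).ne' (by simp)
  have hKt : K ≠ ⊤ := ENNReal.mul_ne_top
    (ENNReal.rpow_ne_top_of_nonneg (by linarith [hp.out]) (by simp))
    (by simp [ENNReal.rpow_ne_top_of_nonneg hp0.le])
  have main : varCap μ p (E ∩ ball x r) (ball x (2 * r)) ≤ K * sobolevCap μ p E := by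
    refine le_mul_of_forall_lt hK0 hKt fun c hc => ?_
    obtain ⟨u, g, H, h1, h2⟩ := exists_of_sobolevCap hc
    have hcut := DG.cut (μ := μ) (p := p) (ball x r) hr
    have hm : AEMeasurable (fun z => ENNReal.ofReal r⁻¹ * ENNReal.ofReal (u z)) μ :=
      H.dg.mu.ennreal_ofReal.const_mul _
    have hW := (hcut.mul H.dg).mono (hm.add H.dg.mg) fun z => by
      refine add_le_add ?_ ?_
      · rw [mul_comm, Real.enorm_eq_ofReal (H.nonneg z)]
      · refine mul_le_of_le_one_left' ?_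
        rw [Real.enorm_eq_ofReal (cut_nonneg _ _ _), ENNReal.ofReal_le_one]
        exact cut_le_one _ hr _
    refine (hW.varCap_le (A := E ∩ ball x r) (Ω := ball x (2 * r))
      (fun y hy => by rw [cut_of_mem r hy.2, H.one y hy.1]; norm_num)
      (fun y hy => ?_) (S.fin _ _)).trans ?_
    · rw [cut_of_notMem (nonempty_ball.2 hr) hr, zero_mul]
      exact fun h => hy (by rw [two_mul]; exact thickening_subset_ball subset_rfl h)
    calc _ ≤ ∫⁻ z, 2 ^ (p - 1) *
          ((ENNReal.ofReal r⁻¹ * ENNReal.ofReal (u z)) ^ p + g z ^ p) ∂μ :=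
          lintegral_mono fun z => ENNReal.rpow_add_le_mul_rpow_add_rpow _ _ hp.out.le
      _ = 2 ^ (p - 1) * (ENNReal.ofReal r⁻¹ ^ p * ∫⁻ z, ENNReal.ofReal (u z) ^ p ∂μ +
          ∫⁻ z, g z ^ p ∂μ) := by
          rw [lintegral_const_mul' _ _
            (ENNReal.rpow_ne_top_of_nonneg (by linarith [hp.out]) (by simp)),
            lintegral_add_left' (hm.pow_const _)]
          simp only [ENNReal.mul_rpow_of_nonneg _ _ hp0.le]
          rw [lintegral_const_mul' _ _ (ENNReal.rpow_ne_top_of_nonneg hp0.le (by simp))]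
      _ ≤ 2 ^ (p - 1) * (ENNReal.ofReal r⁻¹ ^ p * c + c) := by gcongr
      _ = K * c := by rw [hK]; ring
  rw [hE, mul_zero] at main
  exact le_antisymm main zero_le

/-- A set is negligible if it is null and almost every curve avoids it. -/
def Negl (μ : Measure X) (p : ℝ) [Fact (1 < p)] (A : Set X) : Prop :=
  μ A = 0 ∧ ∀ᶠ γ in aeC μ p, ∀ τ ∈ Icc γ.a γ.b, γ.toFun τ ∉ A

omit [BorelSpace X] in
lemma Negl.mono {A B : Set X} (h : Negl μ p B) (hAB : A ⊆ B) : Negl μ p A :=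
  ⟨measure_mono_null hAB h.1, h.2.mono fun _ hγ τ hτ hA => hγ τ hτ (hAB hA)⟩

omit [BorelSpace X] in
lemma Negl.iUnion {ι : Type*} [Countable ι] {A : ι → Set X} (h : ∀ i, Negl μ p (A i)) :
    Negl μ p (⋃ i, A i) := by
  refine ⟨measure_iUnion_null fun i => (h i).1, ?_⟩
  filter_upwards [eventually_countable_forall.2 fun i => (h i).2] with γ hγ τ hτ hmem
  obtain ⟨i, hi⟩ := mem_iUnion.1 hmem
  exact hγ i τ hτ hi

lemma Setting.negl_of_cap (S : Setting μ p) {R0 : ℝ} (hR0 : Nondeg X R0) {A : Set X} {x : X}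
    {t : ℝ} (ht : 0 < t) (htR : t ≤ R0) (hA : varCap μ p A (ball x (2 * t)) = 0) :
    Negl μ p A := by
  have hp0 : 0 < p := zero_lt_one.trans hp.out
  obtain ⟨C, -, hC⟩ := S.measure_le_cap hR0
  obtain ⟨CZ, -, hZ⟩ := S.weakZ hR0
  refine ⟨by simpa [hA] using hC A x t ht htR, ?_⟩
  have : ∀ n : ℕ, ∃ u g, Adm μ p A (ball x (2 * t)) u g ∧
      ∫⁻ x, g x ^ p ∂μ < (2⁻¹ : ℝ≥0∞) ^ n / (n + 1) ^ p := by
    intro n
    refine exists_adm ?_
    rw [hA]
    exact ENNReal.div_pos (by simp) (ENNReal.rpow_ne_top_of_nonneg hp0.le (by simp))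
  choose u g H hsmall using this
  have hle : ∀ n : ℕ, ∫⁻ x, ((n + 1) * g n x) ^ p ∂μ ≤ (2⁻¹ : ℝ≥0∞) ^ n := by
    intro n
    simp only [ENNReal.mul_rpow_of_nonneg _ _ hp0.le]
    have ht : ((n : ℝ≥0∞) + 1) ^ p ≠ ⊤ := ENNReal.rpow_ne_top_of_nonneg hp0.le (by simp)
    rw [lintegral_const_mul' _ _ ht]
    calc ((n : ℝ≥0∞) + 1) ^ p * ∫⁻ x, g n x ^ p ∂μ
        ≤ ((n : ℝ≥0∞) + 1) ^ p * ((2⁻¹ : ℝ≥0∞) ^ n / (n + 1) ^ p) := by
          gcongr; exact (hsmall n).le
      _ ≤ _ := ENNReal.mul_div_le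
  set R : X → ℝ≥0∞ := fun z => (∑' n : ℕ, ((n + 1) * g n z) ^ p) ^ p⁻¹ with hR
  have hgm : ∀ n : ℕ, AEMeasurable (fun z => (((n : ℝ≥0∞) + 1) * g n z) ^ p) μ := fun n =>
    ((H n).dg.mg.const_mul _).pow_const _
  have hRm : AEMeasurable R μ := (AEMeasurable.tsum hgm).pow_const _
  have hRf : ∫⁻ z, R z ^ p ∂μ ≠ ⊤ := by
    simp only [hR, ENNReal.rpow_inv_rpow hp0.ne']
    rw [lintegral_tsum hgm]
    exact ne_top_of_le_ne_top (b := ∑' n, (2⁻¹ : ℝ≥0∞) ^ n) (by simp) (ENNReal.tsum_le_tsum hle)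
  have hRle : ∀ (n : ℕ) z, (n + 1) * g n z ≤ R z := fun n z =>
    calc (n + 1) * g n z = (((n + 1) * g n z) ^ p) ^ p⁻¹ := (ENNReal.rpow_rpow_inv hp0.ne' _).symm
      _ ≤ _ := ENNReal.rpow_le_rpow (ENNReal.le_tsum (f := fun n : ℕ => ((n + 1) * g n z) ^ p) n)
          (inv_nonneg.2 hp0.le)
  have hN : ∀ m : ℕ, μ {y | ∀ n ≥ m, 1 / 2 ≤ u n y} = 0 := by
    intro m
    set K := CZ * ENNReal.ofReal ((t / (1 / 2)) ^ p) with hK
    have hKt : K ≠ ⊤ := ENNReal.mul_ne_top ENNReal.coe_ne_top ENNReal.ofReal_ne_top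
    have hlim : Tendsto (fun n : ℕ => K * (2⁻¹ : ℝ≥0∞) ^ n) atTop (𝓝 (K * 0)) :=
      ENNReal.Tendsto.const_mul (ENNReal.tendsto_pow_atTop_nhds_zero_of_lt_one (by norm_num))
        (Or.inr hKt)
    rw [mul_zero] at hlim
    refine le_antisymm (ge_of_tendsto hlim ?_) zero_le
    filter_upwards [eventually_ge_atTop m] with n hn
    have hsub : {y | ∀ n ≥ m, 1 / 2 ≤ u n y} ⊆ {y | 1 / 2 ≤ u n y} := fun y hy => hy n hn
    refine (measure_mono hsub).trans
      ((hZ (u n) (g n) (H n).dg x t (1 / 2) ht htR (by norm_num)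
        fun y hy => ((H n).zero y hy).le).trans (mul_le_mul_right ?_ _))
    refine le_trans (lintegral_mono fun z => ?_) (hle n)
    refine ENNReal.rpow_le_rpow ?_ hp0.le
    exact le_mul_of_one_le_left' le_add_self
  have hN' : ∀ᵐ y ∂μ, ∀ m : ℕ, ¬ ∀ n ≥ m, 1 / 2 ≤ u n y :=
    ae_all_iff.2 fun m => measure_eq_zero_iff_ae_notMem.1 (hN m)
  filter_upwards [aeC_fin hRm hRf, aeC_of_ae (p := p) hN',
    eventually_countable_forall.2 fun n => (H n).dg.ac,
    eventually_countable_forall.2 fun n => (H n).dg.le] with γ h1 h2 h3 h4 τ hτ hmem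
  obtain ⟨m, hm⟩ := ENNReal.exists_nat_gt (ENNReal.mul_ne_top (a := 2) (by simp) h1)
  have hall : ∀ σ ∈ Icc γ.a γ.b, ∀ n ≥ m, 1 / 2 ≤ u n (γ.toFun σ) := by
    intro σ hσ n hn
    have h5 : ‖u n (γ.toFun σ) - u n (γ.toFun τ)‖ₑ ≤ lineIntegral γ (g n) := by
      rcases le_total τ σ with h | h
      · exact (ctrl_of_ac (h3 n) (h4 n) hτ.1 h hσ.2).trans
          (lintegral_mono_set (Icc_subset_Icc hτ.1 hσ.2))
      · rw [← enorm_neg, neg_sub]
        exact (ctrl_of_ac (h3 n) (h4 n) hσ.1 h hτ.2).trans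
          (lintegral_mono_set (Icc_subset_Icc hσ.1 hτ.2))
    have h6 := lineIntegral_mono γ (hRle n)
    rw [lineIntegral_const_mul γ (by simp)] at h6
    have h7 : lineIntegral γ (g n) ≤ ENNReal.ofReal (1 / 2) := by
      have h8 : ((n : ℝ≥0∞) + 1) * (2 * lineIntegral γ (g n)) ≤ (n + 1) * 1 := by
        calc ((n : ℝ≥0∞) + 1) * (2 * lineIntegral γ (g n))
            = 2 * ((n + 1) * lineIntegral γ (g n)) := by ring
          _ ≤ 2 * lineIntegral γ R := by gcongr
          _ ≤ m := hm.le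
          _ ≤ n := by exact_mod_cast hn
          _ ≤ _ := by simp
      have h9 := (ENNReal.mul_le_mul_iff_right (by simp) (by simp)).1 h8
      rw [ENNReal.ofReal_div_of_pos (by norm_num), ENNReal.le_div_iff_mul_le (by simp) (by simp)]
      simpa [mul_comm] using h9
    have h10 := h5.trans h7
    rw [(H n).one _ hmem, ← ofReal_norm, ENNReal.ofReal_le_ofReal_iff (by norm_num),
      Real.norm_eq_abs, abs_le] at h10
    linarith [h10.1]
  have hvol : volume (Icc γ.a γ.b) ≠ 0 := by simp [γ.lt]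
  obtain ⟨σ, hσ, hσ'⟩ := Measure.exists_mem_of_measure_ne_zero_of_ae hvol h2
  exact hσ' m (hall σ hσ)

end Pool.Agent.MP_024e69_an

end

-- part MP_024e69_an.Thin
section

/-! Thinness in terms of dyadic sums. -/

open MeasureTheory Metric Set Filter Topology
open scoped ENNReal NNReal

namespace Pool.Agent.MP_024e69_an

universe u
variable {X : Type u} [MetricSpace X] [MeasurableSpace X] [BorelSpace X]
variable {μ : Measure X} {p : ℝ} [hp : Fact (1 < p)]

omit hp in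
lemma div_le_mul_div {a b c d C : ℝ≥0∞} (hb0 : b ≠ 0) (hbt : b ≠ ⊤) (hd0 : d ≠ 0) (hdt : d ≠ ⊤)
    (h : a * d ≤ C * c * b) : a / b ≤ C * (c / d) := by
  rw [ENNReal.div_le_iff hb0 hbt, ← mul_div_assoc, ← ENNReal.mul_div_right_comm,
    ENNReal.le_div_iff_mul_le (Or.inl hd0) (Or.inl hdt)]
  exact h

omit hp in
lemma tsum_ne_top_of_tail {f : ℕ → ℝ≥0∞} (hf : ∀ n, f n ≠ ⊤) (k : ℕ)
    (h : ∑' n, f (n + k) ≠ ⊤) : ∑' n, f n ≠ ⊤ := by
  rw [← (ENNReal.summable (f := fun n => f (n + k))).sum_add_tsum_nat_add']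
  exact ENNReal.add_ne_top.2 ⟨ENNReal.sum_ne_top.2 fun n _ => hf n, h⟩

omit hp in
lemma add_rpow_le {a b : ℝ≥0∞} {q : ℝ} (hq : 0 ≤ q) : (a + b) ^ q ≤ 2 ^ q * (a ^ q + b ^ q) := by
  rcases le_total a b with h | h
  · calc (a + b) ^ q ≤ (2 * b) ^ q := by gcongr; rw [two_mul]; gcongr
      _ = 2 ^ q * b ^ q := ENNReal.mul_rpow_of_nonneg _ _ hq
      _ ≤ _ := by gcongr; exact le_add_self
  · calc (a + b) ^ q ≤ (2 * a) ^ q := by gcongr; rw [two_mul]; gcongr
      _ = 2 ^ q * a ^ q := ENNReal.mul_rpow_of_nonneg _ _ hq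
      _ ≤ _ := by gcongr; exact le_self_add

/-- The normalised capacity. -/
noncomputable def ncap (μ : Measure X) (p : ℝ) (E : Set X) (x : X) (t : ℝ) : ℝ≥0∞ :=
  ENNReal.ofReal (t ^ p) * varCap μ p (E ∩ ball x t) (ball x (2 * t)) / μ (ball x t)

lemma Setting.ncap_ne_top (S : Setting μ p) (E : Set X) (x : X) {t : ℝ} (ht : 0 < t) :
    ncap μ p E x t ≠ ⊤ :=
  ENNReal.div_ne_top (ENNReal.mul_ne_top ENNReal.ofReal_ne_top
    (S.varCap_ball_ne_top ht inter_subset_right)) (S.ne_zero x ht)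

omit [BorelSpace X] hp in
lemma ncap_mono {E F : Set X} (h : E ⊆ F) (x : X) (t : ℝ) : ncap μ p E x t ≤ ncap μ p F x t := by
  unfold ncap
  gcongr
  exact varCap_mono (inter_subset_inter_left _ h) subset_rfl

omit [BorelSpace X] hp in
lemma Setting.ncap_mul (S : Setting μ p) (E : Set X) (x : X) {t : ℝ} (ht : 0 < t) :
    ncap μ p E x t * μ (ball x t) =
      ENNReal.ofReal (t ^ p) * varCap μ p (E ∩ ball x t) (ball x (2 * t)) :=
  ENNReal.div_mul_cancel (S.ne_zero x ht) (S.fin _ _)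

omit [BorelSpace X] in
lemma wienerTerm_le_one (E : Set X) (x : X) (t : ℝ) : wienerTerm μ p E x t ≤ 1 := by
  unfold wienerTerm
  split_ifs
  · exact le_rfl
  · refine ENNReal.rpow_le_one (ENNReal.div_le_of_le_mul ?_)
      (by have := hp.out; positivity)
    rw [one_mul]
    exact varCap_mono inter_subset_right subset_rfl

lemma Setting.wiener_cmp (S : Setting μ p) {R0 : ℝ} (hR0 : Nondeg X R0) : ∃ C : ℝ≥0∞, C ≠ ⊤ ∧
    ∀ (E : Set X) (x : X) (ρ t : ℝ), 0 < ρ → ρ ≤ t → t ≤ 2 * ρ → t ≤ R0 →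
      ncap μ p E x ρ ^ (1 / (p - 1)) ≤ C * wienerTerm μ p E x t ∧
      wienerTerm μ p E x ρ ≤ C * ncap μ p E x t ^ (1 / (p - 1)) := by
  have hp1 : 1 < p := hp.out
  have hp0 : 0 < p := by linarith
  have hq : 0 ≤ 1 / (p - 1) := by have : 0 < p - 1 := by linarith
                                  positivity
  obtain ⟨Cs, -, hs⟩ := S.shrink hR0 2
  obtain ⟨Cm, -, hm⟩ := S.measure_le_cap hR0
  have hden : ∀ (x : X) (t : ℝ), 0 < t → t ≤ R0 → varCap μ p (ball x t) (ball x (2 * t)) ≠ 0 := by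
    intro x t ht htR h
    have := hm (ball x t) x t ht htR
    rw [h, mul_zero] at this
    exact S.ne_zero x ht (le_antisymm this zero_le)
  refine ⟨(Cs * ((S.Cd : ℝ≥0∞) ^ 2 + Cm * S.Cd)) ^ (1 / (p - 1)),
    ENNReal.rpow_ne_top_of_nonneg hq (by finiteness), fun E x ρ t hρ hρt ht2 htR => ⟨?_, ?_⟩⟩
  · have ht : 0 < t := hρ.trans_le hρt
    unfold wienerTerm ncap
    rw [if_neg (hden x t ht htR), ← ENNReal.mul_rpow_of_nonneg _ _ hq]
    refine ENNReal.rpow_le_rpow (div_le_mul_div (S.ne_zero x hρ) (S.fin _ _) (hden x t ht htR)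
      (S.varCap_ball_ne_top ht subset_rfl) ?_) hq
    have h1 : ENNReal.ofReal (ρ ^ p) * varCap μ p (ball x t) (ball x (2 * t)) ≤
        (S.Cd : ℝ≥0∞) ^ 2 * μ (ball x ρ) := by
      calc _ ≤ ENNReal.ofReal (ρ ^ p) * (ENNReal.ofReal (t⁻¹ ^ p) * μ (ball x (2 * t))) :=
            mul_le_mul_right (S.varCap_ball_le ht subset_rfl) _
        _ ≤ 1 * μ (ball x (2 ^ 2 * ρ)) := by
            rw [← mul_assoc]
            refine mul_le_mul' ?_ (measure_mono (ball_subset_ball (by linarith)))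
            rw [← ENNReal.ofReal_mul (by positivity), ← Real.mul_rpow hρ.le (by positivity),
              ENNReal.ofReal_le_one]
            refine Real.rpow_le_one (by positivity) ?_ hp0.le
            rw [← div_eq_mul_inv, div_le_one ht]; exact hρt
        _ ≤ _ := by rw [one_mul]; exact S.dbl_pow _ _ _
    calc _ = varCap μ p (E ∩ ball x ρ) (ball x (2 * ρ)) *
          (ENNReal.ofReal (ρ ^ p) * varCap μ p (ball x t) (ball x (2 * t))) := by ring
      _ ≤ Cs * varCap μ p (E ∩ ball x t) (ball x (2 * t)) * ((S.Cd : ℝ≥0∞) ^ 2 * μ (ball x ρ)) :=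
          mul_le_mul' (hs E x ρ t hρ hρt ht2 htR) h1
      _ = Cs * (S.Cd : ℝ≥0∞) ^ 2 * varCap μ p (E ∩ ball x t) (ball x (2 * t)) * μ (ball x ρ) := by
          ring
      _ ≤ _ := by gcongr; exact le_self_add
  · have ht : 0 < t := hρ.trans_le hρt
    have hρR : ρ ≤ R0 := hρt.trans htR
    unfold wienerTerm ncap
    rw [if_neg (hden x ρ hρ hρR), ← ENNReal.mul_rpow_of_nonneg _ _ hq]
    refine ENNReal.rpow_le_rpow (div_le_mul_div (hden x ρ hρ hρR)
      (S.varCap_ball_ne_top hρ subset_rfl) (S.ne_zero x ht) (S.fin _ _) ?_) hq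
    have h1 : μ (ball x t) ≤ S.Cd * (Cm * ENNReal.ofReal (t ^ p) *
        varCap μ p (ball x ρ) (ball x (2 * ρ))) := by
      calc μ (ball x t) ≤ μ (ball x (2 * ρ)) := measure_mono (ball_subset_ball ht2)
        _ ≤ S.Cd * μ (ball x ρ) := S.dbl _ _
        _ ≤ _ := by
            refine mul_le_mul_right ((hm _ x ρ hρ hρR).trans ?_) _
            gcongr
    calc _ ≤ Cs * varCap μ p (E ∩ ball x t) (ball x (2 * t)) * (S.Cd * (Cm * ENNReal.ofReal (t ^ p) *
          varCap μ p (ball x ρ) (ball x (2 * ρ)))) := mul_le_mul' (hs E x ρ t hρ hρt ht2 htR) h1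
      _ = Cs * (Cm * S.Cd) * (ENNReal.ofReal (t ^ p) * varCap μ p (E ∩ ball x t) (ball x (2 * t))) *
          varCap μ p (ball x ρ) (ball x (2 * ρ)) := by ring
      _ ≤ _ := by gcongr; exact le_add_self

lemma Setting.thin_iff (S : Setting μ p) {R0 : ℝ} (hR0 : Nondeg X R0) (h0 : 0 < R0)
    (h1 : R0 ≤ 1 / 4) (E : Set X) (x : X) :
    IsThin μ p E x ↔ ∑' n : ℕ, ncap μ p E x (R0 / 2 ^ n) ^ (1 / (p - 1)) ≠ ⊤ := by
  have hp1 : 1 < p := hp.out
  have hq : 0 ≤ 1 / (p - 1) := by have : 0 < p - 1 := by linarith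
                                  positivity
  obtain ⟨C, hCt, hC⟩ := S.wiener_cmp hR0
  have hρ : ∀ n : ℕ, 0 < R0 / 2 ^ n := fun n => by positivity
  have hρ' : ∀ n : ℕ, R0 / 2 ^ n ≤ R0 := fun n => div_le_self h0.le (one_le_pow₀ one_le_two)
  have hρ2 : ∀ n : ℕ, R0 / 2 ^ n = 2 * (R0 / 2 ^ (n + 1)) := fun n => by field_simp; ring
  set I : ℕ → Set ℝ := fun n => Ioc (R0 / 2 ^ (n + 1)) (R0 / 2 ^ n) with hI
  have hvol : ∀ n, volume (I n) = ENNReal.ofReal (R0 / 2 ^ (n + 1)) := fun n => by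
    simp only [hI, Real.volume_Ioc]
    congr 1
    linarith [hρ2 n]
  unfold IsThin
  rw [lt_top_iff_ne_top]
  constructor
  · intro h
    refine tsum_ne_top_of_tail (fun n => ENNReal.rpow_ne_top_of_nonneg hq
      (S.ncap_ne_top E x (hρ n))) 1 ?_
    have hd : Pairwise (Function.onFun Disjoint I) := by
      refine pairwise_disjoint_on I |>.2 fun m n hmn => ?_
      rw [Set.disjoint_left]
      intro t hm hn
      have : R0 / 2 ^ n ≤ R0 / 2 ^ (m + 1) := by
        gcongr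
        · norm_num
        · omega
      linarith [hm.1, hn.2]
    refine ne_top_of_le_ne_top (ENNReal.mul_ne_top (ENNReal.mul_ne_top (a := 2) (by simp) hCt) h) ?_
    calc ∑' n : ℕ, ncap μ p E x (R0 / 2 ^ (n + 1)) ^ (1 / (p - 1))
        ≤ ∑' n : ℕ, 2 * C * ∫⁻ t in I n, wienerTerm μ p E x t / ENNReal.ofReal t := by
          refine ENNReal.tsum_le_tsum fun n => ?_
          rw [← lintegral_const_mul' _ _ (ENNReal.mul_ne_top (by simp) hCt)]
          have h2 := (ENNReal.ofReal_pos.2 (hρ (n + 1))).ne'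
          calc _ = ∫⁻ _ in I n, ncap μ p E x (R0 / 2 ^ (n + 1)) ^ (1 / (p - 1)) /
                ENNReal.ofReal (R0 / 2 ^ (n + 1)) := by
                rw [setLIntegral_const, hvol, ENNReal.div_mul_cancel h2 ENNReal.ofReal_ne_top]
            _ ≤ _ := by
                refine setLIntegral_mono' measurableSet_Ioc fun t ht => ?_
                have ht0 : 0 < t := (hρ _).trans ht.1
                refine div_le_mul_div h2 ENNReal.ofReal_ne_top (ENNReal.ofReal_pos.2 ht0).ne'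
                  ENNReal.ofReal_ne_top ?_
                have h3 := (hC E x _ t (hρ (n + 1)) ht.1.le (ht.2.trans (hρ2 n).le)
                  (ht.2.trans (hρ' n))).1
                have h4 : ENNReal.ofReal t ≤ 2 * ENNReal.ofReal (R0 / 2 ^ (n + 1)) := by
                  rw [← ENNReal.ofReal_ofNat 2, ← ENNReal.ofReal_mul (by norm_num)]
                  exact ENNReal.ofReal_le_ofReal (ht.2.trans (hρ2 n).le)
                refine (mul_le_mul' h3 h4).trans (le_of_eq ?_)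
                ring
      _ ≤ _ := by
          rw [ENNReal.tsum_mul_left, ← lintegral_iUnion (fun _ => measurableSet_Ioc) hd]
          refine mul_le_mul_right (lintegral_mono_set (iUnion_subset fun n t ht => ?_)) _
          exact ⟨(hρ _).trans ht.1, by linarith [ht.2, hρ' n]⟩
  · intro h
    have hcov : Ioo (0 : ℝ) 1 ⊆ Ioo R0 1 ∪ ⋃ n, I n := by
      intro t ht
      rcases lt_or_ge R0 t with h' | h'
      · exact Or.inl ⟨h', ht.2⟩
      · obtain ⟨n, hn1, hn2⟩ := exists_nat_pow_near (x := R0 / t)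
          (by rw [one_le_div ht.1]; exact h') (one_lt_two (α := ℝ))
        refine Or.inr (mem_iUnion.2 ⟨n, ?_, ?_⟩)
        · rw [div_lt_iff₀ ht.1] at hn2
          rw [div_lt_iff₀ (by positivity)]; linarith
        · rw [le_div_iff₀ ht.1] at hn1
          rw [le_div_iff₀ (by positivity)]; linarith
    refine ne_top_of_le_ne_top ?_ ((lintegral_mono_set hcov).trans (lintegral_union_le _ _ _))
    refine ENNReal.add_ne_top.2 ⟨?_, ?_⟩
    · refine ne_top_of_le_ne_top (b := ∫⁻ _ in Ioo R0 1, 1 / ENNReal.ofReal R0) ?_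
        (setLIntegral_mono' measurableSet_Ioo fun t ht => ?_)
      · rw [setLIntegral_const]
        exact ENNReal.mul_ne_top (ENNReal.div_ne_top (by simp) (ENNReal.ofReal_pos.2 h0).ne')
          (by simp)
      · exact ENNReal.div_le_div (wienerTerm_le_one _ _ _) (ENNReal.ofReal_le_ofReal ht.1.le)
    · refine ne_top_of_le_ne_top (ENNReal.mul_ne_top hCt h) ((lintegral_iUnion_le _ _).trans ?_)
      rw [← ENNReal.tsum_mul_left]
      refine ENNReal.tsum_le_tsum fun n => ?_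
      have h2 := (ENNReal.ofReal_pos.2 (hρ (n + 1))).ne'
      calc _ ≤ ∫⁻ _ in I n, C * ncap μ p E x (R0 / 2 ^ n) ^ (1 / (p - 1)) /
            ENNReal.ofReal (R0 / 2 ^ (n + 1)) := by
            refine setLIntegral_mono' measurableSet_Ioc fun t ht => ?_
            have ht0 : 0 < t := (hρ _).trans ht.1
            exact ENNReal.div_le_div (hC E x t _ ht0 ht.2 (by linarith [hρ2 n, ht.1]) (hρ' n)).2
              (ENNReal.ofReal_le_ofReal ht.1.le)
        _ = _ := by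
            rw [setLIntegral_const, hvol, ENNReal.div_mul_cancel h2 ENNReal.ofReal_ne_top]

omit [BorelSpace X] in
lemma IsThin.mono {E F : Set X} {x : X} (h : IsThin μ p F x) (hEF : E ⊆ F) : IsThin μ p E x := by
  unfold IsThin at *
  refine lt_of_le_of_lt (lintegral_mono fun t => ENNReal.div_le_div_right ?_ _) h
  unfold wienerTerm
  split_ifs
  · exact le_rfl
  · refine ENNReal.rpow_le_rpow (ENNReal.div_le_div_right ?_ _) (by have := hp.out; positivity)
    exact varCap_mono (inter_subset_inter_left _ hEF) subset_rfl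

variable [Nontrivial X]

lemma Setting.thin_union (S : Setting μ p) {E F : Set X} {x : X} (hE : IsThin μ p E x)
    (hF : IsThin μ p F x) : IsThin μ p (E ∪ F) x := by
  have hp1 : 1 < p := hp.out
  have hq : 0 ≤ 1 / (p - 1) := by have : 0 < p - 1 := by linarith
                                  positivity
  obtain ⟨R0, h0, h1, hR0⟩ := S.exists_nondeg
  rw [S.thin_iff hR0 h0 h1] at *
  refine ne_top_of_le_ne_top (ENNReal.mul_ne_top
    (ENNReal.rpow_ne_top_of_nonneg hq (x := 2) (by simp)) (ENNReal.add_ne_top.2 ⟨hE, hF⟩)) ?_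
  rw [← ENNReal.tsum_add, ← ENNReal.tsum_mul_left]
  refine ENNReal.tsum_le_tsum fun n => le_trans (ENNReal.rpow_le_rpow ?_ hq) (add_rpow_le hq)
  unfold ncap
  rw [← ENNReal.add_div, ← mul_add, union_inter_distrib_right]
  gcongr
  exact varCap_union_le _ _ _ (S.fin _ _)

lemma Setting.thin_of_sobolevCap (S : Setting μ p) {E : Set X} (hE : sobolevCap μ p E = 0)
    (x : X) : IsThin μ p E x := by
  have hp1 : 1 < p := hp.out
  have hq : 0 < 1 / (p - 1) := by have : 0 < p - 1 := by linarith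
                                  positivity
  obtain ⟨R0, h0, h1, hR0⟩ := S.exists_nondeg
  rw [S.thin_iff hR0 h0 h1]
  have : ∀ n : ℕ, ncap μ p E x (R0 / 2 ^ n) ^ (1 / (p - 1)) = 0 := fun n => by
    unfold ncap
    rw [S.varCap_of_sobolevCap hE x (by positivity), mul_zero, ENNReal.zero_div,
      ENNReal.zero_rpow_of_pos hq]
  simp only [this, tsum_zero]
  exact ENNReal.zero_ne_top

lemma Setting.thin_empty (S : Setting μ p) (x : X) : IsThin μ p ∅ x := by
  have hp1 : 1 < p := hp.out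
  have hq : 0 < 1 / (p - 1) := by have : 0 < p - 1 := by linarith
                                  positivity
  obtain ⟨R0, h0, h1, hR0⟩ := S.exists_nondeg
  rw [S.thin_iff hR0 h0 h1]
  have : ∀ n : ℕ, ncap μ p ∅ x (R0 / 2 ^ n) ^ (1 / (p - 1)) = 0 := fun n => by
    unfold ncap
    rw [empty_inter, varCap_empty _ (S.fin _ _), mul_zero, ENNReal.zero_div,
      ENNReal.zero_rpow_of_pos hq]
  simp only [this, tsum_zero]
  exact ENNReal.zero_ne_top

lemma Setting.not_thin_univ (S : Setting μ p) (x : X) : ¬ IsThin μ p univ x := by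
  have hp1 : 1 < p := hp.out
  have hq : 0 < 1 / (p - 1) := by have : 0 < p - 1 := by linarith
                                  positivity
  obtain ⟨R0, h0, h1, hR0⟩ := S.exists_nondeg
  obtain ⟨C, hC1, hC⟩ := S.measure_le_cap hR0
  have hC0 : (C : ℝ≥0∞) ≠ 0 := by exact_mod_cast (zero_lt_one.trans_le hC1).ne'
  rw [S.thin_iff hR0 h0 h1, not_not, ← top_le_iff,
    ← ENNReal.tsum_const_eq_top_of_ne_zero (α := ℕ) (c := (C : ℝ≥0∞)⁻¹ ^ (1 / (p - 1)))
      (ENNReal.rpow_pos (by simp) (by simpa using hC0)).ne']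
  refine ENNReal.tsum_le_tsum fun n => ENNReal.rpow_le_rpow ?_ hq.le
  have hρ : 0 < R0 / 2 ^ n := by positivity
  unfold ncap
  rw [ENNReal.le_div_iff_mul_le (Or.inl (S.ne_zero x hρ)) (Or.inl (S.fin _ _)), univ_inter,
    ENNReal.inv_mul_le_iff hC0 ENNReal.coe_ne_top, ← mul_assoc]
  exact hC _ x _ hρ (div_le_self h0.le (one_le_pow₀ one_le_two))

end Pool.Agent.MP_024e69_an

end
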